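import Pool.Agent.Lib.MP_763071_co.KK.Spec

/-!
# The backbone of a poset without `k + k`
-/

set_option autoImplicit false

namespace Pool.Agent.MP763071.KK.BackboneAux

variable {P : Type}

/-- `f 0 < … < f (n - 1)` -/
def SM [PartialOrder P] (n : ℕ) (f : ℕ → P) : Prop := ∀ i j, i < j → j < n → f i < f j

lemma SM.le_card [Fintype P] [PartialOrder P] {n : ℕ} {f : ℕ → P} (h : SM n f) :
    n ≤ Fintype.card P := by
  have hinj : Function.Injective (fun i : Fin n => f i) := by
    intro i j hij
    by_contra hne
    rcases lt_or_gt_of_ne (fun h : (i : ℕ) = j => hne (Fin.ext h)) with h1 | h1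
    · exact (h i j h1 j.2).ne hij
    · exact (h j i h1 i.2).ne hij.symm
  have := Fintype.card_le_of_injective _ hinj
  rwa [Fintype.card_fin] at this

lemma SM.concat [PartialOrder P] {a b : ℕ} {f g : ℕ → P} (hf : SM a f) (hg : SM b g)
    (hfg : ∀ i < a, ∀ j < b, f i < g j) :
    SM (a + b) (fun t => if t < a then f t else g (t - a)) := by
  intro i j hij hj
  dsimp only
  by_cases h1 : j < a
  · rw [if_pos (by omega), if_pos h1]
    exact hf i j hij h1
  · rw [if_neg h1]
    by_cases h2 : i < a
    · rw [if_pos h2]
      exact hfg i h2 (j - a) (by omega)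
    · rw [if_neg h2]
      exact hg (i - a) (j - a) (by omega) (by omega)

lemma exists_max (P : Type) [Fintype P] [PartialOrder P] [Nonempty P] :
    ∃ h : ℕ, (∃ f : ℕ → P, SM h f) ∧ ∀ (n : ℕ) (f : ℕ → P), SM n f → n ≤ h := by
  classical
  let Q : ℕ → Prop := fun n => ∃ f : ℕ → P, SM n f
  have h0 : Q 0 := ⟨fun _ => Classical.arbitrary P, fun i j _ hj => absurd hj (by omega)⟩
  refine ⟨Nat.findGreatest Q (Fintype.card P), ?_, ?_⟩
  · exact Nat.findGreatest_spec (P := Q) (Nat.zero_le _) h0
  · intro n f hf
    exact Nat.le_findGreatest (P := Q) hf.le_card ⟨f, hf⟩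

end Pool.Agent.MP763071.KK.BackboneAux

namespace Pool.Agent.MP763071.KK

open BackboneAux in
theorem backbone : BackboneStmt := by
  classical
  intro P _ _ _ k hKK
  obtain ⟨h, ⟨f, hf⟩, hmax⟩ := exists_max P
  have hk : 1 ≤ k := by
    rcases Nat.eq_zero_or_pos k with h0 | h0
    · exfalso
      apply hKK
      subst h0
      exact ⟨Fin.elim0, Fin.elim0, fun i => i.elim0, fun i => i.elim0, fun i => i.elim0⟩
    · exact h0
  set ch : ℕ → P := fun i => f (i - 1) with hch
  have chlt : ∀ i j, 1 ≤ i → i < j → j ≤ h → ch i < ch j := by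
    intro i j h1 h2 h3
    exact hf (i - 1) (j - 1) (by omega) (by omega)
  have chle : ∀ i j, 1 ≤ i → i ≤ j → j ≤ h → ch i ≤ ch j := by
    intro i j h1 h2 h3
    rcases Nat.eq_or_lt_of_le h2 with h4 | h4
    · rw [h4]
    · exact (chlt i j h1 h4 h3).le
  let l : P → ℕ := fun x => Nat.findGreatest (fun i => 1 ≤ i ∧ ch i ≤ x) h
  have l_le : ∀ x, l x ≤ h := fun x => Nat.findGreatest_le h
  have l_iff : ∀ x i, 1 ≤ i → i ≤ h → (ch i ≤ x ↔ i ≤ l x) := by
    intro x i h1 h2
    constructor
    · intro h3
      exact Nat.le_findGreatest h2 ⟨h1, h3⟩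
    · intro h3
      have h4 : l x ≠ 0 := by omega
      have h5 : 1 ≤ l x ∧ ch (l x) ≤ x :=
        Nat.findGreatest_of_ne_zero (P := fun i => 1 ≤ i ∧ ch i ≤ x) (n := h) (m := l x) rfl h4
      exact le_trans (chle i (l x) h1 h3 (l_le x)) h5.2
  have hex : ∀ x : P, ∃ i, i = h + 1 ∨ (1 ≤ i ∧ i ≤ h ∧ x ≤ ch i) := fun x => ⟨h + 1, Or.inl rfl⟩
  let r : P → ℕ := fun x => Nat.find (hex x)
  have r_spec : ∀ x, r x = h + 1 ∨ (1 ≤ r x ∧ r x ≤ h ∧ x ≤ ch (r x)) := fun x =>
    Nat.find_spec (hex x)
  have r_pos : ∀ x, 1 ≤ r x := by
    intro x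
    rcases r_spec x with h1 | h1
    · omega
    · exact h1.1
  have r_le : ∀ x, r x ≤ h + 1 := fun x => Nat.find_min' (hex x) (Or.inl rfl)
  have r_iff : ∀ x i, 1 ≤ i → i ≤ h → (x ≤ ch i ↔ r x ≤ i) := by
    intro x i h1 h2
    constructor
    · intro h3
      exact Nat.find_min' (hex x) (Or.inr ⟨h1, h2, h3⟩)
    · intro h3
      rcases r_spec x with h4 | h4
      · omega
      · exact le_trans h4.2.2 (chle (r x) i h4.1 h3 h2)
  refine ⟨h, ch, l, r, ⟨?_, l_le, r_pos, r_le, l_iff, r_iff, ?_⟩⟩
  · -- saturated
    intro i h1 h2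
    refine ⟨chlt i (i + 1) h1 (by omega) (by omega), ?_⟩
    intro x hx1 hx2
    have s1 : SM i (fun t => ch (t + 1)) := fun a b hab hb =>
      chlt (a + 1) (b + 1) (by omega) (by omega) (by omega)
    have s2 : SM 1 (fun _ => x) := fun a b hab hb => absurd hb (by omega)
    have s3 : SM (h - i) (fun t => ch (t + (i + 1))) := fun a b hab hb =>
      chlt (a + (i + 1)) (b + (i + 1)) (by omega) (by omega) (by omega)
    have s12 := s1.concat s2 (fun a ha b _ => lt_of_le_of_lt (chle (a + 1) i (by omega) (by omega)
      (by omega)) hx1)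
    have s123 := s12.concat s3 (fun a ha b hb => by
      have hb' : x < ch (b + (i + 1)) :=
        lt_of_lt_of_le hx2 (chle (i + 1) (b + (i + 1)) (by omega) (by omega) (by omega))
      by_cases h3 : a < i
      · rw [if_pos h3]
        exact chlt (a + 1) (b + (i + 1)) (by omega) (by omega) (by omega)
      · rw [if_neg h3]
        exact hb')
    have := hmax _ _ s123
    omega
  · -- short
    intro v L d hd hfib
    by_contra hL
    push Not at hL
    have dle : ∀ i j, i ≤ j → j < L → d i ≤ d j := by
      intro i j h1 h2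
      rcases Nat.eq_or_lt_of_le h1 with h3 | h3
      · rw [h3]
      · exact (hd i j h3 h2).le
    -- (a)
    have ha : r (d (L - k)) ≤ v + k := by
      by_cases h1 : h < v + k
      · have := r_le (d (L - k)); omega
      · push Not at h1
        by_contra hcon
        push Not at hcon
        apply hKK
        refine ⟨fun j => d (L - k + j), fun j => ch (v + 1 + j), ?_, ?_, ?_⟩
        · intro a b hab
          exact hd _ _ (by have : (a : ℕ) < b := hab; omega) (by have := b.2; omega)
        · intro a b hab
          have h3 : (a : ℕ) < b := hab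
          have := b.2
          exact chlt _ _ (by omega) (by omega) (by omega)
        · intro a b
          have h2 := a.2
          have h3 := b.2
          constructor
          · intro h4
            have h5 : d (L - k) ≤ ch (v + 1 + b) :=
              le_trans (dle (L - k) (L - k + a) (by omega) (by omega)) h4
            have h6 := (r_iff (d (L - k)) (v + 1 + b) (by omega) (by omega)).mp h5
            omega
          · intro h4
            have h6 := (l_iff (d (L - k + a)) (v + 1 + b) (by omega) (by omega)).mp h4
            have h7 := (hfib (L - k + a) (by omega)).1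
            omega
    have hb : v ≤ l (d (k - 1)) + k := by
      by_cases h1 : v ≤ k
      · omega
      · push Not at h1
        by_contra hcon
        push Not at hcon
        have hv : v ≤ h + 1 := le_trans (hfib 0 (by omega)).2 (r_le _)
        apply hKK
        refine ⟨fun j => d j, fun j => ch (v - k + j), ?_, ?_, ?_⟩
        · intro a b hab
          exact hd _ _ hab (by have := b.2; omega)
        · intro a b hab
          have h3 : (a : ℕ) < b := hab
          have := b.2
          exact chlt _ _ (by omega) (by omega) (by omega)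
        · intro a b
          have h2 := a.2
          have h3 := b.2
          constructor
          · intro h4
            have h6 := (r_iff (d a) (v - k + b) (by omega) (by omega)).mp h4
            have h7 := (hfib a (by omega)).2
            omega
          · intro h4
            have h5 : ch (v - k + b) ≤ d (k - 1) := le_trans h4 (dle a (k - 1) (by omega) (by omega))
            have h6 := (l_iff (d (k - 1)) (v - k + b) (by omega) (by omega)).mp h5
            omega
    -- (c)
    have s1 : SM (l (d (k - 1))) (fun t => ch (t + 1)) := fun a b hab hb' =>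
      chlt (a + 1) (b + 1) (by omega) (by omega) (by have := l_le (d (k - 1)); omega)
    have s2 : SM (L - 2 * k) (fun t => d (t + k)) := fun a b hab hb' =>
      hd (a + k) (b + k) (by omega) (by omega)
    have s3 : SM (h + 1 - r (d (L - k))) (fun t => ch (t + r (d (L - k)))) := fun a b hab hb' =>
      chlt _ _ (by have := r_pos (d (L - k)); omega) (by omega) (by omega)
    have c1 : ∀ a < l (d (k - 1)), ch (a + 1) ≤ d (k - 1) := fun a ha' =>
      (l_iff (d (k - 1)) (a + 1) (by omega) (by have := l_le (d (k - 1)); omega)).mpr (by omega)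
    have c3 : ∀ a < h + 1 - r (d (L - k)), d (L - k) ≤ ch (a + r (d (L - k))) := fun a ha' =>
      (r_iff (d (L - k)) (a + r (d (L - k))) (by have := r_pos (d (L - k)); omega)
        (by omega)).mpr (by omega)
    have s12 := s1.concat s2 (fun a ha' b hb' =>
      lt_of_le_of_lt (c1 a ha') (hd (k - 1) (b + k) (by omega) (by omega)))
    have s123 := s12.concat s3 (fun a ha' b hb' => by
      by_cases h3 : a < l (d (k - 1))
      · rw [if_pos h3]
        exact lt_of_le_of_lt (c1 a h3) (lt_of_lt_of_le (hd (k - 1) (L - k) (by omega) (by omega))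
          (c3 b hb'))
      · rw [if_neg h3]
        exact lt_of_lt_of_le (hd _ (L - k) (by omega) (by omega)) (c3 b hb'))
    have hfin := hmax _ _ s123
    have := r_le (d (L - k))
    omega

end Pool.Agent.MP763071.KK
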