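import Pool.Agent.Lib.MP_763071_co.KK.Spec

/-!
# MP_763071_co : greedy colouring
-/

set_option autoImplicit false

namespace Pool.Agent.MP763071.KK

namespace ColAux

theorem step {V : Type} [Fintype V] (R : V → V → Prop) (π : V → ℕ) (c : ℕ)
    (hπ : Function.Injective π) (hR : ∀ v u, R v u → π u ≤ π v)
    (hc : ∀ v, {u | R v u}.ncard ≤ c) (n : ℕ) :
    ∃ col : V → Fin (c + 1), ∀ v u, π v < n → R v u → u ≠ v → col u ≠ col v := by
  classical
  induction n with
  | zero => exact ⟨fun _ => 0, fun v u h => absurd h (Nat.not_lt_zero _)⟩
  | succ n ih =>
    obtain ⟨col, hcol⟩ := ih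
    by_cases hv : ∃ v, π v = n
    · obtain ⟨v, hv⟩ := hv
      have hex : ∃ k : Fin (c + 1), k ∉ (Finset.univ.filter fun u => R v u).image col := by
        by_contra hcon
        push Not at hcon
        have h1 : (Finset.univ : Finset (Fin (c + 1))).card ≤
            ((Finset.univ.filter fun u => R v u).image col).card :=
          Finset.card_le_card fun k _ => hcon k
        have h2 : ((Finset.univ.filter fun u => R v u).image col).card ≤
            (Finset.univ.filter fun u => R v u).card := Finset.card_image_le
        have h3 : {u | R v u}.ncard = (Finset.univ.filter fun u => R v u).card := by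
          rw [← Set.ncard_coe_finset]
          congr 1
          ext u
          simp
        have h4 := hc v
        rw [Finset.card_univ, Fintype.card_fin] at h1
        omega
      obtain ⟨k, hk⟩ := hex
      refine ⟨Function.update col v k, ?_⟩
      intro v' u hlt hR' hne
      by_cases hvv : v' = v
      · subst hvv
        rw [Function.update_self, Function.update_of_ne hne]
        intro h
        exact hk (Finset.mem_image.2 ⟨u, Finset.mem_filter.2 ⟨Finset.mem_univ _, hR'⟩, h⟩)
      · have h1 : π v' ≠ n := fun h => hvv (hπ (h.trans hv.symm))
        have h2 : π v' < n := by omega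
        have h3 : u ≠ v := by
          rintro rfl
          have := hR v' u hR'
          omega
        rw [Function.update_of_ne hvv, Function.update_of_ne h3]
        exact hcol v' u h2 hR' hne
    · refine ⟨col, fun v u hlt hR' hne => hcol v u ?_ hR' hne⟩
      have : π v ≠ n := fun h => hv ⟨v, h⟩
      omega

end ColAux

theorem colThm : ColStmt := by
  intro V _ R π c hπ hR hc
  obtain ⟨col, hcol⟩ := ColAux.step R π c hπ hR hc (Finset.univ.sup π + 1)
  refine ⟨col, fun v u h hne => hcol v u ?_ h hne⟩
  exact Nat.lt_succ_of_le (Finset.le_sup (Finset.mem_univ v))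

end Pool.Agent.MP763071.KK
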