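import Pool.Agent.Lib.MP_763071_co.KK.Spec

/-!
# MP_763071_co : the decomposition of a graph without `K_n` minor (`DecompStmt`)
-/

set_option autoImplicit false

namespace Pool.Agent.MP763071.KK.DecompAux

variable {V : Type}

/-- the component of `v` in `G[C]` -/
def Cc (G : SimpleGraph V) (C : Set V) (v : V) : Set V := {w | ∃ ρ, RG G C ρ v w}

/-- two sets joined by an edge -/
def AdjS (G : SimpleGraph V) (S T : Set V) : Prop := ∃ x ∈ S, ∃ y ∈ T, G.Adj x y

lemma adjS_symm {G : SimpleGraph V} {S T : Set V} (h : AdjS G S T) : AdjS G T S := by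
  obtain ⟨x, hx, y, hy, hxy⟩ := h
  exact ⟨y, hy, x, hx, hxy.symm⟩

lemma rg_left {G : SimpleGraph V} {C : Set V} {ρ : ℕ} {v u : V} (h : RG G C ρ v u) : v ∈ C := by
  obtain ⟨L, _, w, h0, _, _, hC⟩ := h
  rw [← h0]
  exact hC 0 (Nat.zero_le _)

lemma rg_right {G : SimpleGraph V} {C : Set V} {ρ : ℕ} {v u : V} (h : RG G C ρ v u) : u ∈ C := by
  obtain ⟨L, _, w, _, h1, _, hC⟩ := h
  rw [← h1]
  exact hC L le_rfl

lemma rg_mono {G : SimpleGraph V} {C C' : Set V} {ρ : ℕ} {v u : V} (hC : C ⊆ C')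
    (h : RG G C ρ v u) : RG G C' ρ v u := by
  obtain ⟨L, hL, w, h0, h1, hA, hw⟩ := h
  exact ⟨L, hL, w, h0, h1, hA, fun t ht => hC (hw t ht)⟩

lemma rg_refl {G : SimpleGraph V} {C : Set V} {v : V} (hv : v ∈ C) : RG G C 0 v v :=
  ⟨0, le_rfl, fun _ => v, rfl, rfl, fun t ht => absurd ht (Nat.not_lt_zero t), fun _ _ => hv⟩

lemma rg_symm {G : SimpleGraph V} {C : Set V} {ρ : ℕ} {v u : V} (h : RG G C ρ v u) :
    RG G C ρ u v := by
  obtain ⟨L, hL, w, h0, h1, hA, hC⟩ := h
  refine ⟨L, hL, fun t => w (L - t), by simpa using h1, by simpa using h0, ?_, ?_⟩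
  · intro t ht
    have h2 := hA (L - (t + 1)) (by omega)
    have e : L - (t + 1) + 1 = L - t := by omega
    rw [e] at h2
    exact h2.symm
  · intro t ht
    exact hC _ (by omega)

lemma rg_trans {G : SimpleGraph V} {C : Set V} {ρ σ : ℕ} {v u x : V} (h : RG G C ρ v u)
    (h' : RG G C σ u x) : RG G C (ρ + σ) v x := by
  obtain ⟨L, hL, w, h0, h1, hA, hC⟩ := h
  obtain ⟨L', hL', w', h0', h1', hA', hC'⟩ := h'
  refine ⟨L + L', by omega, fun t => if t ≤ L then w t else w' (t - L), ?_, ?_, ?_, ?_⟩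
  · simp [h0]
  · by_cases hz : L' = 0
    · subst hz
      simp only [Nat.add_zero, le_refl, if_true]
      rw [h1, ← h0', h1']
    · have hn : ¬ (L + L' ≤ L) := by omega
      simp only [hn, if_false, Nat.add_sub_cancel_left]
      exact h1'
  · intro t ht
    by_cases h1t : t < L
    · have a : t ≤ L := by omega
      have b : t + 1 ≤ L := by omega
      simp only [a, b, if_true]
      exact hA t h1t
    · by_cases h2t : t = L
      · subst h2t
        have b : ¬ (t + 1 ≤ t) := by omega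
        simp only [le_refl, b, if_true, if_false, Nat.add_sub_cancel_left]
        rw [h1, ← h0']
        exact hA' 0 (by omega)
      · have a : ¬ (t ≤ L) := by omega
        have b : ¬ (t + 1 ≤ L) := by omega
        simp only [a, b, if_false]
        have e : t + 1 - L = t - L + 1 := by omega
        rw [e]
        exact hA' _ (by omega)
  · intro t ht
    by_cases h1t : t ≤ L
    · simp only [h1t, if_true]
      exact hC t h1t
    · simp only [h1t, if_false]
      exact hC' _ (by omega)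

lemma cc_sub {G : SimpleGraph V} {C : Set V} {v : V} : Cc G C v ⊆ C := by
  rintro w ⟨ρ, h⟩
  exact rg_right h

lemma cc_self {G : SimpleGraph V} {C : Set V} {v : V} (hv : v ∈ C) : v ∈ Cc G C v :=
  ⟨0, rg_refl hv⟩

lemma cc_mem {G : SimpleGraph V} {C : Set V} {v u : V} (h : u ∈ Cc G C v) : v ∈ C := by
  obtain ⟨ρ, h⟩ := h
  exact rg_left h

lemma cc_eq {G : SimpleGraph V} {C : Set V} {v u : V} (h : u ∈ Cc G C v) :
    Cc G C u = Cc G C v := by
  obtain ⟨ρ, h⟩ := h
  ext x
  constructor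
  · rintro ⟨σ, hx⟩
    exact ⟨_, rg_trans h hx⟩
  · rintro ⟨σ, hx⟩
    exact ⟨_, rg_trans (rg_symm h) hx⟩

lemma cc_mono {G : SimpleGraph V} {C C' : Set V} {v : V} (hC : C ⊆ C') :
    Cc G C v ⊆ Cc G C' v := by
  rintro w ⟨ρ, h⟩
  exact ⟨ρ, rg_mono hC h⟩

lemma cc_step {G : SimpleGraph V} {C : Set V} {v u x : V} (hu : u ∈ Cc G C v) (hx : x ∈ C)
    (h : G.Adj u x) : x ∈ Cc G C v := by
  obtain ⟨ρ, hρ⟩ := hu
  have h2 : RG G C 1 u x := by
    refine ⟨1, le_rfl, fun t => if t = 0 then u else x, by simp, by simp, ?_, ?_⟩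
    · intro t ht
      have ht0 : t = 0 := by omega
      subst ht0
      simpa using h
    · intro t ht
      by_cases ht0 : t = 0
      · simp only [ht0, if_true]
        exact rg_right hρ
      · simp only [ht0, if_false]
        exact hx
  exact ⟨_, rg_trans hρ h2⟩

lemma cc_rg {G : SimpleGraph V} {C : Set V} {ρ : ℕ} {v u : V} (h : RG G C ρ v u) :
    RG G (Cc G C v) ρ v u := by
  obtain ⟨L, hL, w, h0, h1, hA, hC⟩ := h
  refine ⟨L, hL, w, h0, h1, hA, fun t ht => ?_⟩
  exact ⟨t, t, le_rfl, w, h0, rfl, fun s hs => hA s (by omega), fun s hs => hC s (by omega)⟩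

lemma reach_of_rg {G : SimpleGraph V} {S : Set V} {ρ : ℕ} {v u : V} (h : RG G S ρ v u)
    (hv : v ∈ S) (hu : u ∈ S) : (G.induce S).Reachable ⟨v, hv⟩ ⟨u, hu⟩ := by
  obtain ⟨L, hL, w, h0, h1, hA, hC⟩ := h
  have key : ∀ t, ∀ ht : t ≤ L, (G.induce S).Reachable ⟨v, hv⟩ ⟨w t, hC t ht⟩ := by
    intro t
    induction t with
    | zero =>
      intro ht
      have e : (⟨w 0, hC 0 ht⟩ : S) = ⟨v, hv⟩ := Subtype.ext h0
      rw [e]
    | succ t ih =>
      intro ht
      refine (ih (by omega)).trans (SimpleGraph.Adj.reachable ?_)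
      exact hA t (by omega)
  have h2 := key L le_rfl
  have e : (⟨w L, hC L le_rfl⟩ : S) = ⟨u, hu⟩ := Subtype.ext h1
  rw [e] at h2
  exact h2

lemma cc_conn {G : SimpleGraph V} {C : Set V} {v : V} (hv : v ∈ C) :
    (G.induce (Cc G C v)).Connected := by
  have hself : v ∈ Cc G C v := cc_self hv
  refine (SimpleGraph.connected_iff _).2 ⟨?_, ⟨⟨v, hself⟩⟩⟩
  have h1 : ∀ x : Cc G C v, (G.induce (Cc G C v)).Reachable ⟨v, hself⟩ x := by
    rintro ⟨x, ρ, hx⟩
    exact reach_of_rg (cc_rg hx) hself ⟨ρ, hx⟩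
  intro x y
  exact (h1 x).symm.trans (h1 y)

lemma conn_nonempty {G : SimpleGraph V} {S : Set V} (h : (G.induce S).Connected) :
    S.Nonempty := by
  obtain ⟨x⟩ := h.nonempty
  exact ⟨x.1, x.2⟩

lemma minor_of [Fintype V] {G : SimpleGraph V} (F : Set (Set V)) (n : ℕ)
    (hc : ∀ B ∈ F, (G.induce B).Connected) (hd : ∀ B ∈ F, ∀ B' ∈ F, B ≠ B' → Disjoint B B')
    (ha : ∀ B ∈ F, ∀ B' ∈ F, B ≠ B' → AdjS G B B') (hn : n ≤ F.ncard) : HasMinor G n := by
  classical
  have hfin : F.Finite := Set.toFinite F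
  have : Fintype F := hfin.fintype
  have hcard : Fintype.card (Fin n) ≤ Fintype.card F := by
    rw [Fintype.card_fin, ← Nat.card_eq_fintype_card, Nat.card_coe_set_eq]
    exact hn
  obtain ⟨e⟩ := Function.Embedding.nonempty_of_card_le hcard
  refine ⟨fun i => (e i : Set V), fun i => hc _ (e i).2,
    fun i j hij => hd _ (e i).2 _ (e j).2 ?_, fun i j hij => ha _ (e i).2 _ (e j).2 ?_⟩
  all_goals exact fun h => hij (e.injective (Subtype.ext h))

lemma comp_choice [Fintype V] {G : SimpleGraph V} (h : GeoStmt) {n : ℕ} (hn : ¬ HasMinor G n)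
    (K : Set V) (hK : (G.induce K).Connected) (𝓑 : Set (Set V))
    (hBc : ∀ B ∈ 𝓑, (G.induce B).Connected ∧ Disjoint B K)
    (hBd : ∀ B ∈ 𝓑, ∀ B' ∈ 𝓑, B ≠ B' → Disjoint B B')
    (hBa : ∀ B ∈ 𝓑, ∀ B' ∈ 𝓑, B ≠ B' → AdjS G K B → AdjS G K B' → AdjS G B B') :
    {B | B ∈ 𝓑 ∧ AdjS G K B}.ncard ≤ n ∧
    ∃ H : Set V, H ⊆ K ∧ (G.induce H).Connected ∧ (∀ B ∈ 𝓑, AdjS G K B → AdjS G H B) ∧
      ∀ (v : V) (ρ : ℕ), {u | u ∈ H ∧ RG G K ρ v u}.ncard ≤ n * (2 * ρ + 1) := by
  classical
  set F : Set (Set V) := {B | B ∈ 𝓑 ∧ AdjS G K B} with hF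
  obtain ⟨v0, hv0⟩ := conn_nonempty hK
  have hKF : K ∉ F := by
    rintro ⟨hKB, -⟩
    have hdis := (hBc K hKB).2
    exact (Set.disjoint_left.1 hdis) hv0 hv0
  have hcard : (insert K F).ncard = F.ncard + 1 :=
    Set.ncard_insert_of_notMem hKF (Set.toFinite F)
  have hlt : F.ncard + 1 < n := by
    by_contra hcon
    refine hn (minor_of (insert K F) n ?_ ?_ ?_ (by rw [hcard]; omega))
    · intro B hB
      rcases hB with rfl | hB
      · exact hK
      · exact (hBc B hB.1).1
    · intro B hB B' hB' hne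
      rcases hB with rfl | hB
      · rcases hB' with rfl | hB'
        · exact absurd rfl hne
        · exact (hBc B' hB'.1).2.symm
      · rcases hB' with rfl | hB'
        · exact (hBc B hB.1).2
        · exact hBd B hB.1 B' hB'.1 hne
    · intro B hB B' hB' hne
      rcases hB with rfl | hB
      · rcases hB' with rfl | hB'
        · exact absurd rfl hne
        · exact hB'.2
      · rcases hB' with rfl | hB'
        · exact adjS_symm hB.2
        · exact hBa B hB.1 B' hB'.1 hne hB.2 hB'.2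
  refine ⟨by omega, ?_⟩
  have hch : ∀ B : Set V, ∃ a : V, B ∈ F → a ∈ K ∧ ∃ y ∈ B, G.Adj a y := by
    intro B
    by_cases hB : B ∈ F
    · obtain ⟨x, hx, y, hy, hxy⟩ := hB.2
      exact ⟨x, fun _ => ⟨hx, y, hy, hxy⟩⟩
    · exact ⟨v0, fun hB' => absurd hB' hB⟩
  choose a ha using hch
  have hW : (insert v0 (a '' F)).ncard ≤ n := by
    have h1 := Set.ncard_insert_le v0 (a '' F)
    have h2 : (a '' F).ncard ≤ F.ncard := Set.ncard_image_le (Set.toFinite F)
    omega
  obtain ⟨H, hWH, hHK, hHc, hcount⟩ := h V G K hK n (insert v0 (a '' F)) ⟨v0, Or.inl rfl⟩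
    (by
      rintro x (rfl | ⟨B, hB, rfl⟩)
      · exact hv0
      · exact (ha B hB).1) hW
  refine ⟨H, hHK, hHc, ?_, hcount⟩
  intro B hB hKB
  obtain ⟨-, y, hy, hay⟩ := ha B ⟨hB, hKB⟩
  exact ⟨a B, hWH (Or.inr ⟨B, ⟨hB, hKB⟩, rfl⟩), y, hy, hay⟩

/-- the claim of the induction -/
lemma claim [Fintype V] {G : SimpleGraph V} (h : GeoStmt) {n : ℕ} (hn : ¬ HasMinor G n) :
    ∀ (N : ℕ) (C : Set V), C.ncard ≤ N → ∀ 𝓑 : Set (Set V),
      (∀ B ∈ 𝓑, (G.induce B).Connected ∧ Disjoint B C) →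
      (∀ B ∈ 𝓑, ∀ B' ∈ 𝓑, B ≠ B' → Disjoint B B') →
      (∀ v ∈ C, ∀ B ∈ 𝓑, ∀ B' ∈ 𝓑, B ≠ B' → AdjS G (Cc G C v) B → AdjS G (Cc G C v) B' →
        AdjS G B B') →
      ∃ part : V → ℕ,
        (∀ (v : V) (i ρ : ℕ), {u | u ∈ C ∧ part u = i ∧
          RG G {w | w ∈ C ∧ i ≤ part w} ρ v u}.ncard ≤ n * (2 * ρ + 1)) ∧
        ∀ v ∈ C,
          {i | i < part v ∧ ∃ w ∈ Cc G {x | x ∈ C ∧ part v ≤ part x} v, ∃ u ∈ C, G.Adj w u ∧
            part u = i}.ncard +
          {B | B ∈ 𝓑 ∧ AdjS G (Cc G {x | x ∈ C ∧ part v ≤ part x} v) B}.ncard ≤ n := by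
  classical
  intro N
  induction N with
  | zero =>
    intro C hC 𝓑 _ _ _
    have hCe : C = ∅ := (Set.ncard_eq_zero (Set.toFinite C)).1 (Nat.le_zero.1 hC)
    subst hCe
    refine ⟨fun _ => 0, ?_, ?_⟩
    · intro v i ρ
      simp
    · intro v hv
      exact absurd hv (Set.notMem_empty v)
  | succ N ih =>
    intro C hC 𝓑 hBc hBd hBa
    rcases Set.eq_empty_or_nonempty C with hCe | hCne
    · subst hCe
      refine ⟨fun _ => 0, ?_, ?_⟩
      · intro v i ρ
        simp
      · intro v hv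
        exact absurd hv (Set.notMem_empty v)
    -- the choice for the components
    have hcomp : ∀ K : Set V, ∃ H : Set V, (∃ v ∈ C, K = Cc G C v) →
        ({B | B ∈ 𝓑 ∧ AdjS G K B}.ncard ≤ n ∧ H ⊆ K ∧ (G.induce H).Connected ∧
        (∀ B ∈ 𝓑, AdjS G K B → AdjS G H B) ∧
        ∀ (v : V) (ρ : ℕ), {u | u ∈ H ∧ RG G K ρ v u}.ncard ≤ n * (2 * ρ + 1)) := by
      intro K
      by_cases hK : ∃ v ∈ C, K = Cc G C v
      · obtain ⟨v, hv, rfl⟩ := hK
        obtain ⟨h1, H, h2, h3, h4, h5⟩ := comp_choice h hn (Cc G C v) (cc_conn hv) 𝓑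
          (fun B hB => ⟨(hBc B hB).1, (hBc B hB).2.mono_right cc_sub⟩) hBd
          (fun B hB B' hB' hne => hBa v hv B hB B' hB' hne)
        exact ⟨H, fun _ => ⟨h1, h2, h3, h4, h5⟩⟩
      · exact ⟨∅, fun hK' => absurd hK' hK⟩
    choose Hf hHf using hcomp
    have Hcard : ∀ v ∈ C, {B | B ∈ 𝓑 ∧ AdjS G (Cc G C v) B}.ncard ≤ n :=
      fun v hv => (hHf (Cc G C v) ⟨v, hv, rfl⟩).1
    have Hsub : ∀ v ∈ C, Hf (Cc G C v) ⊆ Cc G C v :=
      fun v hv => (hHf (Cc G C v) ⟨v, hv, rfl⟩).2.1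
    have Hconn : ∀ v ∈ C, (G.induce (Hf (Cc G C v))).Connected :=
      fun v hv => (hHf (Cc G C v) ⟨v, hv, rfl⟩).2.2.1
    have Hadj : ∀ v ∈ C, ∀ B ∈ 𝓑, AdjS G (Cc G C v) B → AdjS G (Hf (Cc G C v)) B :=
      fun v hv => (hHf (Cc G C v) ⟨v, hv, rfl⟩).2.2.2.1
    have Hcount : ∀ v ∈ C, ∀ (v' : V) (ρ : ℕ),
        {u | u ∈ Hf (Cc G C v) ∧ RG G (Cc G C v) ρ v' u}.ncard ≤ n * (2 * ρ + 1) :=
      fun v hv => (hHf (Cc G C v) ⟨v, hv, rfl⟩).2.2.2.2
    set H : Set V := {u | u ∈ C ∧ u ∈ Hf (Cc G C u)} with hH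
    have hHmem : ∀ v ∈ C, ∀ u ∈ Hf (Cc G C v), u ∈ H := by
      intro v hv u hu
      have hu2 : u ∈ Cc G C v := Hsub v hv hu
      refine ⟨cc_sub hu2, ?_⟩
      rw [cc_eq hu2]
      exact hu
    have hHmem' : ∀ v u, u ∈ H → u ∈ Cc G C v → u ∈ Hf (Cc G C v) := by
      intro v u hu hu2
      rw [← cc_eq hu2]
      exact hu.2
    -- the smaller set
    have hsmall : (C \ H).ncard ≤ N := by
      obtain ⟨v0, hv0⟩ := hCne
      obtain ⟨u0, hu0⟩ := conn_nonempty (Hconn v0 hv0)
      have hu1 : u0 ∈ H := hHmem v0 hv0 u0 hu0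
      have hss : C \ H ⊂ C := by
        refine ⟨Set.sdiff_subset, fun hsub => ?_⟩
        exact (hsub hu1.1).2 hu1
      have := Set.ncard_lt_ncard hss (Set.toFinite C)
      omega
    set 𝓑' : Set (Set V) := 𝓑 ∪ {B | ∃ v ∈ C, B = Hf (Cc G C v)} with h𝓑'
    have hnewsub : ∀ v ∈ C, Hf (Cc G C v) ⊆ C := fun v hv => (Hsub v hv).trans cc_sub
    obtain ⟨part, hp1, hp2⟩ := ih (C \ H) hsmall 𝓑' (by
        intro B hB
        rcases hB with hB | ⟨v, hv, rfl⟩
        · exact ⟨(hBc B hB).1, (hBc B hB).2.mono_right Set.sdiff_subset⟩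
        · refine ⟨Hconn v hv, Set.disjoint_left.2 fun u hu hu2 => hu2.2 (hHmem v hv u hu)⟩)
      (by
        intro B hB B' hB' hne
        rcases hB with hB | ⟨v, hv, rfl⟩
        · rcases hB' with hB' | ⟨v', hv', rfl⟩
          · exact hBd B hB B' hB' hne
          · exact (hBc B hB).2.mono_right (hnewsub v' hv')
        · rcases hB' with hB' | ⟨v', hv', rfl⟩
          · exact ((hBc B' hB').2.mono_right (hnewsub v hv)).symm
          · refine Set.disjoint_left.2 fun u hu hu' => hne ?_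
            have h1 := cc_eq (Hsub v hv hu)
            have h2 := cc_eq (Hsub v' hv' hu')
            rw [← h1, ← h2])
      (by
        have aux : ∀ v ∈ C \ H, ∀ v' ∈ C, AdjS G (Cc G (C \ H) v) (Hf (Cc G C v')) →
            Cc G C v' = Cc G C v := by
          rintro v hv v' hv' ⟨x, hx, y, hy, hxy⟩
          have hx2 : x ∈ Cc G C v := cc_mono Set.sdiff_subset hx
          have hy2 : y ∈ Cc G C v' := Hsub v' hv' hy
          have hy3 : y ∈ Cc G C v := cc_step hx2 (cc_sub hy2) hxy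
          rw [← cc_eq hy2, ← cc_eq hy3]
        have aux2 : ∀ v ∈ C \ H, ∀ B, AdjS G (Cc G (C \ H) v) B → AdjS G (Cc G C v) B := by
          rintro v hv B ⟨x, hx, y, hy, hxy⟩
          exact ⟨x, cc_mono Set.sdiff_subset hx, y, hy, hxy⟩
        intro v hv B hB B' hB' hne ha ha'
        rcases hB with hB | ⟨v1, hv1, rfl⟩
        · rcases hB' with hB' | ⟨v2, hv2, rfl⟩
          · exact hBa v hv.1 B hB B' hB' hne (aux2 v hv B ha) (aux2 v hv B' ha')
          · have e := aux v hv v2 hv2 ha'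
            rw [e]
            exact adjS_symm (Hadj v hv.1 B hB (aux2 v hv B ha))
        · rcases hB' with hB' | ⟨v2, hv2, rfl⟩
          · have e := aux v hv v1 hv1 ha
            rw [e]
            exact Hadj v hv.1 B' hB' (aux2 v hv B' ha')
          · have e := aux v hv v1 hv1 ha
            have e' := aux v hv v2 hv2 ha'
            exact absurd (by rw [e, e']) hne)
    refine ⟨fun u => if u ∈ H then 0 else part u + 1, ?_, ?_⟩
    · intro v i ρ
      rcases Nat.eq_zero_or_pos i with hi | hi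
      · subst hi
        by_cases hv : v ∈ C
        · refine le_trans (Set.ncard_le_ncard ?_ (Set.toFinite _)) (Hcount v hv v ρ)
          rintro u ⟨huC, hu0, hrg⟩
          have huH : u ∈ H := by
            by_contra hcon
            simp only [hcon, if_false] at hu0
            omega
          have hrg2 : RG G C ρ v u := rg_mono (fun w hw => hw.1) hrg
          exact ⟨hHmem' v u huH ⟨ρ, hrg2⟩, cc_rg hrg2⟩
        · have he : {u | u ∈ C ∧ (if u ∈ H then 0 else part u + 1) = 0 ∧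
              RG G {w | w ∈ C ∧ 0 ≤ if w ∈ H then 0 else part w + 1} ρ v u} = ∅ := by
            ext u
            simp only [Set.mem_empty_iff_false, iff_false]
            rintro ⟨_, _, hrg⟩
            exact hv (rg_left hrg).1
          rw [he]
          simp
      · obtain ⟨i, rfl⟩ : ∃ j, i = j + 1 := ⟨i - 1, by omega⟩
        refine le_trans (Set.ncard_le_ncard ?_ (Set.toFinite _)) (hp1 v i ρ)
        rintro u ⟨huC, hui, hrg⟩
        have huH : u ∉ H := by
          intro hcon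
          simp only [hcon, if_true] at hui
          omega
        simp only [huH, if_false] at hui
        refine ⟨⟨huC, huH⟩, by omega, rg_mono ?_ hrg⟩
        rintro w ⟨hwC, hwi⟩
        have hwH : w ∉ H := by
          intro hcon
          simp only [hcon, if_true] at hwi
          omega
        simp only [hwH, if_false] at hwi
        exact ⟨⟨hwC, hwH⟩, by omega⟩
    · intro v hv
      by_cases hvH : v ∈ H
      · have e1 : {i | i < (if v ∈ H then 0 else part v + 1) ∧
            ∃ w ∈ Cc G {x | x ∈ C ∧ (if v ∈ H then 0 else part v + 1) ≤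
              (if x ∈ H then 0 else part x + 1)} v, ∃ u ∈ C, G.Adj w u ∧
            (if u ∈ H then 0 else part u + 1) = i} = ∅ := by
          ext i
          simp only [Set.mem_empty_iff_false, iff_false]
          rintro ⟨hi, _⟩
          simp only [hvH, if_true] at hi
          omega
        simp only at e1 ⊢
        rw [e1]
        have e2 : {x | x ∈ C ∧ (if v ∈ H then 0 else part v + 1) ≤
              (if x ∈ H then 0 else part x + 1)} = C := by
          ext x
          simp [hvH]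
        rw [e2]
        simpa using Hcard v hv
      · have e2 : {x | x ∈ C ∧ (if v ∈ H then 0 else part v + 1) ≤
              (if x ∈ H then 0 else part x + 1)} = {x | x ∈ C \ H ∧ part v ≤ part x} := by
          ext x
          simp only [hvH, if_false]
          constructor
          · rintro ⟨hx, hx2⟩
            have hxH : x ∉ H := by
              intro hcon
              simp only [hcon, if_true] at hx2
              omega
            simp only [hxH, if_false] at hx2
            exact ⟨⟨hx, hxH⟩, by omega⟩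
          · rintro ⟨⟨hx, hxH⟩, hx2⟩
            refine ⟨hx, ?_⟩
            simp only [hxH, if_false]
            omega
        simp only
        rw [e2]
        have hpv := hp2 v ⟨hv, hvH⟩
        set K' : Set V := Cc G {x | x ∈ C \ H ∧ part v ≤ part x} v with hK'
        set S' : Set ℕ := {i | i < part v ∧ ∃ w ∈ K', ∃ u ∈ C \ H, G.Adj w u ∧ part u = i}
          with hS'
        have hS'fin : S'.Finite := Set.Finite.subset (Set.finite_lt_nat (part v)) fun i hi => hi.1
        have hK'C : K' ⊆ Cc G C v := cc_mono fun x hx => hx.1.1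
        by_cases hadj : ∃ w ∈ K', ∃ u ∈ H, G.Adj w u
        · obtain ⟨w0, hw0, u0, hu0, hwu⟩ := hadj
          have hu0C : u0 ∈ Cc G C v := cc_step (hK'C hw0) hu0.1 hwu
          have hT : insert (Hf (Cc G C v)) {B | B ∈ 𝓑 ∧ AdjS G K' B} ⊆
              {B | B ∈ 𝓑' ∧ AdjS G K' B} := by
            rintro B (rfl | ⟨hB, hBA⟩)
            · exact ⟨Or.inr ⟨v, hv, rfl⟩, w0, hw0, u0, hHmem' v u0 hu0 hu0C, hwu⟩
            · exact ⟨Or.inl hB, hBA⟩
          have hnot : Hf (Cc G C v) ∉ {B | B ∈ 𝓑 ∧ AdjS G K' B} := by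
            rintro ⟨hB, -⟩
            obtain ⟨z, hz⟩ := conn_nonempty (Hconn v hv)
            exact Set.disjoint_left.1 (hBc _ hB).2 hz (hnewsub v hv hz)
          have hT2 := Set.ncard_le_ncard hT (Set.toFinite _)
          rw [Set.ncard_insert_of_notMem hnot (Set.toFinite _)] at hT2
          have hS : {i | i < (if v ∈ H then 0 else part v + 1) ∧ ∃ w ∈ K', ∃ u ∈ C,
              G.Adj w u ∧ (if u ∈ H then 0 else part u + 1) = i} ⊆
              insert 0 ((fun i => i + 1) '' S') := by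
            rintro i ⟨hi, w, hw, u, hu, hwu', hui⟩
            simp only [hvH, if_false] at hi
            by_cases huH : u ∈ H
            · simp only [huH, if_true] at hui
              exact Or.inl hui.symm
            · simp only [huH, if_false] at hui
              exact Or.inr ⟨part u, ⟨by omega, w, hw, u, ⟨hu, huH⟩, hwu', rfl⟩, hui⟩
          have hS2 := Set.ncard_le_ncard hS ((hS'fin.image _).insert 0)
          have hS3 := Set.ncard_insert_le 0 ((fun i => i + 1) '' S')
          have hS4 : ((fun i => i + 1) '' S').ncard ≤ S'.ncard := Set.ncard_image_le hS'fin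
          omega
        · have hT : {B | B ∈ 𝓑 ∧ AdjS G K' B} ⊆ {B | B ∈ 𝓑' ∧ AdjS G K' B} := by
            rintro B ⟨hB, hBA⟩
            exact ⟨Or.inl hB, hBA⟩
          have hT2 := Set.ncard_le_ncard hT (Set.toFinite _)
          have hS : {i | i < (if v ∈ H then 0 else part v + 1) ∧ ∃ w ∈ K', ∃ u ∈ C,
              G.Adj w u ∧ (if u ∈ H then 0 else part u + 1) = i} ⊆
              (fun i => i + 1) '' S' := by
            rintro i ⟨hi, w, hw, u, hu, hwu', hui⟩
            simp only [hvH, if_false] at hi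
            by_cases huH : u ∈ H
            · exact absurd ⟨w, hw, u, huH, hwu'⟩ hadj
            · simp only [huH, if_false] at hui
              exact ⟨part u, ⟨by omega, w, hw, u, ⟨hu, huH⟩, hwu', rfl⟩, hui⟩
          have hS2 := Set.ncard_le_ncard hS (hS'fin.image _)
          have hS4 : ((fun i => i + 1) '' S').ncard ≤ S'.ncard := Set.ncard_image_le hS'fin
          omega

end Pool.Agent.MP763071.KK.DecompAux

namespace Pool.Agent.MP763071.KK

open DecompAux in
/-- the decomposition, from the geodesics -/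
theorem decomp (h : GeoStmt) : DecompStmt := by
  classical
  intro n V _ G hn
  obtain ⟨part, hp1, hp2⟩ := claim h hn (Set.univ : Set V).ncard Set.univ le_rfl ∅
    (fun B hB => absurd hB (Set.notMem_empty B)) (fun B hB => absurd hB (Set.notMem_empty B))
    (fun v _ B hB => absurd hB (Set.notMem_empty B))
  refine ⟨part, ?_, ?_⟩
  · intro v i ρ
    have h1 := hp1 v i ρ
    simpa using h1
  · intro v
    have h1 := hp2 v (Set.mem_univ v)
    refine le_trans (Set.ncard_le_ncard ?_ ?_) (le_trans (Nat.le_add_right _ _) h1)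
    · rintro i ⟨hi, w, u, ⟨ρ, hw⟩, hwu, hui⟩
      exact ⟨hi, w, ⟨ρ, rg_mono (fun x hx => ⟨Set.mem_univ x, hx⟩) hw⟩, u, Set.mem_univ u, hwu, hui⟩
    · exact Set.Finite.subset (Set.finite_lt_nat (part v)) fun i hi => hi.1

end Pool.Agent.MP763071.KK
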