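import Pool.Agent.Lib.MP_763071_co.KK.Spec

/-!
# Free sets
-/

set_option autoImplicit false

namespace Pool.Agent.MP763071.KK

namespace FreeSetAux

open Finset Function

open Classical in
theorem count {n N D : ℕ} (c : Fin n) (P : (Fin n → Fin N) → Fin N → Prop)
    (hdep : ∀ g x y, P (update g c x) y ↔ P g y)
    (hD : ∀ g, (univ.filter fun y => P g y).card ≤ D) :
    (univ.filter fun g : Fin n → Fin N => P g (g c)).card * N ≤ D * N ^ n := by
  classical
  have h1 : ((univ.filter fun g : Fin n → Fin N => P g (g c)) ×ˢ (univ : Finset (Fin N))).card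
      ≤ ((univ : Finset (Fin n → Fin N)).sigma fun g => univ.filter fun y => P g y).card := by
    refine Finset.card_le_card_of_injOn (fun q => ⟨update q.1 c q.2, q.1 c⟩) ?_ ?_
    · intro q hq
      simp only [coe_product, Set.mem_prod, mem_coe, mem_filter, mem_univ, true_and,
        and_true] at hq
      simp only [mem_coe, mem_sigma, mem_univ, mem_filter, true_and]
      exact (hdep _ _ _).2 hq
    · intro q _ q' _ heq
      simp only [Sigma.mk.injEq] at heq
      obtain ⟨h1, h2⟩ := heq
      have h2' : q.1 c = q'.1 c := eq_of_heq h2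
      have h3 : q.2 = q'.2 := by
        have := congrFun h1 c
        simpa using this
      have h4 : q.1 = q'.1 := by
        funext i
        by_cases hi : i = c
        · rw [hi, h2']
        · have := congrFun h1 i
          simpa [hi] using this
      exact Prod.ext h4 h3
  rw [card_product, card_univ, Fintype.card_fin] at h1
  refine h1.trans ?_
  rw [card_sigma]
  calc ∑ g : Fin n → Fin N, (univ.filter fun y => P g y).card
      ≤ ∑ _g : Fin n → Fin N, D := Finset.sum_le_sum fun g _ => hD g
    _ = D * N ^ n := by simp [mul_comm]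

theorem card_val_le {N : ℕ} (S : Finset ℕ) :
    (univ.filter fun y : Fin N => (y : ℕ) ∈ S).card ≤ S.card := by
  refine Finset.card_le_card_of_injOn (fun y => (y : ℕ)) ?_ ?_
  · intro y hy
    simpa using hy
  · intro y _ y' _ h
    exact Fin.ext h

end FreeSetAux

open FreeSetAux Finset Function in
theorem freeSet : FreeSetStmt := by
  classical
  intro n D N X Z hN hX hZ
  by_contra hcon
  push Not at hcon
  set B1 : Fin n × Fin n → Finset (Fin n → Fin N) := fun p =>
    univ.filter fun g => p.1 ≠ p.2 ∧ g p.1 = g p.2 with hB1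
  set B2 : Fin n × Fin n × Fin n → Finset (Fin n → Fin N) := fun p =>
    univ.filter fun g => p.2.2 ≠ p.1 ∧ p.2.2 ≠ p.2.1 ∧ ((g p.2.2 : Fin N) : ℕ) ∈ X (g p.1) (g p.2.1)
    with hB2
  set B3 : Fin n → Finset (Fin n → Fin N) := fun a =>
    univ.filter fun g => ((g a : Fin N) : ℕ) ∈ Z with hB3
  have c1 : ∀ p, (B1 p).card * N ≤ 1 * N ^ n := by
    intro p
    have key := count (N := N) (D := 1) p.2 (fun g y => p.1 ≠ p.2 ∧ g p.1 = y) ?_ ?_
    · convert key
    · intro g x y
      by_cases h : p.1 = p.2
      · simp [h]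
      · simp [h]
    · intro g
      refine (Finset.card_le_card (t := ({g p.1} : Finset (Fin N))) ?_).trans (by simp)
      intro y hy
      simp only [mem_filter, mem_univ, true_and] at hy
      simp [hy.2]
  have c2 : ∀ p, (B2 p).card * N ≤ D * N ^ n := by
    intro p
    have key := count (N := N) (D := D) p.2.2
      (fun g y => p.2.2 ≠ p.1 ∧ p.2.2 ≠ p.2.1 ∧ ((y : Fin N) : ℕ) ∈ X (g p.1) (g p.2.1)) ?_ ?_
    · convert key
    · intro g x y
      by_cases h : p.2.2 = p.1
      · simp [h]
      · by_cases h' : p.2.2 = p.2.1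
        · simp [h']
        · have e1 : update g p.2.2 x p.1 = g p.1 := update_of_ne (fun e => h e.symm) _ _
          have e2 : update g p.2.2 x p.2.1 = g p.2.1 := update_of_ne (fun e => h' e.symm) _ _
          rw [e1, e2]
    · intro g
      refine (Finset.card_le_card (t := univ.filter fun y : Fin N => (y : ℕ) ∈ X (g p.1) (g p.2.1))
        ?_).trans ((card_val_le _).trans (hX _ _))
      intro y hy
      simp only [mem_filter, mem_univ, true_and] at hy ⊢
      exact hy.2.2
  have c3 : ∀ a, (B3 a).card * N ≤ 2 * N ^ n := by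
    intro a
    have key := count (N := N) (D := 2) a (fun _ y => ((y : Fin N) : ℕ) ∈ Z) ?_ ?_
    · convert key
    · intro g x y
      exact Iff.rfl
    · intro g
      have key2 := (card_val_le (N := N) Z).trans hZ
      refine le_trans (le_of_eq ?_) key2
      congr
  have hcover : (univ : Finset (Fin n → Fin N)) ⊆
      (univ.biUnion B1 ∪ univ.biUnion B2) ∪ univ.biUnion B3 := by
    intro g _
    by_contra hg
    simp only [mem_union, mem_biUnion, mem_univ, true_and, not_or, not_exists, hB1, hB2, hB3,
      mem_filter] at hg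
    obtain ⟨⟨h1, h2⟩, h3⟩ := hg
    obtain ⟨a, b, c, hab, hca, hcb, hc⟩ := hcon (fun i => (g i : ℕ))
      (by
        intro a b hab
        by_contra hne
        exact h1 (a, b) ⟨hne, Fin.ext hab⟩)
      (fun a => (g a).2) (fun a => h3 a)
    exact h2 (a, b, c) ⟨hca, hcb, hc⟩
  have hcard := Finset.card_le_card hcover
  have hcard2 : N ^ n ≤ ∑ p, (B1 p).card + ∑ p, (B2 p).card + ∑ a, (B3 a).card := by
    have e0 : (univ : Finset (Fin n → Fin N)).card = N ^ n := by simp
    rw [e0] at hcard
    refine hcard.trans ((card_union_le _ _).trans ?_)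
    refine add_le_add ((card_union_le _ _).trans (add_le_add card_biUnion_le card_biUnion_le))
      card_biUnion_le
  have h4 : N ^ n * N ≤ (n ^ 2 + n ^ 3 * D + 2 * n) * N ^ n := by
    calc N ^ n * N ≤ (∑ p, (B1 p).card + ∑ p, (B2 p).card + ∑ a, (B3 a).card) * N :=
          Nat.mul_le_mul_right _ hcard2
      _ = ∑ p, (B1 p).card * N + ∑ p, (B2 p).card * N + ∑ a, (B3 a).card * N := by
          rw [add_mul, add_mul, Finset.sum_mul, Finset.sum_mul, Finset.sum_mul]
      _ ≤ ∑ _p : Fin n × Fin n, 1 * N ^ n + ∑ _p : Fin n × Fin n × Fin n, D * N ^ n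
            + ∑ _a : Fin n, 2 * N ^ n :=
          add_le_add (add_le_add (Finset.sum_le_sum fun p _ => c1 p)
            (Finset.sum_le_sum fun p _ => c2 p)) (Finset.sum_le_sum fun a _ => c3 a)
      _ = (n ^ 2 + n ^ 3 * D + 2 * n) * N ^ n := by
          simp only [sum_const, card_univ, Fintype.card_prod, Fintype.card_fin, smul_eq_mul]
          ring
  have hNpos : 0 < N := lt_of_le_of_lt (Nat.zero_le _) hN
  have h5 : 0 < N ^ n := pow_pos hNpos n
  have h6 : N ≤ n ^ 2 + n ^ 3 * D + 2 * n := by
    rw [mul_comm (N ^ n) N] at h4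
    exact Nat.le_of_mul_le_mul_right h4 h5
  omega

end Pool.Agent.MP763071.KK
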