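import Pool.Agent.Lib.MP_763071_co.KK.Spec

/-!
# MP_763071_co : models of hubs give minors
-/

set_option autoImplicit false

namespace Pool.Agent.MP763071.KK

namespace HubAux

variable {P : Type} [PartialOrder P]

/-- the vertices of the backbone in the segment `S` -/
def Kk (h : ℕ) (ch : ℕ → P) (S : Set ℕ) : Set P := {x | ∃ a, a ∈ S ∧ 1 ≤ a ∧ a ≤ h ∧ x = ch a}

theorem ch_lt {κ h : ℕ} {ch : ℕ → P} {l r : P → ℕ} (hB : Bb P κ h ch l r) {a b : ℕ} (ha : 1 ≤ a)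
    (hab : a < b) (hb : b ≤ h) : ch a < ch b := by
  induction b, hab using Nat.le_induction with
  | base => exact (hB.cov a ha (by omega)).lt
  | succ b hab ih => exact (ih (by omega)).trans (hB.cov b (by omega) (by omega)).lt

theorem ch_inj {κ h : ℕ} {ch : ℕ → P} {l r : P → ℕ} (hB : Bb P κ h ch l r) {a b : ℕ} (ha : 1 ≤ a)
    (ha' : a ≤ h) (hb : 1 ≤ b) (hb' : b ≤ h) (hab : ch a = ch b) : a = b := by
  rcases lt_trichotomy a b with h1 | h1 | h1
  · exact absurd hab (ch_lt hB ha h1 hb').ne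
  · exact h1
  · exact absurd hab (ch_lt hB hb h1 ha').ne'

theorem r_ch {κ h : ℕ} {ch : ℕ → P} {l r : P → ℕ} (hB : Bb P κ h ch l r) {a : ℕ} (ha : 1 ≤ a)
    (ha' : a ≤ h) : r (ch a) = a := by
  have h1 : r (ch a) ≤ a := (hB.r_iff (ch a) a ha ha').mp le_rfl
  have h2 : ch a ≤ ch (r (ch a)) :=
    (hB.r_iff (ch a) (r (ch a)) (hB.r_pos _) (h1.trans ha')).mpr le_rfl
  rcases h1.eq_or_lt with h3 | h3
  · exact h3
  · exact absurd h2 (ch_lt hB (hB.r_pos _) h3 ha').not_ge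

theorem conn {κ h : ℕ} {ch : ℕ → P} {l r : P → ℕ} (hB : Bb P κ h ch l r) {S : Set ℕ}
    (hS : S.OrdConnected) (hne : (Kk h ch S).Nonempty) : ((CG P).induce (Kk h ch S)).Connected := by
  have key : ∀ a b : ℕ, a ≤ b → a ∈ S → 1 ≤ a → b ∈ S → b ≤ h → ∀ (x y : Kk h ch S), x.1 = ch a →
      y.1 = ch b → ((CG P).induce (Kk h ch S)).Reachable x y := by
    intro a b hab haS ha1
    induction b, hab using Nat.le_induction with
    | base =>
      intro _ _ x y hx hy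
      have : x = y := Subtype.ext (hx.trans hy.symm)
      rw [this]
    | succ b hab ih =>
      intro hbS hbh x y hx hy
      have hb : b ∈ S := hS.out haS hbS ⟨hab, Nat.le_succ b⟩
      have h1 := ih hb (by omega) x ⟨ch b, b, hb, by omega, by omega, rfl⟩ hx rfl
      refine h1.trans (SimpleGraph.Adj.reachable ?_)
      have hc := hB.cov b (by omega) (by omega)
      rw [SimpleGraph.induce_adj, SimpleGraph.fromRel_adj, hy]
      exact ⟨hc.lt.ne, Or.inl hc⟩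
  refine (SimpleGraph.connected_iff _).mpr ⟨?_, hne.to_subtype⟩
  rintro ⟨x, a, haS, ha1, hah, rfl⟩ ⟨y, b, hbS, hb1, hbh, rfl⟩
  rcases le_total a b with hab | hab
  · exact key a b hab haS ha1 hbS hbh _ _ rfl rfl
  · exact (key b a hab hbS hb1 haS hah _ _ rfl rfl).symm

/-- the parts to which the vertex `w` may belong -/
def As (κ : ℕ) (l r π : P → ℕ) (S : ℕ → Set ℕ) (own : P → ℕ) (N : ℕ) (w : P) : Set ℕ :=
  {i | (i < N ∧ r w ∈ S i) ∨ (i < N ∧ l w ∈ S i) ∨ ∃ u, WR (CG P) π κ w u ∧ own u = i}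

theorem seg_subsingleton {S : ℕ → Set ℕ} {N : ℕ}
    (hS : ∀ i j, i < j → j < N → Disjoint (S i) (S j)) (v : ℕ) :
    {i | i < N ∧ v ∈ S i}.Subsingleton := by
  rintro i ⟨hi, hi2⟩ j ⟨hj, hj2⟩
  rcases lt_trichotomy i j with h | h | h
  · exact absurd (Set.disjoint_left.mp (hS i j h hj) hi2) (fun h => h hj2)
  · exact h
  · exact absurd (Set.disjoint_left.mp (hS j i h hi) hj2) (fun h => h hi2)

theorem As_card [Fintype P] {κ c : ℕ} {l r π : P → ℕ} {S : ℕ → Set ℕ} {own : P → ℕ} {N : ℕ}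
    (hS : ∀ i j, i < j → j < N → Disjoint (S i) (S j))
    (hc : ∀ v, {u | WR (CG P) π κ v u}.ncard ≤ c) (w : P) :
    (As κ l r π S own N w).Finite ∧ (As κ l r π S own N w).ncard ≤ c + 2 := by
  have e : As κ l r π S own N w = {i | i < N ∧ r w ∈ S i} ∪ ({i | i < N ∧ l w ∈ S i} ∪
      own '' {u | WR (CG P) π κ w u}) := by
    ext i
    simp only [As, Set.mem_ofPred_eq, Set.mem_union, Set.mem_image]
  have s1 := seg_subsingleton hS (r w)
  have s2 := seg_subsingleton hS (l w)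
  have f3 : (own '' {u | WR (CG P) π κ w u}).Finite := (Set.toFinite _).image _
  rw [e]
  refine ⟨s1.finite.union (s2.finite.union f3), ?_⟩
  haveI := s1.finite.to_subtype
  haveI := s2.finite.to_subtype
  have c1 : {i | i < N ∧ r w ∈ S i}.ncard ≤ 1 := Set.ncard_le_one_iff_subsingleton.mpr s1
  have c2 : {i | i < N ∧ l w ∈ S i}.ncard ≤ 1 := Set.ncard_le_one_iff_subsingleton.mpr s2
  have c3 : (own '' {u | WR (CG P) π κ w u}).ncard ≤ c := (Set.ncard_image_le (Set.toFinite _)).trans (hc w)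
  have c4 := Set.ncard_union_le {i | i < N ∧ r w ∈ S i} ({i | i < N ∧ l w ∈ S i} ∪
      own '' {u | WR (CG P) π κ w u})
  have c5 := Set.ncard_union_le {i | i < N ∧ l w ∈ S i} (own '' {u | WR (CG P) π κ w u})
  omega

/-- the walk of a pair -/
theorem walk (h1 : HubPathStmt) [Fintype P] {κ h : ℕ} {ch : ℕ → P} {l r π : P → ℕ}
    (hB : Bb P κ h ch l r) {S : ℕ → Set ℕ} {own : P → ℕ} {N i j : ℕ} (hi : i < N) (hj : j < N)
    {z : P} {a b : ℕ} (ha : a ∈ HA κ π l r z) (hb : b ∈ HA κ π l r z) (haS : a ∈ S i)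
    (hbS : b ∈ S j) (ha1 : 1 ≤ a) (hah : a ≤ h) (hb1 : 1 ≤ b) (hbh : b ≤ h)
    (ho : own z = i ∨ own z = j) :
    ∃ (L T : ℕ) (w : ℕ → P), L ≤ 4 * κ ∧ w 0 ∈ Kk h ch (S j) ∧ w L ∈ Kk h ch (S i) ∧
      (∀ t < L, (CG P).Adj (w t) (w (t + 1))) ∧
      (∀ t ≤ L, t ≤ T → j ∈ As κ l r π S own N (w t)) ∧
      ∀ t ≤ L, T < t → i ∈ As κ l r π S own N (w t) := by
  obtain ⟨L₁, T₁, w₁, hT₁, hL₁, hw₁0, hw₁L, hadj₁, hlr₁, hWR₁⟩ :=
    h1 P κ h ch l r π hB z a ha ha1 hah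
  obtain ⟨L₂, T₂, w₂, hT₂, hL₂, hw₂0, hw₂L, hadj₂, hlr₂, hWR₂⟩ :=
    h1 P κ h ch l r π hB z b hb hb1 hbh
  have A1 : ∀ t ≤ T₁, i ∈ As κ l r π S own N (w₁ t) := by
    intro t ht
    rcases hlr₁ t ht with h3 | h3
    · exact Or.inl ⟨hi, by rw [h3]; exact haS⟩
    · exact Or.inr (Or.inl ⟨hi, by rw [h3]; exact haS⟩)
  have A2 : ∀ t ≤ T₂, j ∈ As κ l r π S own N (w₂ t) := by
    intro t ht
    rcases hlr₂ t ht with h3 | h3
    · exact Or.inl ⟨hj, by rw [h3]; exact hbS⟩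
    · exact Or.inr (Or.inl ⟨hj, by rw [h3]; exact hbS⟩)
  have B1 : ∀ t ≤ L₁, T₁ ≤ t → own z ∈ As κ l r π S own N (w₁ t) := fun t ht ht2 =>
    Or.inr (Or.inr ⟨z, hWR₁ t ht ht2, rfl⟩)
  have B2 : ∀ t ≤ L₂, T₂ ≤ t → own z ∈ As κ l r π S own N (w₂ t) := fun t ht ht2 =>
    Or.inr (Or.inr ⟨z, hWR₂ t ht ht2, rfl⟩)
  let w : ℕ → P := fun t => if t ≤ L₂ then w₂ t else w₁ (L₁ + L₂ - t)
  have wle : ∀ t, t ≤ L₂ → w t = w₂ t := fun t ht => if_pos ht
  have wgt : ∀ t, L₂ < t → w t = w₁ (L₁ + L₂ - t) := fun t ht => if_neg (by omega)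
  have hw0 : w 0 ∈ Kk h ch (S j) := by
    rw [wle 0 (Nat.zero_le _), hw₂0]
    exact ⟨b, hbS, hb1, hbh, rfl⟩
  have hwL : w (L₁ + L₂) ∈ Kk h ch (S i) := by
    rcases Nat.eq_zero_or_pos L₁ with h3 | h3
    · rw [wle _ (by omega)]
      have h4 : L₁ + L₂ = L₂ := by omega
      have h5 : w₁ L₁ = ch a := by rw [h3]; exact hw₁0
      rw [h4, hw₂L, ← hw₁L, h5]
      exact ⟨a, haS, ha1, hah, rfl⟩
    · rw [wgt _ (by omega), Nat.sub_self, hw₁0]
      exact ⟨a, haS, ha1, hah, rfl⟩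
  have hadj : ∀ t < L₁ + L₂, (CG P).Adj (w t) (w (t + 1)) := by
    intro t ht
    by_cases h3 : t + 1 ≤ L₂
    · rw [wle t (by omega), wle (t + 1) h3]
      exact hadj₂ t (by omega)
    · by_cases h4 : t = L₂
      · rw [wle t h4.le, wgt (t + 1) (by omega), h4, hw₂L, ← hw₁L]
        have h5 := (hadj₁ (L₁ - 1) (by omega)).symm
        have h6 : L₁ - 1 + 1 = L₁ := by omega
        have h7 : L₁ + L₂ - (L₂ + 1) = L₁ - 1 := by omega
        rw [h6] at h5
        rw [h7]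
        exact h5
      · rw [wgt t (by omega), wgt (t + 1) (by omega)]
        have h5 := (hadj₁ (L₁ + L₂ - (t + 1)) (by omega)).symm
        have h6 : L₁ + L₂ - (t + 1) + 1 = L₁ + L₂ - t := by omega
        rw [h6] at h5
        exact h5
  rcases ho with ho | ho
  · refine ⟨L₁ + L₂, T₂, w, by omega, hw0, hwL, hadj, ?_, ?_⟩
    · intro t _ ht2
      rw [wle t (by omega)]
      exact A2 t ht2
    · intro t ht ht2
      by_cases h3 : t ≤ L₂
      · rw [wle t h3, ← ho]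
        exact B2 t h3 ht2.le
      · rw [wgt t (by omega)]
        by_cases h4 : L₁ + L₂ - t ≤ T₁
        · exact A1 _ h4
        · have h5 := B1 (L₁ + L₂ - t) (by omega) (by omega)
          rwa [ho] at h5
  · refine ⟨L₁ + L₂, L₂ + (L₁ - T₁), w, by omega, hw0, hwL, hadj, ?_, ?_⟩
    · intro t ht ht2
      by_cases h3 : t ≤ L₂
      · rw [wle t h3]
        by_cases h4 : t ≤ T₂
        · exact A2 t h4
        · have h5 := B2 t h3 (by omega)
          rwa [ho] at h5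
      · rw [wgt t (by omega)]
        have h5 := B1 (L₁ + L₂ - t) (by omega) (by omega)
        rwa [ho] at h5
    · intro t ht ht2
      rw [wgt t (by omega)]
      exact A1 _ (by omega)

theorem HA_le {κ h : ℕ} {ch : ℕ → P} {l r π : P → ℕ} (hB : Bb P κ h ch l r) {z : P} {a : ℕ}
    (ha : a ∈ HA κ π l r z) : a ≤ h + 1 := by
  rcases ha with ⟨x, -, rfl⟩ | ⟨y, -, rfl⟩
  · exact hB.r_le x
  · exact (hB.l_le y).trans (Nat.le_succ h)

end HubAux

open HubAux in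
theorem hub (h1 : HubPathStmt) (h2 : FreeSetStmt) (h3 : WalkMinorStmt) : HubStmt := by
  classical
  intro n κ c
  set D := (4 * κ + 1) * (c + 2) with hD
  refine ⟨n ^ 2 + n ^ 3 * D + 2 * n + 3, ?_⟩
  set N := n ^ 2 + n ^ 3 * D + 2 * n + 3 with hN
  intro P _ _ h ch l r π hB hc hmin hmodel
  obtain ⟨m, p, hmp, hp, S, hS1, hS2, own, hown⟩ := hmodel
  have hp0 : p = 0 := by omega
  have hmN : m = N := by omega
  clear_value N
  subst hmN
  clear hp hmp
  have H : ∀ i j, i ≠ j → i < m → j < m → ∃ z, (own z = i ∨ own z = j) ∧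
      (HA κ π l r z ∩ S i).Nonempty ∧ (HA κ π l r z ∩ S j).Nonempty := by
    intro i j hij hi hj
    rcases lt_or_gt_of_ne hij with h4 | h4
    · obtain ⟨z, -, h5, h6, h7⟩ := hown i j h4 hj
      exact ⟨z, h5, h6 hi, h7 hj⟩
    · obtain ⟨z, -, h5, h6, h7⟩ := hown j i h4 hi
      exact ⟨z, h5.symm, h7 hi, h6 hj⟩
  -- the bad parts
  let Z : Finset ℕ := (Finset.range m).filter (fun i => 0 ∈ S i ∨ h + 1 ∈ S i)
  have hZ : Z.card ≤ 2 := by
    have e : Z = (Finset.range m).filter (fun i => 0 ∈ S i) ∪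
        (Finset.range m).filter (fun i => h + 1 ∈ S i) := by
      rw [← Finset.filter_or]
    have k : ∀ v, ((Finset.range m).filter (fun i => v ∈ S i)).card ≤ 1 := by
      intro v
      rw [Finset.card_le_one]
      intro i hi j hj
      simp only [Finset.mem_filter, Finset.mem_range] at hi hj
      exact seg_subsingleton hS2 v hi hj
    rw [e]
    have := Finset.card_union_le ((Finset.range m).filter (fun i => 0 ∈ S i))
      ((Finset.range m).filter (fun i => h + 1 ∈ S i))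
    have k0 := k 0
    have k1 := k (h + 1)
    omega
  have hZ2 : ∀ i, i < m → i ∉ Z → ∀ z, ∀ a ∈ HA κ π l r z, a ∈ S i → 1 ≤ a ∧ a ≤ h := by
    intro i hi hiZ z a ha haS
    have h4 := HA_le hB ha
    constructor
    · by_contra hcon
      have h5 : a = 0 := by omega
      apply hiZ
      simp only [Z, Finset.mem_filter, Finset.mem_range]
      exact ⟨hi, Or.inl (by rw [← h5]; exact haS)⟩
    · by_contra hcon
      have h5 : a = h + 1 := by omega
      apply hiZ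
      simp only [Z, Finset.mem_filter, Finset.mem_range]
      exact ⟨hi, Or.inr (by rw [← h5]; exact haS)⟩
  have hX : ∀ i j : ℕ, ∃ X : Finset ℕ, X.card ≤ D ∧ (i ≠ j → i < m → j < m → i ∉ Z → j ∉ Z →
      ∃ (L T : ℕ) (w : ℕ → P), w 0 ∈ Kk h ch (S j) ∧ w L ∈ Kk h ch (S i) ∧
      (∀ t < L, (CG P).Adj (w t) (w (t + 1))) ∧
      (∀ t ≤ L, t ≤ T → j ∈ As κ l r π S own m (w t)) ∧
      (∀ t ≤ L, T < t → i ∈ As κ l r π S own m (w t)) ∧
      ∀ t ≤ L, ∀ k ∈ As κ l r π S own m (w t), k ∈ X) := by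
    intro i j
    by_cases hcond : i ≠ j ∧ i < m ∧ j < m ∧ i ∉ Z ∧ j ∉ Z
    · obtain ⟨hij, hi, hj, hiZ, hjZ⟩ := hcond
      obtain ⟨z, ho, ⟨a, ha, haS⟩, ⟨b, hb, hbS⟩⟩ := H i j hij hi hj
      obtain ⟨ha1, hah⟩ := hZ2 i hi hiZ z a ha haS
      obtain ⟨hb1, hbh⟩ := hZ2 j hj hjZ z b hb hbS
      obtain ⟨L, T, w, hL, e1, e2, e3, e4, e5⟩ :=
        walk h1 hB hi hj ha hb haS hbS ha1 hah hb1 hbh ho
      refine ⟨(Finset.range (L + 1)).biUnion
        (fun t => (As_card (l := l) (r := r) (own := own) hS2 hc (w t)).1.toFinset), ?_, ?_⟩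
      · refine (Finset.card_biUnion_le_card_mul _ _ (c + 2) ?_).trans ?_
        · intro t _
          rw [← Set.ncard_eq_toFinset_card _ _]
          exact (As_card hS2 hc (w t)).2
        · rw [Finset.card_range, hD]
          exact Nat.mul_le_mul_right _ (by omega)
      · intro _ _ _ _ _
        refine ⟨L, T, w, e1, e2, e3, e4, e5, ?_⟩
        intro t ht k hk
        rw [Finset.mem_biUnion]
        exact ⟨t, Finset.mem_range.mpr (by omega), (Set.Finite.mem_toFinset _).mpr hk⟩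
    · refine ⟨∅, by simp, ?_⟩
      intro q1 q2 q3 q4 q5
      exact absurd ⟨q1, q2, q3, q4, q5⟩ hcond
  choose X hXc hXw using hX
  obtain ⟨g, ginj, gN, gZ, gX⟩ := h2 n D m X Z (by omega) hXc hZ
  apply hmin
  have gne : ∀ i j : Fin n, i ≠ j → g i ≠ g j := fun i j hij h4 => hij (ginj h4)
  refine h3 P (CG P) n (fun i => Kk h ch (S (g i))) (fun w => {i | g i ∈ As κ l r π S own m w})
    ?_ ?_ ?_ ?_
  · intro i
    apply conn hB (hS1 _ (gN i))
    obtain ⟨j, hj, hij⟩ : ∃ j, j < m ∧ g i ≠ j := by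
      by_cases h4 : g i = 0
      · exact ⟨1, by omega, by omega⟩
      · exact ⟨0, by omega, h4⟩
    obtain ⟨z, -, ⟨a, ha, haS⟩, -⟩ := H (g i) j hij (gN i) hj
    obtain ⟨ha1, hah⟩ := hZ2 _ (gN i) (gZ i) z a ha haS
    exact ⟨ch a, a, haS, ha1, hah, rfl⟩
  · intro i j hij
    rw [Set.disjoint_left]
    rintro x ⟨a, haS, ha1, hah, rfl⟩ ⟨b, hbS, hb1, hbh, hab⟩
    have h4 := ch_inj hB ha1 hah hb1 hbh hab
    subst h4
    exact gne i j hij (seg_subsingleton hS2 a ⟨gN i, haS⟩ ⟨gN j, hbS⟩)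
  · rintro i w ⟨a, haS, ha1, hah, rfl⟩
    exact Or.inl ⟨gN i, by rw [r_ch hB ha1 hah]; exact haS⟩
  · intro i j hij
    obtain ⟨L, T, w, e1, e2, e3, e4, e5, e6⟩ :=
      hXw (g i) (g j) (gne i j hij.ne) (gN i) (gN j) (gZ i) (gZ j)
    refine ⟨L, T, w, e1, e2, e3, e4, e5, ?_⟩
    intro t ht k hk
    by_contra hcon
    simp only [Set.mem_insert_iff, Set.mem_singleton_iff, not_or] at hcon
    exact gX i j k hij.ne hcon.1 hcon.2 (e6 t ht (g k) hk)

end Pool.Agent.MP763071.KK
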