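import Pool.Agent.Lib.MP_763071_co.KK.Spec

/-!
# `HubPathStmt` : paths from the backbone to a hub
-/

set_option autoImplicit false

namespace Pool.Agent.MP763071.KK.HubPathAux

/-- a saturated chain between comparable elements -/
theorem exists_sat {P : Type} [Fintype P] [PartialOrder P] {x y : P} (hxy : x ≤ y) :
    ∃ (L : ℕ) (w : ℕ → P), Sat L w x y := by
  obtain ⟨a, h0, n, hn, hc⟩ := exists_covBy_seq_of_wellFoundedLT_wellFoundedGT_of_le hxy
  exact ⟨n, a, h0, hn, hc⟩

theorem sat_lt {P : Type} [PartialOrder P] {L : ℕ} {w : ℕ → P} {x y : P} (hw : Sat L w x y)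
    (i j : ℕ) (hij : i < j) (hj : j ≤ L) : w i < w j := by
  induction j with
  | zero => omega
  | succ j ih =>
    have h1 : w j < w (j + 1) := (hw.2.2 j (by omega)).lt
    rcases Nat.lt_or_ge i j with h | h
    · exact (ih h (by omega)).trans h1
    · have : i = j := by omega
      rw [this]
      exact h1

theorem sat_le {P : Type} [PartialOrder P] {L : ℕ} {w : ℕ → P} {x y : P} (hw : Sat L w x y)
    (i j : ℕ) (hij : i ≤ j) (hj : j ≤ L) : w i ≤ w j := by
  rcases Nat.lt_or_ge i j with h | h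
  · exact (sat_lt hw i j h hj).le
  · have : i = j := by omega
    rw [this]

theorem adj_of_covBy {P : Type} [PartialOrder P] {x y : P} (h : x ⋖ y) : (CG P).Adj x y :=
  (SimpleGraph.fromRel_adj _ _ _).2 ⟨h.ne, Or.inl h⟩

section

variable {P : Type} [PartialOrder P] {κ h : ℕ} {ch : ℕ → P} {l r : P → ℕ}

theorem ch_lt (hB : Bb P κ h ch l r) (i j : ℕ) (hi : 1 ≤ i) (hij : i < j) (hj : j ≤ h) :
    ch i < ch j := by
  induction j with
  | zero => omega
  | succ j ih =>
    rcases Nat.lt_or_ge i j with h' | h'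
    · exact (ih h' (by omega)).trans (hB.cov j (by omega) (by omega)).lt
    · have : i = j := by omega
      rw [this]
      exact (hB.cov j (by omega) (by omega)).lt

theorem l_ch (hB : Bb P κ h ch l r) (i : ℕ) (hi : 1 ≤ i) (hih : i ≤ h) : l (ch i) = i := by
  have h1 : i ≤ l (ch i) := (hB.l_iff (ch i) i hi hih).1 le_rfl
  by_contra hne
  have h2 : i < l (ch i) := by omega
  have h3 := hB.l_le (ch i)
  have h4 : ch (l (ch i)) ≤ ch i := (hB.l_iff (ch i) (l (ch i)) (by omega) h3).2 le_rfl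
  exact absurd h4 (ch_lt hB i _ hi h2 h3).not_ge

theorem r_ch (hB : Bb P κ h ch l r) (i : ℕ) (hi : 1 ≤ i) (hih : i ≤ h) : r (ch i) = i := by
  have h1 : r (ch i) ≤ i := (hB.r_iff (ch i) i hi hih).1 le_rfl
  by_contra hne
  have h2 : r (ch i) < i := by omega
  have h3 := hB.r_pos (ch i)
  have h4 : ch i ≤ ch (r (ch i)) := (hB.r_iff (ch i) (r (ch i)) h3 (by omega)).2 le_rfl
  exact absurd h4 (ch_lt hB _ i h3 h2 hih).not_ge

theorem l_mono (hB : Bb P κ h ch l r) {x y : P} (hxy : x ≤ y) : l x ≤ l y := by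
  rcases Nat.eq_zero_or_pos (l x) with h0 | h0
  · omega
  · have h1 : ch (l x) ≤ x := (hB.l_iff x (l x) h0 (hB.l_le x)).2 le_rfl
    exact (hB.l_iff y (l x) h0 (hB.l_le x)).1 (h1.trans hxy)

theorem r_mono (hB : Bb P κ h ch l r) {x y : P} (hxy : x ≤ y) : r x ≤ r y := by
  rcases Nat.lt_or_ge h (r y) with h0 | h0
  · have := hB.r_le x
    omega
  · have h1 : y ≤ ch (r y) := (hB.r_iff y (r y) (hB.r_pos y) h0).2 le_rfl
    exact (hB.r_iff x (r y) (hB.r_pos y) h0).1 (hxy.trans h1)

theorem l_le_r (hB : Bb P κ h ch l r) (x : P) : l x ≤ r x := by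
  rcases Nat.lt_or_ge h (r x) with h0 | h0
  · have := hB.l_le x
    omega
  · have h1 : x ≤ ch (r x) := (hB.r_iff x (r x) (hB.r_pos x) h0).2 le_rfl
    have h2 := l_mono hB h1
    rwa [l_ch hB _ (hB.r_pos x) h0] at h2

end

/-- gluing the two pieces -/
theorem glue {P : Type} [PartialOrder P] {κ : ℕ} {l r π : P → ℕ} {z s : P} {a : ℕ}
    (L1 L2 : ℕ) (p q : ℕ → P) (hp0 : p 0 = s) (hpq : p L1 = q 0) (hq : q L2 = z)
    (hpa : ∀ t < L1, (CG P).Adj (p t) (p (t + 1))) (hqa : ∀ t < L2, (CG P).Adj (q t) (q (t + 1)))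
    (h1 : ∀ t ≤ L1, r (p t) = a ∨ l (p t) = a) (h2 : ∀ t ≤ L2, π z ≤ π (q t))
    (hL1 : L1 ≤ κ) (hL2 : L2 ≤ κ) :
    ∃ (L T : ℕ) (w : ℕ → P), T ≤ L ∧ L ≤ 2 * κ ∧ w 0 = s ∧ w L = z ∧
        (∀ t < L, (CG P).Adj (w t) (w (t + 1))) ∧
        (∀ t ≤ T, r (w t) = a ∨ l (w t) = a) ∧ ∀ t ≤ L, T ≤ t → WR (CG P) π κ (w t) z := by
  obtain ⟨w, hw⟩ : ∃ w : ℕ → P, w = fun t => if t < L1 then p t else q (t - L1) := ⟨_, rfl⟩
  have hw1 : ∀ t, t ≤ L1 → w t = p t := by
    intro t ht
    rw [hw]
    rcases Nat.lt_or_ge t L1 with h | h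
    · simp only [if_pos h]
    · have h' : ¬ t < L1 := by omega
      have h'' : t = L1 := by omega
      simp only [if_neg h']
      rw [h'', hpq, Nat.sub_self]
  have hw2 : ∀ t, L1 ≤ t → w t = q (t - L1) := by
    intro t ht
    have h' : ¬ t < L1 := by omega
    rw [hw]
    simp only [if_neg h']
  refine ⟨L1 + L2, L1, w, by omega, by omega, ?_, ?_, ?_, ?_, ?_⟩
  · rw [hw1 0 (by omega), hp0]
  · rw [hw2 (L1 + L2) (by omega), Nat.add_sub_cancel_left, hq]
  · intro t ht
    rcases Nat.lt_or_ge t L1 with h | h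
    · rw [hw1 t (by omega), hw1 (t + 1) (by omega)]
      exact hpa t h
    · rw [hw2 t h, hw2 (t + 1) (by omega)]
      have : t + 1 - L1 = (t - L1) + 1 := by omega
      rw [this]
      exact hqa _ (by omega)
  · intro t ht
    rw [hw1 t ht]
    exact h1 t ht
  · intro t ht hT
    rw [hw2 t hT]
    refine ⟨L2 - (t - L1), by omega, fun i => q (t - L1 + i), rfl, ?_, ?_, ?_⟩
    · have : t - L1 + (L2 - (t - L1)) = L2 := by omega
      change q (t - L1 + (L2 - (t - L1))) = z
      rw [this, hq]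
    · intro i hi
      exact hqa _ (by omega)
    · intro i hi
      exact h2 _ (by omega)

end Pool.Agent.MP763071.KK.HubPathAux

namespace Pool.Agent.MP763071.KK

open HubPathAux

theorem hubPath : HubPathStmt := by
  intro P _ _ κ h ch l r π hB z a ha h1a hah
  rcases ha with ⟨x, ⟨L2, hL2, u, hu, hup⟩, hax⟩ | ⟨y, ⟨L2, hL2, u, hu, hup⟩, hay⟩
  · have hxa : x ≤ ch a := (hB.r_iff x a h1a hah).2 hax.ge
    obtain ⟨L1, v, hv⟩ := exists_sat hxa
    have hr : ∀ t ≤ L1, r (v t) = a := by
      intro t ht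
      have e1 : r x ≤ r (v t) := by
        have := sat_le hv 0 t (by omega) ht
        rw [hv.1] at this
        exact r_mono hB this
      have e2 : r (v t) ≤ r (ch a) := by
        have := sat_le hv t L1 ht le_rfl
        rw [hv.2.1] at this
        exact r_mono hB this
      rw [r_ch hB a h1a hah] at e2
      omega
    have hs : L1 + 1 ≤ κ := by
      refine hB.short a (L1 + 1) v ?_ ?_
      · intro i j hij hj
        exact sat_lt hv i j hij (by omega)
      · intro i hi
        have e1 := hr i (by omega)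
        have e2 := l_le_r hB (v i)
        omega
    refine glue L1 L2 (fun t => v (L1 - t)) u ?_ ?_ hu.2.1 ?_ ?_ ?_ hup (by omega) hL2
    · change v (L1 - 0) = ch a
      rw [Nat.sub_zero, hv.2.1]
    · change v (L1 - L1) = u 0
      rw [Nat.sub_self, hv.1, hu.1]
    · intro t ht
      have : L1 - t = L1 - (t + 1) + 1 := by omega
      change (CG P).Adj (v (L1 - t)) (v (L1 - (t + 1)))
      rw [this]
      exact (adj_of_covBy (hv.2.2 _ (by omega))).symm
    · intro t ht
      exact adj_of_covBy (hu.2.2 t ht)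
    · intro t ht
      exact Or.inl (hr _ (by omega))
  · have hya : ch a ≤ y := (hB.l_iff y a h1a hah).2 hay.le
    obtain ⟨L1, v, hv⟩ := exists_sat hya
    have hr : ∀ t ≤ L1, l (v t) = a := by
      intro t ht
      have e1 : l (ch a) ≤ l (v t) := by
        have := sat_le hv 0 t (by omega) ht
        rw [hv.1] at this
        exact l_mono hB this
      have e2 : l (v t) ≤ l y := by
        have := sat_le hv t L1 ht le_rfl
        rw [hv.2.1] at this
        exact l_mono hB this
      rw [l_ch hB a h1a hah] at e1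
      omega
    have hs : L1 + 1 ≤ κ := by
      refine hB.short a (L1 + 1) v ?_ ?_
      · intro i j hij hj
        exact sat_lt hv i j hij (by omega)
      · intro i hi
        have e1 := hr i (by omega)
        have e2 := l_le_r hB (v i)
        omega
    refine glue L1 L2 v (fun t => u (L2 - t)) hv.1 ?_ ?_ ?_ ?_ ?_ ?_ (by omega) hL2
    · change v L1 = u (L2 - 0)
      rw [Nat.sub_zero, hv.2.1, hu.2.1]
    · change u (L2 - L2) = z
      rw [Nat.sub_self, hu.1]
    · intro t ht
      exact adj_of_covBy (hv.2.2 t ht)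
    · intro t ht
      have : L2 - t = L2 - (t + 1) + 1 := by omega
      change (CG P).Adj (u (L2 - t)) (u (L2 - (t + 1)))
      rw [this]
      exact (adj_of_covBy (hu.2.2 _ (by omega))).symm
    · intro t ht
      exact Or.inr (hr _ ht)
    · intro t ht
      exact hup _ (by omega)

end Pool.Agent.MP763071.KK
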