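import Pool.Agent.Lib.MP_763071_co.KK.Spec

/-!
# MP_763071_co : linear extensions reversing a relation without alternating cycles
-/

set_option autoImplicit false

namespace Pool.Agent.MP763071.KK

namespace LinExtAux

variable {P : Type}

theorem exists_seq {F : P → P → Prop} {a b : P} (h : Relation.TransGen F a b) :
    ∃ (N : ℕ) (u : ℕ → P), 0 < N ∧ u 0 = a ∧ u N = b ∧ ∀ i < N, F (u i) (u (i + 1)) := by
  induction h with
  | single h =>
    rename_i c
    refine ⟨1, fun i => if i = 0 then a else c, one_pos, by simp, by simp, ?_⟩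
    intro i hi
    have : i = 0 := by omega
    subst this
    simpa using h
  | tail h1 h2 ih =>
    rename_i c d
    obtain ⟨N, u, hN, h0, hN', hu⟩ := ih
    refine ⟨N + 1, fun i => if i ≤ N then u i else d, by omega, by simp [h0], by simp, ?_⟩
    intro i hi
    by_cases h3 : i < N
    · have h4 : i ≤ N := h3.le
      have h5 : i + 1 ≤ N := h3
      simp only [h4, h5, if_true]
      exact hu i h3
    · have h4 : i = N := by omega
      subst h4
      simp only [le_refl, if_true, hN']
      rw [if_neg (by omega)]
      exact h2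

/-- one alternating step -/
def F [PartialOrder P] (S : P → P → Prop) (u v : P) : Prop := ∃ y, u ≤ y ∧ S v y

theorem F_mono [PartialOrder P] {S : P → P → Prop} {u u' v : P} (h : u ≤ u') (h' : F S u' v) :
    F S u v := by
  obtain ⟨y, h1, h2⟩ := h'
  exact ⟨y, h.trans h1, h2⟩

theorem transGen_F_mono [PartialOrder P] {S : P → P → Prop} {u u' v : P} (h : u ≤ u')
    (h' : Relation.TransGen (F S) u' v) : Relation.TransGen (F S) u v := by
  induction h' with
  | single h1 => exact Relation.TransGen.single (F_mono h h1)
  | tail h1 h2 ih => exact ih.tail h2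

theorem split [PartialOrder P] {S : P → P → Prop} {a b : P}
    (h : Relation.TransGen (fun a b => a < b ∨ S b a) a b) :
    a < b ∨ ∃ x, Relation.TransGen (F S) a x ∧ x ≤ b := by
  induction h with
  | single h1 =>
    rename_i c
    rcases h1 with h1 | h1
    · exact Or.inl h1
    · exact Or.inr ⟨c, Relation.TransGen.single ⟨a, le_rfl, h1⟩, le_rfl⟩
  | tail h1 h2 ih =>
    rename_i c d
    rcases ih with ih | ⟨x, hx, hxc⟩
    · rcases h2 with h2 | h2
      · exact Or.inl (ih.trans h2)
      · exact Or.inr ⟨d, Relation.TransGen.single ⟨c, ih.le, h2⟩, le_rfl⟩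
    · rcases h2 with h2 | h2
      · exact Or.inr ⟨x, hx, hxc.trans h2.le⟩
      · exact Or.inr ⟨d, hx.tail ⟨c, hxc, h2⟩, le_rfl⟩

theorem cycle [PartialOrder P] {S : P → P → Prop} {x : P} (h : Relation.TransGen (F S) x x) :
    ∃ (N : ℕ) (x y : ℤ → P), 0 < N ∧ (∀ i, x (i + N) = x i ∧ y (i + N) = y i) ∧
      (∀ i, S (x i) (y i)) ∧ ∀ i, x i ≤ y (i + 1) := by
  classical
  obtain ⟨N, u, hN, h0, hN', hu⟩ := exists_seq h
  have hN2 : (0 : ℤ) < N := by exact_mod_cast hN
  let X : ℤ → P := fun i => u (i % N).toNat
  have hX : ∀ i, F S (X i) (X (i + 1)) := by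
    intro i
    have h1 := Int.emod_nonneg i hN2.ne'
    have h2 := Int.emod_lt_of_pos i hN2
    by_cases h3 : i % N + 1 < N
    · have h4 : (i + 1) % N = i % N + 1 := by
        rw [← Int.emod_add_emod]
        exact Int.emod_eq_of_lt (by omega) h3
      have h5 : ((i + 1) % N).toNat = (i % N).toNat + 1 := by rw [h4]; omega
      change F S (u _) (u _)
      rw [h5]
      exact hu _ (by omega)
    · have h4 : (i + 1) % N = 0 := by
        rw [← Int.emod_add_emod]
        have : i % N + 1 = N := by omega
        rw [this, Int.emod_self]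
      have h5 : ((i + 1) % N).toNat = 0 := by rw [h4]; rfl
      have h6 : (i % N).toNat + 1 = N := by omega
      change F S (u _) (u _)
      have h7 := hu (i % N).toNat (by omega)
      rw [h6, hN'] at h7
      rw [h5, h0]
      exact h7
  have hper : ∀ i, X (i + N) = X i := by
    intro i
    change u _ = u _
    rw [Int.add_emod_right]
  let Y : P → P → P := fun a b => if h : F S a b then h.choose else a
  have hY : ∀ a b, F S a b → a ≤ Y a b ∧ S b (Y a b) := by
    intro a b h
    have : Y a b = h.choose := dif_pos h
    rw [this]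
    exact h.choose_spec
  refine ⟨N, X, fun i => Y (X (i - 1)) (X i), hN, ?_, ?_, ?_⟩
  · intro i
    refine ⟨hper i, ?_⟩
    have h1 : i + N - 1 = (i - 1) + N := by ring
    simp only [h1, hper]
  · intro i
    have h1 := hX (i - 1)
    rw [sub_add_cancel] at h1
    exact (hY _ _ h1).2
  · intro i
    have h1 := hX i
    have h2 : i + 1 - 1 = i := by ring
    simp only [h2]
    exact (hY _ _ h1).1

end LinExtAux

open LinExtAux in
theorem linExt : LinExtStmt := by
  classical
  intro P _ _ S hS
  set E : P → P → Prop := fun a b => a < b ∨ S b a with hE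
  have hirr : ∀ a, ¬ Relation.TransGen E a a := by
    intro a ha
    rcases split ha with h | ⟨x, hx, hxa⟩
    · exact lt_irrefl _ h
    · exact hS (cycle (transGen_F_mono hxa hx))
  have hpo : IsPartialOrder P (Relation.ReflTransGen E) :=
    { refl := fun a => Relation.ReflTransGen.refl
      trans := fun a b c h1 h2 => h1.trans h2
      antisymm := by
        intro a b h1 h2
        by_contra hne
        rcases Relation.reflTransGen_iff_eq_or_transGen.mp h1 with h3 | h3
        · exact hne h3.symm
        · exact hirr a (h3.trans_left h2) }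
  obtain ⟨s, hs, hrs⟩ := extend_partialOrder (Relation.ReflTransGen E)
  have hslin : IsLinearOrder P s := hs
  have htr : ∀ a b c, s a b → s b c → s a c := fun a b c h1 h2 => hs.trans a b c h1 h2
  have hanti : ∀ a b, s a b → s b a → a = b := fun a b h1 h2 => hs.antisymm a b h1 h2
  have htot : ∀ a b, s a b ∨ s b a := fun a b => hs.total a b
  let f : P → ℕ := fun a => (Finset.univ.filter (fun c => s c a ∧ c ≠ a)).card
  have hf : ∀ a b, s a b → a ≠ b → f a < f b := by
    intro a b h1 h2
    apply Finset.card_lt_card
    rw [Finset.ssubset_iff_of_subset]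
    · refine ⟨a, by simp [h1, h2], by simp⟩
    · intro c hc
      simp only [Finset.mem_filter, Finset.mem_univ, true_and] at hc ⊢
      refine ⟨htr _ _ _ hc.1 h1, ?_⟩
      rintro rfl
      exact h2 (hanti _ _ h1 hc.1)
  refine ⟨f, ?_, ?_, ?_⟩
  · intro a b hab
    by_contra hne
    rcases htot a b with h | h
    · exact (hf a b h hne).ne hab
    · exact (hf b a h (Ne.symm hne)).ne hab.symm
  · intro a b hab
    rcases hab.eq_or_lt with rfl | h
    · exact le_rfl
    · exact (hf a b (hrs _ _ (Relation.ReflTransGen.single (Or.inl h))) h.ne).le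
  · intro a b hab
    have h1 : E b a := Or.inr hab
    apply hf b a (hrs _ _ (Relation.ReflTransGen.single h1))
    rintro rfl
    exact hirr b (Relation.TransGen.single h1)

end Pool.Agent.MP763071.KK
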