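import Pool.Agent.Lib.MP_763071_co.KK.Spec

/-!
# MP_763071_co, posets without `k + k` : assembly
-/

set_option autoImplicit false

namespace Pool.Agent.MP763071.KK

namespace MainAux

variable {P : Type} [PartialOrder P]

theorem l_mono {κ h : ℕ} {ch : ℕ → P} {l r : P → ℕ} (B : Bb P κ h ch l r) {x y : P} (hxy : x ≤ y) :
    l x ≤ l y := by
  rcases Nat.eq_zero_or_pos (l x) with h0 | h0
  · rw [h0]
    exact Nat.zero_le _
  · have h1 : ch (l x) ≤ x := (B.l_iff x (l x) h0 (B.l_le x)).2 le_rfl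
    exact (B.l_iff y (l x) h0 (B.l_le x)).1 (h1.trans hxy)

theorem r_mono {κ h : ℕ} {ch : ℕ → P} {l r : P → ℕ} (B : Bb P κ h ch l r) {x y : P} (hxy : x ≤ y) :
    r x ≤ r y := by
  rcases Nat.lt_or_ge h (r y) with h0 | h0
  · exact (B.r_le x).trans h0
  · have h1 : y ≤ ch (r y) := (B.r_iff y (r y) (B.r_pos y) h0).2 le_rfl
    exact (B.r_iff x (r y) (B.r_pos y) h0).1 (hxy.trans h1)

/-- saturated chains exist -/
theorem exists_sat [Finite P] (y : P) : ∀ x : P, x ≤ y → ∃ (L : ℕ) (w : ℕ → P), Sat L w x y := by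
  intro x
  induction x using (wellFounded_gt (α := P)).induction with
  | _ x ih =>
    intro hxy
    rcases eq_or_lt_of_le hxy with h | h
    · exact ⟨0, fun _ => x, rfl, h, fun t ht => absurd ht (Nat.not_lt_zero t)⟩
    · obtain ⟨z, hz1, hz2⟩ := exists_covBy_le_of_lt h
      obtain ⟨L, w, hw0, hwL, hw⟩ := ih z hz1.lt hz2
      refine ⟨L + 1, fun t => Nat.casesOn t x w, rfl, hwL, ?_⟩
      intro t ht
      rcases t with _ | t
      · show x ⋖ w 0
        rw [hw0]
        exact hz1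
      · exact hw t (by omega)

theorem sat_lt {L : ℕ} {w : ℕ → P} {x y : P} (hw : Sat L w x y) :
    ∀ j, j ≤ L → ∀ i, i < j → w i < w j := by
  intro j
  induction j with
  | zero => intro _ i hi; exact absurd hi (Nat.not_lt_zero i)
  | succ j ih =>
    intro hj i hi
    have h1 : w j < w (j + 1) := (hw.2.2 j (by omega)).lt
    rcases Nat.lt_succ_iff_lt_or_eq.1 hi with h | h
    · exact (ih (by omega) i h).trans h1
    · rw [h]
      exact h1

theorem sat_short {κ h : ℕ} {ch : ℕ → P} {l r : P → ℕ} (B : Bb P κ h ch l r) {x y : P} {v L : ℕ}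
    {w : ℕ → P} (hw : Sat L w x y) (h1 : l y ≤ v) (h2 : v ≤ r x) : L ≤ κ := by
  have h3 : ∀ t ≤ L, x ≤ w t ∧ w t ≤ y := by
    intro t ht
    constructor
    · rcases Nat.eq_zero_or_pos t with h0 | h0
      · rw [h0, hw.1]
      · rw [← hw.1]
        exact (sat_lt hw t ht 0 h0).le
    · rcases Nat.eq_or_lt_of_le ht with h0 | h0
      · rw [h0, hw.2.1]
      · rw [← hw.2.1]
        exact (sat_lt hw L le_rfl t h0).le
  have h4 := B.short v (L + 1) w (fun i j hij hj => sat_lt hw j (by omega) i hij) (fun i hi => by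
    obtain ⟨h5, h6⟩ := h3 i (by omega)
    exact ⟨(l_mono B h6).trans h1, h2.trans (r_mono B h5)⟩)
  omega

/-- a monotone periodic sequence of naturals is constant -/
theorem const_of_periodic (a : ℤ → ℕ) (N : ℕ) (hN : 0 < N) (hmono : ∀ i, a i ≤ a (i + 1))
    (hper : ∀ i, a (i + N) = a i) : ∀ i j, a i = a j := by
  have hm : Monotone a := monotone_int_of_le_succ hmono
  have hk : ∀ (m : ℕ) (i : ℤ), a (i + m * N) = a i := by
    intro m
    induction m with
    | zero => intro i; simp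
    | succ m ih =>
      intro i
      have : i + ((m + 1 : ℕ) : ℤ) * N = (i + m * N) + N := by push_cast; ring
      rw [this, hper, ih]
  have key : ∀ i j : ℤ, i ≤ j → a i = a j := by
    intro i j hij
    apply le_antisymm (hm hij)
    have h1 : j ≤ i + ((j - i).toNat : ℤ) * N := by
      have h2 : ((j - i).toNat : ℤ) = j - i := Int.toNat_of_nonneg (by omega)
      rw [h2]
      have h3 : (1 : ℤ) ≤ N := by omega
      nlinarith
    have h4 := hm h1
    rwa [hk] at h4
  intro i j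
  rcases le_total i j with h | h
  · exact key i j h
  · exact (key j i h).symm

theorem WR_mono {V : Type} {G : SimpleGraph V} {π : V → ℕ} {ρ ρ' : ℕ} (h : ρ ≤ ρ') {v u : V}
    (hw : WR G π ρ v u) : WR G π ρ' v u := by
  obtain ⟨L, hL, w, hw⟩ := hw
  exact ⟨L, hL.trans h, w, hw⟩

theorem WR_le {V : Type} {G : SimpleGraph V} {π : V → ℕ} {ρ : ℕ} {v u : V}
    (hw : WR G π ρ v u) : π u ≤ π v := by
  obtain ⟨L, hL, w, hw0, -, -, hw⟩ := hw
  have := hw 0 (Nat.zero_le _)
  rw [hw0] at this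
  exact this

theorem model_drop {ι : Type} {A : ι → Set ℕ} {F : Set ι} {N : ℕ} (h : Model A F 0 (N + 1)) :
    Model A F 0 N := by
  obtain ⟨m, p, hmp, hp, S, hS1, hS2, own, hown⟩ := h
  have hp0 : p = 0 := by omega
  subst hp0
  have hm : m = N + 1 := by omega
  subst hm
  refine ⟨N, 0, rfl, le_rfl, S, fun i hi => hS1 i (by omega), fun i j hij hj => hS2 i j hij (by omega),
    own, fun i j hij hj => ?_⟩
  obtain ⟨z, hz, ho, h1, h2⟩ := hown i j hij (by omega)
  exact ⟨z, hz, ho, fun _ => h1 (by omega), fun _ => h2 (by omega)⟩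

end MainAux

open MainAux in
theorem main (h1 : TStmt) (h2 : WColStmt) (h3 : ColStmt) (h4 : SigStmt) (h5 : LinExtStmt)
    (h6 : BackboneStmt) (h7 : HubStmt) (h8 : PotentialStmt) : Final := by
  classical
  intro n k
  obtain ⟨c, hc⟩ := h2 n (3 * (4 * k))
  obtain ⟨N, hN⟩ := h7 n (4 * k) c
  obtain ⟨M, hM⟩ := h1 Unit (fun _ => 0) (fun _ => N)
  obtain ⟨T, hT⟩ := h8 M
  refine ⟨T * 4 ^ (c + 1) + 1, ?_⟩
  intro P _ _ hdim
  by_contra hcon
  rw [not_or] at hcon
  obtain ⟨hKK, hmin⟩ := hcon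
  refine hdim (T * 4 ^ (c + 1)) (Nat.lt_succ_self _) ?_
  rcases isEmpty_or_nonempty P with hP | hP
  · exact ⟨fun _ p => (hP.false p).elim, fun _ p => (hP.false p).elim, fun p => (hP.false p).elim⟩
  obtain ⟨h, ch, l, r, B⟩ := h6 P k hKK
  obtain ⟨π, hπ, hπc⟩ := hc P (CG P) hmin
  obtain ⟨col, hcol⟩ := h3 P (WR (CG P) π (3 * (4 * k))) π c hπ (fun v u hvu => WR_le hvu) hπc
  obtain ⟨sig, hsig⟩ := h4 P (4 * k) (c + 1) π col hπ hcol
  have hπc' : ∀ v, {u | WR (CG P) π (4 * k) v u}.ncard ≤ c := fun v =>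
    (Set.ncard_le_ncard (fun u hu => WR_mono (by omega) hu) (Set.toFinite _)).trans (hπc v)
  have hmod : ¬ Model (HA (4 * k) π l r) Set.univ 0 N := hN P h ch l r π B hπc' hmin
  have hgood : Good (HA (4 * k) π l r) Set.univ M := by
    refine hM P (HA (4 * k) π l r) Set.univ (fun _ => ()) (h + 2) ?_ ?_
    · rintro z - a (⟨x, -, rfl⟩ | ⟨y, -, rfl⟩)
      · have := B.r_le x
        omega
      · have := B.l_le y
        omega
    · intro j hj
      apply hmod
      have hset : {z : P | z ∈ Set.univ ∧ () = j} = Set.univ := by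
        ext z
        simp
      rw [hset] at hj
      exact model_drop hj
  obtain ⟨θl, θu, hθ1, hθ2, hθ3⟩ := hT P (4 * k) h ch l r π B hgood
  have hS : ∀ us : Fin T × (Fin (c + 1) → Fin 4), ∃ f : P → ℕ, Function.Injective f ∧
      (∀ a b, a ≤ b → f a ≤ f b) ∧
      ∀ a b, (¬ a ≤ b ∧ θu us.1 b ≤ θl us.1 a ∧ sig a b = us.2) → f b < f a := by
    rintro ⟨u, s⟩
    refine h5 P (fun a b => ¬ a ≤ b ∧ θu u b ≤ θl u a ∧ sig a b = s) ?_
    rintro ⟨N', x, y, hN', hper, hS, hxy⟩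
    have hstep : ∀ i, θl u (x i) ≤ θu u (y (i + 1)) := fun i => hθ2 u _ _ (hxy i)
    have hconst := const_of_periodic (fun i => θl u (x i)) N' hN'
      (fun i => (hstep i).trans (hS (i + 1)).2.1) (fun i => by
        show θl u (x (i + N')) = θl u (x i)
        rw [(hper i).1])
    refine hsig ⟨x, y, fun i => (hS i).1, fun i => ?_, fun i j => by
      rw [(hS i).2.2, (hS j).2.2]⟩
    obtain ⟨L, w, hw⟩ := exists_sat (y (i + 1)) (x i) (hxy i)
    refine ⟨L, ?_, w, hw⟩
    refine sat_short B hw (v := θl u (x i)) ?_ (hθ1 u (x i)).2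
    have e1 : l (y (i + 1)) ≤ θu u (y (i + 1)) := (hθ1 u (y (i + 1))).1
    have e2 : θu u (y (i + 1)) ≤ θl u (x (i + 1)) := (hS (i + 1)).2.1
    have e3 : θl u (x (i + 1)) = θl u (x i) := hconst (i + 1) i
    omega
  choose f hf1 hf2 hf3 using hS
  have hcard : Fintype.card (Fin T × (Fin (c + 1) → Fin 4)) = T * 4 ^ (c + 1) := by
    simp
  let e := Fintype.equivFinOfCardEq hcard
  refine ⟨fun i => f (e.symm i), fun i => hf1 _, fun x y => ⟨fun hxy i => hf2 _ x y hxy, ?_⟩⟩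
  intro hall
  by_contra hxy
  obtain ⟨u, hu⟩ := hθ3 x y hxy
  have h9 := hf3 (u, sig x y) x y ⟨hxy, hu, rfl⟩
  have h10 : f (e.symm (e (u, sig x y))) x ≤ f (e.symm (e (u, sig x y))) y :=
    hall (e (u, sig x y))
  rw [e.symm_apply_apply] at h10
  omega

end Pool.Agent.MP763071.KK
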