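import Pool.Agent.Lib.MP_763071_co.KK.Spec

/-!
# MP_763071_co : potentials (`PotentialStmt`)
-/

set_option autoImplicit false
set_option linter.unusedSectionVars false

namespace Pool.Agent.MP763071.KK

namespace PotentialAux

/-- In a finite poset there is a saturated chain from `x` to `y`. -/
theorem exists_sat {P : Type} [Fintype P] [PartialOrder P] (y : P) :
    ∀ x : P, x ≤ y → ∃ (L : ℕ) (w : ℕ → P), Sat L w x y := by
  intro x
  induction x using WellFoundedGT.induction with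
  | ind x ih =>
    intro hxy
    rcases eq_or_lt_of_le hxy with h | h
    · exact ⟨0, fun _ => x, rfl, h, fun t ht => absurd ht (Nat.not_lt_zero t)⟩
    · obtain ⟨x', hx', hx'y⟩ := h.exists_covby_le
      obtain ⟨L, w, h0, hL, hc⟩ := ih x' hx'.lt hx'y
      refine ⟨L + 1, fun t => if t = 0 then x else w (t - 1), by simp, by simp [hL], ?_⟩
      intro t ht
      rcases Nat.eq_zero_or_pos t with h1 | h1
      · subst h1
        simp only [↓reduceIte, Nat.zero_add, one_ne_zero, Nat.sub_self]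
        rw [h0]
        exact hx'
      · have h2 := hc (t - 1) (by omega)
        have h3 : t - 1 + 1 = t := by omega
        rw [h3] at h2
        show (if t = 0 then x else w (t - 1)) ⋖ (if t + 1 = 0 then x else w (t + 1 - 1))
        rw [if_neg (by omega), if_neg (by omega), Nat.add_sub_cancel]
        exact h2

theorem sat_lt {P : Type} [PartialOrder P] {L : ℕ} {w : ℕ → P} {x y : P} (h : Sat L w x y)
    {i j : ℕ} (hij : i < j) (hj : j ≤ L) : w i < w j := by
  induction j, hij using Nat.le_induction with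
  | base => exact (h.2.2 i (by omega)).lt
  | succ j hj' ih => exact (ih (by omega)).trans (h.2.2 j (by omega)).lt

theorem sat_le {P : Type} [PartialOrder P] {L : ℕ} {w : ℕ → P} {x y : P} (h : Sat L w x y)
    {i j : ℕ} (hij : i ≤ j) (hj : j ≤ L) : w i ≤ w j := by
  rcases Nat.eq_or_lt_of_le hij with h1 | h1
  · rw [h1]
  · exact (sat_lt h h1 hj).le

theorem up_le {P : Type} [PartialOrder P] {π : P → ℕ} {κ : ℕ} {x z : P} (h : Up π κ x z) :
    x ≤ z := by
  obtain ⟨L, -, w, hw, -⟩ := h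
  have := sat_le hw (Nat.zero_le L) le_rfl
  rwa [hw.1, hw.2.1] at this

theorem dn_le {P : Type} [PartialOrder P] {π : P → ℕ} {κ : ℕ} {y z : P} (h : Dn π κ y z) :
    z ≤ y := by
  obtain ⟨L, -, w, hw, -⟩ := h
  have := sat_le hw (Nat.zero_le L) le_rfl
  rwa [hw.1, hw.2.1] at this

/-- A short saturated chain from `x` to `y` has an element below both ends in the order of `π`. -/
theorem exists_hub {P : Type} [PartialOrder P] {π : P → ℕ} {κ L : ℕ} {w : ℕ → P} {x y : P}
    (h : Sat L w x y) (hL : L ≤ κ) : ∃ z, Up π κ x z ∧ Dn π κ y z := by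
  obtain ⟨t, ht, hmin⟩ := Finset.exists_min_image (Finset.range (L + 1)) (fun t => π (w t))
    ⟨0, Finset.mem_range.2 (Nat.succ_pos L)⟩
  rw [Finset.mem_range] at ht
  refine ⟨w t, ⟨t, by omega, w, ⟨h.1, rfl, fun s hs => h.2.2 s (by omega)⟩, fun s hs =>
    hmin s (Finset.mem_range.2 (by omega))⟩, ⟨L - t, by omega, fun s => w (t + s),
    ⟨rfl, ?_, fun s hs => h.2.2 (t + s) (by omega)⟩, fun s hs =>
    hmin (t + s) (Finset.mem_range.2 (by omega))⟩⟩
  show w (t + (L - t)) = y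
  rw [show t + (L - t) = L by omega]
  exact h.2.1

section defs

variable {P : Type} {M : ℕ}

open Classical in
/-- the number `ψ z` -/
noncomputable def psi (h : ℕ) (φ : Fin M → P → ℕ) (U : Set (Set (Fin M))) (z : P) : ℕ :=
  ((Finset.range (h + 2)).filter (fun v => ∃ X ∈ U, ∀ i ∈ X, v ≤ φ i z)).sup id

theorem le_psi {h : ℕ} {φ : Fin M → P → ℕ} {U : Set (Set (Fin M))} {z : P} {v : ℕ}
    (hv : v ≤ h + 1) (X : Set (Fin M)) (hX : X ∈ U) (hi : ∀ i ∈ X, v ≤ φ i z) :
    v ≤ psi h φ U z := by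
  classical
  unfold psi
  exact Finset.le_sup (f := id)
    (Finset.mem_filter.2 ⟨Finset.mem_range.2 (by omega), X, hX, hi⟩)

theorem psi_le {h : ℕ} {φ : Fin M → P → ℕ} {U : Set (Set (Fin M))} {z : P} {t : ℕ}
    (ht : ∀ v, ∀ X ∈ U, (∀ i ∈ X, v ≤ φ i z) → v ≤ t) : psi h φ U z ≤ t := by
  classical
  unfold psi
  refine Finset.sup_le fun v hv => ?_
  obtain ⟨-, X, hX, hi⟩ := Finset.mem_filter.1 hv
  exact ht v X hX hi

variable [Fintype P] [PartialOrder P]

open Classical in
/-- lower potential -/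
noncomputable def tl (κ h : ℕ) (r π : P → ℕ) (φ : Fin M → P → ℕ) (U : Set (Set (Fin M)))
    (x : P) : ℕ :=
  (insert (r x) ((Finset.univ.filter (fun z => Up π κ x z)).image (psi h φ U))).min'
    (Finset.insert_nonempty _ _)

open Classical in
/-- upper potential -/
noncomputable def tu (κ h : ℕ) (l π : P → ℕ) (φ : Fin M → P → ℕ) (U : Set (Set (Fin M)))
    (y : P) : ℕ :=
  (insert (l y) ((Finset.univ.filter (fun z => Dn π κ y z)).image (psi h φ U))).max'
    (Finset.insert_nonempty _ _)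

variable {κ h : ℕ} {l r π : P → ℕ} {φ : Fin M → P → ℕ} {U : Set (Set (Fin M))}

theorem tl_le_r (x : P) : tl κ h r π φ U x ≤ r x := by
  classical
  exact Finset.min'_le _ _ (Finset.mem_insert_self _ _)

theorem tl_le_psi {x z : P} (hz : Up π κ x z) : tl κ h r π φ U x ≤ psi h φ U z := by
  classical
  refine Finset.min'_le _ _ (Finset.mem_insert_of_mem (Finset.mem_image_of_mem _ ?_))
  exact Finset.mem_filter.2 ⟨Finset.mem_univ _, hz⟩

theorem le_tl {x : P} {t : ℕ} (h1 : t ≤ r x) (h2 : ∀ z, Up π κ x z → t ≤ psi h φ U z) :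
    t ≤ tl κ h r π φ U x := by
  classical
  refine Finset.le_min' _ _ _ fun v hv => ?_
  rcases Finset.mem_insert.1 hv with h3 | h3
  · rw [h3]; exact h1
  · obtain ⟨z, hz, rfl⟩ := Finset.mem_image.1 h3
    exact h2 z (Finset.mem_filter.1 hz).2

theorem l_le_tu (y : P) : l y ≤ tu κ h l π φ U y := by
  classical
  exact Finset.le_max' _ _ (Finset.mem_insert_self _ _)

theorem psi_le_tu {y z : P} (hz : Dn π κ y z) : psi h φ U z ≤ tu κ h l π φ U y := by
  classical
  refine Finset.le_max' _ _ (Finset.mem_insert_of_mem (Finset.mem_image_of_mem _ ?_))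
  exact Finset.mem_filter.2 ⟨Finset.mem_univ _, hz⟩

theorem tu_le {y : P} {t : ℕ} (h1 : l y ≤ t) (h2 : ∀ z, Dn π κ y z → psi h φ U z ≤ t) :
    tu κ h l π φ U y ≤ t := by
  classical
  refine Finset.max'_le _ _ _ fun v hv => ?_
  rcases Finset.mem_insert.1 hv with h3 | h3
  · rw [h3]; exact h1
  · obtain ⟨z, hz, rfl⟩ := Finset.mem_image.1 h3
    exact h2 z (Finset.mem_filter.1 hz).2

end defs

section main

variable {P : Type} [Fintype P] [PartialOrder P] {κ h : ℕ} {ch : ℕ → P} {l r π : P → ℕ}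

theorem l_mono (hB : Bb P κ h ch l r) {x y : P} (hxy : x ≤ y) : l x ≤ l y := by
  rcases Nat.eq_zero_or_pos (l x) with h1 | h1
  · omega
  · have h2 : ch (l x) ≤ x := (hB.l_iff x (l x) h1 (hB.l_le x)).2 le_rfl
    exact (hB.l_iff y (l x) h1 (hB.l_le x)).1 (h2.trans hxy)

theorem r_mono (hB : Bb P κ h ch l r) {x y : P} (hxy : x ≤ y) : r x ≤ r y := by
  rcases Nat.lt_or_ge h (r y) with h1 | h1
  · exact (hB.r_le x).trans h1
  · have h2 : y ≤ ch (r y) := (hB.r_iff y (r y) (hB.r_pos y) h1).2 le_rfl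
    exact (hB.r_iff x (r y) (hB.r_pos y) h1).1 (hxy.trans h2)

/-- Comparable elements whose fibres meet are joined through a hub. -/
theorem hub_of_le (hB : Bb P κ h ch l r) {x y : P} (hxy : x ≤ y) (hlr : l y ≤ r x) :
    ∃ z, Up π κ x z ∧ Dn π κ y z := by
  obtain ⟨L, w, hw⟩ := exists_sat y x hxy
  have hL : L + 1 ≤ κ := by
    refine hB.short (l y) (L + 1) w (fun i j hij hj => sat_lt hw hij (by omega)) ?_
    intro i hi
    have h1 : w i ≤ y := by
      have := sat_le hw (show i ≤ L by omega) le_rfl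
      rwa [hw.2.1] at this
    have h2 : x ≤ w i := by
      have := sat_le hw (Nat.zero_le i) (show i ≤ L by omega)
      rwa [hw.1] at this
    exact ⟨l_mono hB h1, hlr.trans (r_mono hB h2)⟩
  exact exists_hub hw (by omega)

theorem l_le_r_of_not_le (hB : Bb P κ h ch l r) {x y : P} (hxy : ¬ x ≤ y) : l y ≤ r x := by
  by_contra hcon
  push Not at hcon
  apply hxy
  have h1 : r x ≤ h := (hcon.le).trans (hB.l_le y)
  have h2 : x ≤ ch (r x) := (hB.r_iff x (r x) (hB.r_pos x) h1).2 le_rfl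
  have h3 : ch (r x) ≤ y := (hB.l_iff y (r x) (hB.r_pos x) h1).2 hcon.le
  exact h2.trans h3

end main

end PotentialAux

open PotentialAux in
theorem potential : PotentialStmt := by
  intro M
  refine ⟨Nat.card (Set (Set (Fin M))), ?_⟩
  intro P _ _ κ h ch l r π hB hgood
  obtain ⟨τ, φ, hτ, hsep⟩ := hgood
  obtain ⟨e⟩ : Nonempty (Fin (Nat.card (Set (Set (Fin M)))) ≃ Set (Set (Fin M))) :=
    ⟨(Finite.equivFin _).symm⟩
  refine ⟨fun u => tl κ h r π φ (e u), fun u => tu κ h l π φ (e u), ?_, ?_, ?_⟩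
  · intro u x
    exact ⟨l_le_tu x, tl_le_r x⟩
  · intro u x y hxy
    rcases Nat.lt_or_ge (l y) (r x) with h1 | h1
    · obtain ⟨z, hz1, hz2⟩ := hub_of_le (π := π) hB hxy h1.le
      exact (tl_le_psi hz1).trans (psi_le_tu hz2)
    · exact (tl_le_r x).trans (h1.trans (l_le_tu y))
  · intro x y hxy
    have hlr := l_le_r_of_not_le hB hxy
    obtain ⟨hτ1, hτ2⟩ := hτ (l y) (r x) hlr
    obtain ⟨t, ht⟩ : ∃ t, t = τ (l y) (r x) := ⟨_, rfl⟩
    rw [← ht] at hτ1 hτ2
    obtain ⟨U, hU⟩ : ∃ U : Set (Set (Fin M)), U = {X | ∃ p, Up π κ x p ∧ {i | t ≤ φ i p} ⊆ X} :=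
      ⟨_, rfl⟩
    refine ⟨e.symm U, ?_⟩
    show tu κ h l π φ (e (e.symm U)) y ≤ tl κ h r π φ (e (e.symm U)) x
    rw [e.apply_symm_apply]
    have h1 : tu κ h l π φ U y ≤ t := by
      refine tu_le hτ1 fun q hq => psi_le fun v X hX hv => ?_
      rw [hU] at hX
      obtain ⟨p, hp, hpX⟩ := hX
      have hqp : q ≠ p := by
        rintro rfl
        exact hxy ((up_le hp).trans (dn_le hq))
      obtain ⟨i, hi1, hi2⟩ := hsep q (Set.mem_univ _) p (Set.mem_univ _) hqp (l y)
        (Or.inr ⟨y, hq, rfl⟩) (r x) (Or.inl ⟨x, hp, rfl⟩) hlr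
      rw [← ht] at hi1 hi2
      exact (hv i (hpX hi2)).trans hi1
    have h2 : t ≤ tl κ h r π φ U x := by
      refine le_tl hτ2 fun p hp => ?_
      refine le_psi (hτ2.trans (hB.r_le x)) {i | t ≤ φ i p} ?_ fun i hi => hi
      rw [hU]
      exact ⟨p, hp, le_rfl⟩
    exact h1.trans h2

end Pool.Agent.MP763071.KK
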