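import Pool.Agent.Lib.MP_763071_co.KK.Spec

/-!
# MP_763071_co : `QuotStmt`, quotients of models
-/

set_option autoImplicit false

namespace Pool.Agent.MP763071.KK

namespace QuotAux

open Set

lemma cq_mem {Q : Set ℕ} {x : ℕ} (h : ∃ m ∈ Q, x ≤ m) : cq Q x ∈ Q ∧ x ≤ cq Q x := by
  have h1 : ({m | m ∈ Q ∧ x ≤ m} : Set ℕ).Nonempty := by
    obtain ⟨m, hm, hx⟩ := h
    exact ⟨m, hm, hx⟩
  exact Nat.sInf_mem h1

lemma cq_le {Q : Set ℕ} {x m : ℕ} (hm : m ∈ Q) (hx : x ≤ m) : cq Q x ≤ m :=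
  Nat.sInf_le ⟨hm, hx⟩

lemma cq_mono {Q : Set ℕ} {x y : ℕ} (h : ∃ m ∈ Q, y ≤ m) (hxy : x ≤ y) : cq Q x ≤ cq Q y := by
  obtain ⟨h1, h2⟩ := cq_mem h
  exact cq_le h1 (hxy.trans h2)

lemma cq_self {Q : Set ℕ} {g : ℕ} (hg : g ∈ Q) : cq Q g = g :=
  le_antisymm (cq_le hg le_rfl) (cq_mem ⟨g, hg, le_rfl⟩).2

/-- the pullback of a segment -/
def pb (s t : ℕ) (Q S : Set ℕ) : Set ℕ :=
  {x | s ≤ x ∧ x < t ∧ (∃ m ∈ Q, x ≤ m) ∧ cq Q x ∈ S}

lemma pb_ord {s t : ℕ} {Q S : Set ℕ} (hS : S.OrdConnected) : (pb s t Q S).OrdConnected := by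
  refine ⟨fun x hx z hz y hy => ?_⟩
  obtain ⟨hx1, -, -, hx4⟩ := hx
  obtain ⟨-, hz2, ⟨m, hm, hzm⟩, hz4⟩ := hz
  obtain ⟨hy1, hy2⟩ := hy
  refine ⟨hx1.trans hy1, lt_of_le_of_lt hy2 hz2, ⟨m, hm, hy2.trans hzm⟩, ?_⟩
  exact hS.out hx4 hz4 ⟨cq_mono ⟨m, hm, hy2.trans hzm⟩ hy1, cq_mono ⟨m, hm, hzm⟩ hy2⟩

lemma pb_disj {s t : ℕ} {Q S S' : Set ℕ} (h : Disjoint S S') :
    Disjoint (pb s t Q S) (pb s t Q S') := by
  rw [Set.disjoint_left] at h ⊢
  intro x hx hx'
  exact h hx.2.2.2 hx'.2.2.2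

lemma pb_meet {ι : Type} {A : ι → Set ℕ} {s t : ℕ} {Q S : Set ℕ} {z : ι}
    (h : (qA A s t Q z ∩ S).Nonempty) : (A z ∩ pb s t Q S).Nonempty := by
  obtain ⟨g, ⟨x, hx, h1, h2, h3, rfl⟩, hg⟩ := h
  exact ⟨x, hx, h1, h2, h3, hg⟩

lemma qA_sub {ι : Type} {A : ι → Set ℕ} {s t : ℕ} {Q : Set ℕ} {z : ι} {g : ℕ}
    (h : g ∈ qA A s t Q z) : g ∈ Q := by
  obtain ⟨x, -, -, -, h3, rfl⟩ := h
  exact (cq_mem h3).1

lemma mem_pb {s t : ℕ} {Q S : Set ℕ} {g : ℕ} (h1 : s ≤ g) (h2 : g < t) (h3 : g ∈ Q)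
    (h4 : g ∈ S) : g ∈ pb s t Q S :=
  ⟨h1, h2, ⟨g, h3, le_rfl⟩, by rw [cq_self h3]; exact h4⟩

/-- the outside of `[s, t)` on the side `b` -/
def W (s t : ℕ) (b : Bool) : Set ℕ := {y | (b = false ∧ y < s) ∨ (b = true ∧ t ≤ y)}

lemma W_ord (s t : ℕ) (b : Bool) : (W s t b).OrdConnected := by
  refine ⟨fun x hx z hz y hy => ?_⟩
  obtain ⟨hy1, hy2⟩ := hy
  rcases hx with ⟨hb, hx⟩ | ⟨hb, hx⟩
  · rcases hz with ⟨-, hz⟩ | ⟨hb', -⟩
    · exact Or.inl ⟨hb, lt_of_le_of_lt hy2 hz⟩
    · rw [hb] at hb'; exact absurd hb' (by decide)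
  · exact Or.inr ⟨hb, hx.trans hy1⟩

lemma W_disj {s t : ℕ} {b : Bool} {Q S : Set ℕ} : Disjoint (pb s t Q S) (W s t b) := by
  rw [Set.disjoint_left]
  rintro x ⟨h1, h2, -⟩ (⟨-, h3⟩ | ⟨-, h3⟩) <;> omega

/-- a model of size `1` -/
lemma model_one {ι : Type} (A : ι → Set ℕ) (F : Set ι) (r : ℕ) : Model A F r 1 := by
  refine ⟨1, 0, rfl, Nat.zero_le _, fun _ => univ, fun _ _ => ordConnected_univ, ?_,
    fun _ => 0, ?_⟩
  · intro i j h1 h2
    omega
  · intro i j h1 h2
    omega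

/-- pulling back a model -/
lemma pull {ι : Type} {A : ι → Set ℕ} {s t : ℕ} {Q : Set ℕ} {F F' : Set ι} {r r' N : ℕ}
    (hF : F' ⊆ F) (hr : r' ≤ r) (h : Model (qA A s t Q) F' r' N) : Model A F r N := by
  obtain ⟨m, p, hmp, hp, S, h1, h2, own, h3⟩ := h
  refine ⟨m, p, hmp, hp.trans hr, fun i => pb s t Q (S i), fun i hi => pb_ord (h1 i hi),
    fun i j hij hj => pb_disj (h2 i j hij hj), own, ?_⟩
  intro i j hij hj
  obtain ⟨z, hz, ho, hi', hj'⟩ := h3 i j hij hj
  exact ⟨z, hF hz, ho, fun hm => pb_meet (hi' hm), fun hm => pb_meet (hj' hm)⟩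

/-- pulling back a model, with one apex replaced by `W` -/
lemma pull_apex {ι : Type} {A : ι → Set ℕ} {s t : ℕ} {Q : Set ℕ} {F F' : Set ι} {r N : ℕ}
    (b : Bool) (hF : F' ⊆ F) (hW : ∀ z ∈ F', (A z ∩ W s t b).Nonempty)
    (h : Model (qA A s t Q) F' (r + 1) N) : Model A F r N := by
  obtain ⟨m, p, hmp, hp, S, h1, h2, own, h3⟩ := h
  rcases Nat.eq_zero_or_pos p with hp0 | hp0
  · exact pull hF le_rfl ⟨m, p, hmp, by omega, S, h1, h2, own, h3⟩
  refine ⟨m + 1, p - 1, by omega, by omega, fun i => if i < m then pb s t Q (S i) else W s t b,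
    ?_, ?_, own, ?_⟩
  · intro i hi
    by_cases him : i < m
    · simp only [him, if_true]
      exact pb_ord (h1 i him)
    · simp only [him, if_false]
      exact W_ord s t b
  · intro i j hij hj
    have him : i < m := by omega
    simp only [him, if_true]
    by_cases hjm : j < m
    · simp only [hjm, if_true]
      exact pb_disj (h2 i j hij hjm)
    · simp only [hjm, if_false]
      exact W_disj
  · have key : ∀ z ∈ F', ∀ i, Meets (qA A s t Q) m S z i →
        Meets A (m + 1) (fun i => if i < m then pb s t Q (S i) else W s t b) z i := by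
      intro z hz i hi _
      by_cases him : i < m
      · simp only [him, if_true]
        exact pb_meet (hi him)
      · simp only [him, if_false]
        exact hW z hz
    intro i j hij hj
    obtain ⟨z, hz, ho, hi', hj'⟩ := h3 i j hij hj
    exact ⟨z, hF hz, ho, key z hz i hi', key z hz j hj'⟩

/-- the shift of part numbers -/
def sh (m i : ℕ) : ℕ := if i < m then i else i + 1

/-- adding the segment `W` -/
lemma add_seg {ι : Type} {A : ι → Set ℕ} {s t : ℕ} {Q : Set ℕ} {F F' : Set ι} {r N : ℕ}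
    (b : Bool) (hF : F' ⊆ F) (hF' : ∀ z ∈ F', ∀ x ∈ A z, s ≤ x ∧ x < t)
    (hQ : ∀ g ∈ Q, s ≤ g ∧ g < t ∧ ∃ z ∈ F, g ∈ A z ∧ (A z ∩ W s t b).Nonempty)
    (hQn : Q.Nonempty) (hN : 2 ≤ N)
    (h : Model (qA A s t Q) F' r N) : Model A F r (N + 1) := by
  classical
  obtain ⟨m, p, hmp, hp, S, h1, h2, own, h3⟩ := h
  refine ⟨m + 1, p, by omega, hp, fun i => if i < m then pb s t Q (S i) else W s t b,
    ?_, ?_, fun z => if (A z ∩ W s t b).Nonempty then m else sh m (own z), ?_⟩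
  · intro i hi
    by_cases him : i < m
    · simp only [him, if_true]
      exact pb_ord (h1 i him)
    · simp only [him, if_false]
      exact W_ord s t b
  · intro i j hij hj
    have him : i < m := by omega
    simp only [him, if_true]
    by_cases hjm : j < m
    · simp only [hjm, if_true]
      exact pb_disj (h2 i j hij hjm)
    · simp only [hjm, if_false]
      exact W_disj
  · -- objects inside do not meet `W`
    have hin : ∀ z ∈ F', ¬ (A z ∩ W s t b).Nonempty := by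
      rintro z hz ⟨x, hx, hxW⟩
      obtain ⟨h4, h5⟩ := hF' z hz x hx
      rcases hxW with ⟨-, h6⟩ | ⟨-, h6⟩ <;> omega
    -- the pair `i, j` of old parts
    have hold : ∀ i j, i < j → j < N → ∃ z ∈ F, ((if (A z ∩ W s t b).Nonempty then m
          else sh m (own z)) = sh m i ∨ (if (A z ∩ W s t b).Nonempty then m
          else sh m (own z)) = sh m j) ∧
        Meets A (m + 1) (fun i => if i < m then pb s t Q (S i) else W s t b) z (sh m i) ∧
        Meets A (m + 1) (fun i => if i < m then pb s t Q (S i) else W s t b) z (sh m j) := by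
      intro i j hij hj
      obtain ⟨z, hz, ho, hi', hj'⟩ := h3 i j hij hj
      have key : ∀ i, Meets (qA A s t Q) m S z i →
          Meets A (m + 1) (fun i => if i < m then pb s t Q (S i) else W s t b) z (sh m i) := by
        intro i hi hlt
        unfold sh at hlt ⊢
        by_cases him : i < m
        · simp only [him, if_true]
          exact pb_meet (hi him)
        · simp only [him, if_false] at hlt
          omega
      refine ⟨z, hF hz, ?_, key i hi', key j hj'⟩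
      rw [if_neg (hin z hz)]
      rcases ho with ho | ho
      · left; rw [ho]
      · right; rw [ho]
    -- the pair of `W` and the other part `k`
    have hnew : ∀ k, k < N + 1 → k ≠ m → ∃ z ∈ F, (A z ∩ W s t b).Nonempty ∧
        Meets A (m + 1) (fun i => if i < m then pb s t Q (S i) else W s t b) z k := by
      intro k hk hkm
      by_cases hk' : k < m
      · -- a segment
        have h4 : ∃ g ∈ Q, g ∈ S k := by
          have h5 : ∃ z ∈ F', Meets (qA A s t Q) m S z k := by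
            rcases Nat.eq_zero_or_pos k with hk0 | hk0
            · obtain ⟨z, hz, -, h6, -⟩ := h3 0 1 (by omega) (by omega)
              exact ⟨z, hz, by rw [hk0]; exact h6⟩
            · obtain ⟨z, hz, -, -, h6⟩ := h3 0 k hk0 (by omega)
              exact ⟨z, hz, h6⟩
          obtain ⟨z, hz, h6⟩ := h5
          obtain ⟨g, hg, hgS⟩ := h6 hk'
          exact ⟨g, qA_sub hg, hgS⟩
        obtain ⟨g, hg, hgS⟩ := h4
        obtain ⟨h5, h6, z, hz, hgz, hzW⟩ := hQ g hg
        refine ⟨z, hz, hzW, fun _ => ?_⟩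
        simp only [hk', if_true]
        exact ⟨g, hgz, mem_pb h5 h6 hg hgS⟩
      · obtain ⟨g, hg⟩ := hQn
        obtain ⟨-, -, z, hz, -, hzW⟩ := hQ g hg
        exact ⟨z, hz, hzW, fun h => by omega⟩
    have hWm : ∀ z, (A z ∩ W s t b).Nonempty →
        Meets A (m + 1) (fun i => if i < m then pb s t Q (S i) else W s t b) z m := by
      intro z hz _
      simp only [lt_irrefl, if_false]
      exact hz
    intro i j hij hj
    by_cases him : i = m
    · obtain ⟨z, hz, hzW, hzj⟩ := hnew j hj (by omega)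
      refine ⟨z, hz, Or.inl ?_, him ▸ hWm z hzW, hzj⟩
      rw [him]
      simp only [hzW, if_true]
    by_cases hjm : j = m
    · obtain ⟨z, hz, hzW, hzi⟩ := hnew i (by omega) him
      refine ⟨z, hz, Or.inr ?_, hzi, hjm ▸ hWm z hzW⟩
      rw [hjm]
      simp only [hzW, if_true]
    have hsh : ∀ k, k ≠ m → sh m (if k < m then k else k - 1) = k := by
      intro k hk
      unfold sh
      by_cases hkm : k < m
      · simp only [hkm, if_true]
      · simp only [hkm, if_false]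
        rw [if_neg (by omega)]
        omega
    have h4 := hold (if i < m then i else i - 1) (if j < m then j else j - 1)
      (by split_ifs <;> omega) (by split_ifs <;> omega)
    rw [hsh i him, hsh j hjm] at h4
    exact h4

/-- a crossing object is a model of size `2` -/
lemma model_two {ι : Type} {A : ι → Set ℕ} {s t : ℕ} {F : Set ι} (b : Bool) (r : ℕ) {z : ι}
    (hz : z ∈ F) (h1 : ∃ x ∈ A z, s ≤ x ∧ x < t) (h2 : (A z ∩ W s t b).Nonempty) :
    Model A F r 2 := by
  refine ⟨2, 0, rfl, Nat.zero_le _, fun i => if i = 0 then {x | s ≤ x ∧ x < t} else W s t b,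
    ?_, ?_, fun _ => 0, ?_⟩
  · intro i hi
    by_cases hi0 : i = 0
    · simp only [hi0, if_true]
      refine ⟨fun x hx z hz y hy => ?_⟩
      exact ⟨hx.1.trans hy.1, lt_of_le_of_lt hy.2 hz.2⟩
    · simp only [hi0, if_false]
      exact W_ord s t b
  · intro i j hij hj
    have hi0 : i = 0 := by omega
    have hj0 : j ≠ 0 := by omega
    simp only [hi0, hj0, if_true, if_false]
    rw [Set.disjoint_left]
    rintro x ⟨h3, h4⟩ (⟨-, h5⟩ | ⟨-, h5⟩) <;> omega
  · intro i j hij hj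
    have hi0 : i = 0 := by omega
    have hj0 : j ≠ 0 := by omega
    refine ⟨z, hz, Or.inl hi0.symm, fun _ => ?_, fun _ => ?_⟩
    · simp only [hi0, if_true]
      obtain ⟨x, hx, h3⟩ := h1
      exact ⟨x, hx, h3⟩
    · simp only [hj0, if_false]
      exact h2

end QuotAux

open QuotAux in
theorem quot : QuotStmt := by
  classical
  intro κ ι A O cls r n hmod s t e hQn j' hM
  obtain ⟨j, σ⟩ := e
  simp only at hM
  have hn : 1 ≤ n j := by
    by_contra hlt
    have h0 : n j = 0 := by omega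
    have := hmod j
    rw [h0] at this
    exact this (model_one _ _ _)
  -- facts on `Q`
  have hQ : ∀ g ∈ PiM A O cls s t (j, σ), s ≤ g ∧ g < t ∧
      ∃ z ∈ {z | z ∈ O ∧ cls z = j}, g ∈ A z ∧ (A z ∩ W s t σ).Nonempty := by
    rintro g ⟨h1, h2, z, hzO, hzc, hgz, y, hy, hside⟩
    exact ⟨h1, h2, z, ⟨hzO, hzc⟩, hgz, y, hy, hside⟩
  have hO : ∀ z, z ∈ Vis A O cls s t ∪ Crs A O s t → z ∈ O := by
    rintro z (hz | hz)
    · exact hz.1.1
    · exact hz.1
  rcases j' with i | b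
  · -- old classes
    have hcl : ∀ z, ncls A O cls s t (j, σ) z = Sum.inl i →
        cls z = i ∧ ¬ (z ∈ Crs A O s t ∧ cls z = j) := by
      intro z hz
      unfold ncls at hz
      simp only at hz
      split_ifs at hz with h1 h2
      exact ⟨Sum.inl_injective hz, h1⟩
    by_cases hij : i = j
    · subst hij
      have hnn : nn n i (Sum.inl i) = n i - 1 := by
        unfold nn
        simp
      rw [hnn, show n i - 1 + 1 = n i by omega] at hM
      rcases Nat.lt_or_ge (n i) 2 with h2 | h2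
      · have h1 : n i = 1 := by omega
        obtain ⟨g, hg⟩ := hQn
        obtain ⟨h3, h4, z, hz, hgz, hzW⟩ := hQ g hg
        refine hmod i ?_
        rw [h1]
        exact model_two σ (r i) hz ⟨g, hgz, h3, h4⟩ hzW
      · refine hmod i (add_seg σ ?_ ?_ hQ hQn h2 hM)
        · rintro z ⟨hz, hzc⟩
          exact ⟨hO z hz, (hcl z hzc).1⟩
        · rintro z ⟨hz, hzc⟩ x hx
          obtain ⟨h3, h4⟩ := hcl z hzc
          rcases hz with hz | hz
          · exact hz.1.2 x hx
          · exact absurd ⟨hz, h3⟩ h4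
    · have hnn : nn n j (Sum.inl i) = n i := by
        unfold nn
        simp [hij]
      rw [hnn] at hM
      refine hmod i (pull ?_ le_rfl hM)
      rintro z ⟨hz, hzc⟩
      exact ⟨hO z hz, (hcl z hzc).1⟩
  · have hcl : ∀ z, ncls A O cls s t (j, σ) z = Sum.inr b →
        (z ∈ Crs A O s t ∧ cls z = j) ∧ (A z ∩ W s t b).Nonempty := by
      intro z hz
      unfold ncls at hz
      simp only at hz
      split_ifs at hz with h1 h2
      · refine ⟨h1, ?_⟩
        obtain ⟨y, hy, hys⟩ := h2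
        exact ⟨y, hy, Or.inl ⟨(Sum.inr_injective hz).symm, hys⟩⟩
      · refine ⟨h1, ?_⟩
        obtain ⟨y, hy, hys⟩ := h1.1.2.2
        rcases hys with hys | hys
        · exact absurd ⟨y, hy, hys⟩ h2
        · exact ⟨y, hy, Or.inr ⟨(Sum.inr_injective hz).symm, hys⟩⟩
    refine hmod j (pull_apex b ?_ ?_ hM)
    · rintro z ⟨hz, hzc⟩
      exact ⟨(hcl z hzc).1.1.1, (hcl z hzc).1.2⟩
    · rintro z ⟨hz, hzc⟩
      exact (hcl z hzc).2

end Pool.Agent.MP763071.KK
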