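import Pool.Agent.Lib.MP_763071_co.KK.Spec

set_option autoImplicit false

/-!
# Signatures (Joret, Micek, Wiechert)
-/

namespace Pool.Agent.MP763071.KK.SigAux

open Pool.Agent.MP763071.KK

section Walks

variable {V : Type} {G : SimpleGraph V}

lemma rg_mono {C C' : Set V} {ρ ρ' : ℕ} {a b : V} (h : RG G C ρ a b) (hC : C ⊆ C')
    (hρ : ρ ≤ ρ') : RG G C' ρ' a b := by
  obtain ⟨L, hL, w, h0, h1, h2, h3⟩ := h
  exact ⟨L, hL.trans hρ, w, h0, h1, h2, fun t ht => hC (h3 t ht)⟩

lemma rg_symm {C : Set V} {ρ : ℕ} {a b : V} (h : RG G C ρ a b) : RG G C ρ b a := by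
  obtain ⟨L, hL, w, h0, h1, h2, h3⟩ := h
  refine ⟨L, hL, fun t => w (L - t), by simpa using h1, by simpa using h0, ?_,
    fun t _ => h3 _ (Nat.sub_le _ _)⟩
  intro t ht
  have h4 := h2 (L - (t + 1)) (by omega)
  have e : L - (t + 1) + 1 = L - t := by omega
  rw [e] at h4
  exact h4.symm

lemma rg_trans {C : Set V} {ρ ρ' : ℕ} {a b c : V} (h : RG G C ρ a b) (h' : RG G C ρ' b c) :
    RG G C (ρ + ρ') a c := by
  obtain ⟨L, hL, w, h0, h1, h2, h3⟩ := h
  obtain ⟨L', hL', w', h0', h1', h2', h3'⟩ := h'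
  refine ⟨L + L', by omega, fun t => if t ≤ L then w t else w' (t - L), ?_, ?_, ?_, ?_⟩
  · simp [h0]
  · by_cases hL0 : L' = 0
    · subst hL0
      show (if L + 0 ≤ L then w (L + 0) else w' (L + 0 - L)) = c
      rw [if_pos (by omega), Nat.add_zero, h1, ← h0', h1']
    · show (if L + L' ≤ L then w (L + L') else w' (L + L' - L)) = c
      rw [if_neg (by omega), Nat.add_sub_cancel_left]
      exact h1'
  · intro t ht
    show G.Adj (if t ≤ L then w t else w' (t - L))
      (if t + 1 ≤ L then w (t + 1) else w' (t + 1 - L))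
    by_cases h4 : t + 1 ≤ L
    · rw [if_pos (by omega), if_pos h4]
      exact h2 t (by omega)
    · by_cases h5 : t ≤ L
      · have h6 : t = L := by omega
        rw [if_pos h5, if_neg h4, h6]
        have e : L + 1 - L = 0 + 1 := by omega
        rw [e, h1, ← h0']
        exact h2' 0 (by omega)
      · rw [if_neg h5, if_neg h4]
        have e : t + 1 - L = (t - L) + 1 := by omega
        rw [e]
        exact h2' _ (by omega)
  · intro t ht
    show (if t ≤ L then w t else w' (t - L)) ∈ C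
    by_cases h5 : t ≤ L
    · rw [if_pos h5]; exact h3 t h5
    · rw [if_neg h5]; exact h3' _ (by omega)

end Walks

section Posets

variable {P : Type} [PartialOrder P]

lemma sat_rg {L κ : ℕ} {w : ℕ → P} {x y : P} {C : Set P} (h : Sat L w x y) (hL : L ≤ κ)
    (hC : ∀ t ≤ L, w t ∈ C) : RG (CG P) C κ x y := by
  refine ⟨L, hL, w, h.1, h.2.1, fun t ht => ?_, hC⟩
  rw [SimpleGraph.fromRel_adj]
  exact ⟨(h.2.2 t ht).lt.ne, Or.inl (h.2.2 t ht)⟩

lemma sat_init {L : ℕ} {w : ℕ → P} {x y : P} (h : Sat L w x y) {t : ℕ} (ht : t ≤ L) :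
    Sat t w x (w t) :=
  ⟨h.1, rfl, fun s hs => h.2.2 s (by omega)⟩

lemma sat_tail {L : ℕ} {w : ℕ → P} {x y : P} (h : Sat L w x y) {t : ℕ} (ht : t ≤ L) :
    Sat (L - t) (fun s => w (t + s)) (w t) y := by
  refine ⟨rfl, ?_, fun s hs => ?_⟩
  · show w (t + (L - t)) = y
    have e : t + (L - t) = L := by omega
    rw [e]; exact h.2.1
  · show w (t + s) ⋖ w (t + (s + 1))
    exact h.2.2 (t + s) (by omega)

lemma sat_le {L : ℕ} {w : ℕ → P} {x y : P} (h : Sat L w x y) : x ≤ y := by
  have h1 : ∀ t ≤ L, w 0 ≤ w t := by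
    intro t
    induction t with
    | zero => intro _; exact le_rfl
    | succ t ih => intro ht; exact (ih (by omega)).trans (h.2.2 t (by omega)).le
  have := h1 L le_rfl
  rwa [h.1, h.2.1] at this

lemma up_le {π : P → ℕ} {κ : ℕ} {x z : P} (h : Up π κ x z) : x ≤ z := by
  obtain ⟨L, -, w, hs, -⟩ := h
  exact sat_le hs

lemma dn_le {π : P → ℕ} {κ : ℕ} {y z : P} (h : Dn π κ y z) : z ≤ y := by
  obtain ⟨L, -, w, hs, -⟩ := h
  exact sat_le hs

lemma up_rg {π : P → ℕ} {κ μ : ℕ} {x z : P} (h : Up π κ x z) (hμ : μ ≤ π z) :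
    RG (CG P) {w | μ ≤ π w} κ x z := by
  obtain ⟨L, hL, w, hs, hm⟩ := h
  exact sat_rg hs hL fun t ht => hμ.trans (hm t ht)

lemma dn_rg {π : P → ℕ} {κ μ : ℕ} {y z : P} (h : Dn π κ y z) (hμ : μ ≤ π z) :
    RG (CG P) {w | μ ≤ π w} κ z y := by
  obtain ⟨L, hL, w, hs, hm⟩ := h
  exact sat_rg hs hL fun t ht => hμ.trans (hm t ht)

/-- the hypothesis on the colouring -/
def GoodCol {c : ℕ} (π : P → ℕ) (κ : ℕ) (col : P → Fin c) : Prop :=
  ∀ v u, WR (CG P) π (3 * κ) v u → u ≠ v → col u ≠ col v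

lemma joinEq {c : ℕ} {π : P → ℕ} {κ : ℕ} {col : P → Fin c} (hcol : GoodCol π κ col) {a b : P}
    (h : RG (CG P) {w | min (π a) (π b) ≤ π w} (3 * κ) a b) (hc : col a = col b) : a = b := by
  by_contra hne
  rcases le_total (π a) (π b) with h1 | h1
  · rw [min_eq_left h1] at h
    exact hcol b a (rg_symm h) hne hc
  · rw [min_eq_right h1] at h
    exact hcol a b h (Ne.symm hne) hc.symm

lemma up_unique {c : ℕ} {π : P → ℕ} {κ : ℕ} {col : P → Fin c} (hcol : GoodCol π κ col)
    {x u u' : P} (h : Up π κ x u) (h' : Up π κ x u') (hc : col u = col u') : u = u' := by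
  refine joinEq hcol ?_ hc
  refine rg_mono (rg_trans (rg_symm (up_rg h (min_le_left _ _))) (up_rg h' (min_le_right _ _)))
    (fun _ hx => hx) (by omega)

lemma dn_unique {c : ℕ} {π : P → ℕ} {κ : ℕ} {col : P → Fin c} (hcol : GoodCol π κ col)
    {y d d' : P} (h : Dn π κ y d) (h' : Dn π κ y d') (hc : col d = col d') : d = d' := by
  refine joinEq hcol ?_ hc
  refine rg_mono (rg_trans (dn_rg h (min_le_left _ _)) (rg_symm (dn_rg h' (min_le_right _ _))))
    (fun _ hx => hx) (by omega)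

lemma link {c : ℕ} {π : P → ℕ} {κ : ℕ} {col : P → Fin c} (hcol : GoodCol π κ col)
    {x y u d : P} (hu : Up π κ x u) (hd : Dn π κ y d) (hc : col u = col d) {L : ℕ} {w : ℕ → P}
    (hL : L ≤ κ) (hs : Sat L w x y) {s : ℕ} (hm : ∀ t ≤ L, s ≤ π (w t))
    (hle : π u ≤ s ∨ π d ≤ s) : u = d := by
  have hmin : min (π u) (π d) ≤ s := by
    rcases hle with h | h
    · exact (min_le_left _ _).trans h
    · exact (min_le_right _ _).trans h
  refine joinEq hcol ?_ hc
  have h1 := rg_symm (up_rg hu (min_le_left (π u) (π d)))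
  have h2 : RG (CG P) {w | min (π u) (π d) ≤ π w} κ x y :=
    sat_rg hs hL fun t ht => hmin.trans (hm t ht)
  have h3 := rg_symm (dn_rg hd (min_le_right (π u) (π d)))
  exact rg_mono (rg_trans (rg_trans h1 h2) h3) (fun _ hx => hx) (by omega)

open Classical in
/-- the signature -/
noncomputable def sg {c : ℕ} (π : P → ℕ) (κ : ℕ) (col : P → Fin c) (x y : P) (a : Fin c) :
    Fin 4 :=
  if ¬ ∃ u, col u = a ∧ Up π κ x u then 0
  else if ¬ ∃ d, col d = a ∧ Dn π κ y d then 1
  else if ∃ u d, (col u = a ∧ Up π κ x u) ∧ (col d = a ∧ Dn π κ y d) ∧ π u < π d then 2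
  else 3

lemma descent (f : ℕ → ℕ) (h : ∀ m, f (m + 1) < f m) : False := by
  have h1 : ∀ m, f m + m ≤ f 0 := by
    intro m
    induction m with
    | zero => simp
    | succ m ih => have := h m; omega
  have := h1 (f 0 + 1)
  omega

end Posets

end Pool.Agent.MP763071.KK.SigAux

namespace Pool.Agent.MP763071.KK

open SigAux

theorem sigThm : SigStmt := by
  classical
  intro P _ _ κ c π col hπ hcol0
  have hcol : GoodCol π κ col := hcol0
  refine ⟨sg π κ col, ?_⟩
  rintro ⟨x, y, hxy, hch, hsig⟩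
  choose L hL w hs using hch
  -- the minima of the chains
  have hmin : ∀ i, ∃ t ≤ L i, ∀ s ≤ L i, π (w i t) ≤ π (w i s) := by
    intro i
    obtain ⟨t, ht, hm⟩ := Finset.exists_min_image (Finset.range (L i + 1)) (fun t => π (w i t))
      ⟨0, by simp⟩
    rw [Finset.mem_range] at ht
    exact ⟨t, by omega, fun s hs' => hm s (Finset.mem_range.2 (by omega))⟩
  choose T hT hTm using hmin
  -- the global minimum
  obtain ⟨j, hj⟩ : ∃ j, ∀ i, π (w j (T j)) ≤ π (w i (T i)) := by
    have h1 := Nat.sInf_mem (Set.range_nonempty (fun i : ℤ => π (w i (T i))))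
    obtain ⟨j, hj⟩ := h1
    refine ⟨j, fun i => ?_⟩
    show (fun i : ℤ => π (w i (T i))) j ≤ _
    rw [hj]
    exact Nat.sInf_le ⟨i, rfl⟩
  obtain ⟨q, hq⟩ : ∃ q, q = w j (T j) := ⟨_, rfl⟩
  have hall : ∀ i, ∀ t ≤ L i, π q ≤ π (w i t) := fun i t ht => by
    rw [hq]; exact (hj i).trans (hTm i t ht)
  have hqU : Up π κ (x j) q := by
    rw [hq]
    exact ⟨T j, (hT j).trans (hL j), w j, sat_init (hs j) (hT j),
      fun t ht => hTm j t (ht.trans (hT j))⟩
  have hqD : Dn π κ (y (j + 1)) q := by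
    rw [hq]
    refine ⟨L j - T j, (Nat.sub_le _ _).trans (hL j), _, sat_tail (hs j) (hT j), fun t ht => ?_⟩
    have := hT j
    exact hTm j (T j + t) (by omega)
  obtain ⟨a, ha⟩ : ∃ a, a = col q := ⟨_, rfl⟩
  -- the value of the signature at `a`
  have hconst : ∀ i i', sg π κ col (x i) (y i) a = sg π κ col (x i') (y i') a := fun i i' =>
    congrFun (hsig i i') a
  have hUj : ∃ u, col u = a ∧ Up π κ (x j) u := ⟨q, ha.symm, hqU⟩
  have hDj : ∃ d, col d = a ∧ Dn π κ (y (j + 1)) d := ⟨q, ha.symm, hqD⟩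
  have hne0 : ∀ i, sg π κ col (x i) (y i) a ≠ 0 := by
    intro i
    rw [hconst i j]
    unfold sg
    rw [if_neg (not_not.2 hUj)]
    split_ifs <;> decide
  have hU : ∀ i, ∃ u, col u = a ∧ Up π κ (x i) u := by
    intro i
    by_contra hcon
    apply hne0 i
    unfold sg
    rw [if_pos hcon]
  have hne1 : ∀ i, sg π κ col (x i) (y i) a ≠ 1 := by
    intro i
    rw [hconst i (j + 1)]
    unfold sg
    rw [if_neg (not_not.2 (hU (j + 1))), if_neg (not_not.2 hDj)]
    split_ifs <;> decide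
  have hD : ∀ i, ∃ d, col d = a ∧ Dn π κ (y i) d := by
    intro i
    by_contra hcon
    apply hne1 i
    unfold sg
    rw [if_neg (not_not.2 (hU i)), if_pos hcon]
  choose u hua hu using hU
  choose d hda hd using hD
  have huq : u j = q := up_unique hcol (hu j) hqU (by rw [hua, ha])
  have hdq : d (j + 1) = q := dn_unique hcol (hd (j + 1)) hqD (by rw [hda, ha])
  -- the link between `u i` and `d (i + 1)`
  have hlink : ∀ i, (π (u i) ≤ π q ∨ π (d (i + 1)) ≤ π q) → u i = d (i + 1) := fun i hi =>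
    link hcol (hu i) (hd (i + 1)) (by rw [hua, hda]) (hL i) (hs i) (hall i) hi
  have hcase : (∀ i, π (u i) < π (d i)) ∨ (∀ i, π (d i) < π (u i)) := by
    by_cases h2 : ∃ u' d', (col u' = a ∧ Up π κ (x j) u') ∧ (col d' = a ∧ Dn π κ (y j) d') ∧
        π u' < π d'
    · left
      intro i
      have e : sg π κ col (x i) (y i) a = 2 := by
        rw [hconst i j]
        unfold sg
        rw [if_neg (not_not.2 ⟨u j, hua j, hu j⟩), if_neg (not_not.2 ⟨d j, hda j, hd j⟩),
          if_pos h2]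
      unfold sg at e
      rw [if_neg (not_not.2 ⟨u i, hua i, hu i⟩), if_neg (not_not.2 ⟨d i, hda i, hd i⟩)] at e
      split_ifs at e with h3
      · obtain ⟨u', d', ⟨hu1, hu2⟩, ⟨hd1, hd2⟩, hlt⟩ := h3
        have e1 : u' = u i := up_unique hcol hu2 (hu i) (by rw [hu1, hua])
        have e2 : d' = d i := dn_unique hcol hd2 (hd i) (by rw [hd1, hda])
        rw [← e1, ← e2]; exact hlt
      · exact absurd e (by decide)
    · right
      intro i
      have e : sg π κ col (x i) (y i) a = 3 := by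
        rw [hconst i j]
        unfold sg
        rw [if_neg (not_not.2 ⟨u j, hua j, hu j⟩), if_neg (not_not.2 ⟨d j, hda j, hd j⟩),
          if_neg h2]
      unfold sg at e
      rw [if_neg (not_not.2 ⟨u i, hua i, hu i⟩), if_neg (not_not.2 ⟨d i, hda i, hd i⟩)] at e
      split_ifs at e with h3
      · exact absurd e (by decide)
      · have h4 : ¬ π (u i) < π (d i) := fun hlt =>
          h3 ⟨u i, d i, ⟨hua i, hu i⟩, ⟨hda i, hd i⟩, hlt⟩
        have h5 : π (u i) ≠ π (d i) := by
          intro h6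
          have h7 := hπ h6
          apply hxy i
          exact (up_le (hu i)).trans (h7 ▸ dn_le (hd i))
        omega
  rcases hcase with h2 | h3
  · -- going to `+ ∞`
    have hstep : ∀ m : ℕ, π (u (j + (m + 1 : ℕ))) < π q := by
      intro m
      induction m with
      | zero =>
        have := h2 (j + 1)
        rw [hdq] at this
        simpa using this
      | succ m ih =>
        have e := hlink (j + (m + 1 : ℕ)) (Or.inl ih.le)
        have h4 := h2 (j + (m + 1 : ℕ) + 1)
        rw [← e] at h4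
        have e2 : j + ((m + 1 + 1 : ℕ) : ℤ) = j + ((m + 1 : ℕ) : ℤ) + 1 := by push_cast; ring
        rw [e2]
        exact h4.trans ih
    refine descent (fun m => π (u (j + (m + 1 : ℕ)))) fun m => ?_
    have e := hlink (j + (m + 1 : ℕ)) (Or.inl (hstep m).le)
    have h4 := h2 (j + (m + 1 : ℕ) + 1)
    rw [← e] at h4
    have e2 : j + ((m + 1 + 1 : ℕ) : ℤ) = j + ((m + 1 : ℕ) : ℤ) + 1 := by push_cast; ring
    show π (u (j + ((m + 1 + 1 : ℕ) : ℤ))) < _
    rw [e2]
    exact h4
  · -- going to `- ∞`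
    have hkey : ∀ m : ℕ, π (d (j - m)) < π q → π (d (j - (m + 1 : ℕ))) < π (d (j - m)) := by
      intro m hm
      have e1 : j - ((m + 1 : ℕ) : ℤ) + 1 = j - m := by push_cast; ring
      have e := hlink (j - ((m + 1 : ℕ) : ℤ)) (Or.inr (by rw [e1]; exact hm.le))
      rw [e1] at e
      have h4 := h3 (j - ((m + 1 : ℕ) : ℤ))
      rw [e] at h4
      exact h4
    have hstep : ∀ m : ℕ, π (d (j - m)) < π q := by
      intro m
      induction m with
      | zero =>
        have := h3 j
        rw [huq] at this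
        simpa using this
      | succ m ih => exact (hkey m ih).trans ih
    exact descent (fun m => π (d (j - m))) fun m => hkey m (hstep m)

end Pool.Agent.MP763071.KK
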