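import Pool.Agent.Lib.MP_763071_co.KK.Spec

/-!
# MP_763071_co : proof of (T)
-/

set_option autoImplicit false

namespace Pool.Agent.MP763071.KK

namespace TMainAux

/-- the weight of a class -/
def wt (r n : ℕ) : ℕ := if n < r then 0 else 4 ^ (2 * n - r)

lemma wt_step (r n : ℕ) (h1 : r ≤ n) (h2 : 1 ≤ n) :
    wt r (n - 1) + 2 * wt (r + 1) n < wt r n := by
  unfold wt
  rw [if_neg (by omega : ¬ n < r)]
  by_cases h : r + 1 ≤ n
  · rw [if_neg (by omega), if_neg (by omega)]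
    have e1 : 2 * (n - 1) - r = 2 * n - 2 - r := by omega
    have e2 : 2 * n - (r + 1) = (2 * n - 2 - r) + 1 := by omega
    have e3 : 2 * n - r = (2 * n - 2 - r) + 2 := by omega
    rw [e1, e2, e3, pow_succ, pow_add]
    have : 0 < 4 ^ (2 * n - 2 - r) := by positivity
    omega
  · have hr : r = n := by omega
    subst hr
    rw [if_pos (by omega), if_pos (by omega)]
    have : 0 < 4 ^ (2 * r - r) := by positivity
    omega

lemma sum_lt {κ : Type} [Fintype κ] (r n : κ → ℕ) (j : κ) (h1 : r j ≤ n j) (h2 : 1 ≤ n j) :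
    ∑ x : κ ⊕ Bool, wt (nr r j x) (nn n j x) < ∑ i, wt (r i) (n i) := by
  classical
  rw [Fintype.sum_sum_type]
  simp only [Fintype.sum_bool, nr, nn]
  have e1 : ∑ i, wt (r i) (if i = j then n i - 1 else n i) + wt (r j) (n j)
      = ∑ i, wt (r i) (n i) + wt (r j) (n j - 1) := by
    rw [← Finset.add_sum_erase Finset.univ (fun i => wt (r i) (if i = j then n i - 1 else n i))
      (Finset.mem_univ j), ← Finset.add_sum_erase Finset.univ (fun i => wt (r i) (n i))
      (Finset.mem_univ j)]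
    have e2 : ∑ i ∈ Finset.univ.erase j, wt (r i) (if i = j then n i - 1 else n i)
        = ∑ i ∈ Finset.univ.erase j, wt (r i) (n i) := by
      refine Finset.sum_congr rfl fun i hi => ?_
      rw [if_neg (Finset.ne_of_mem_erase hi)]
    rw [e2]
    simp only [if_true]
    omega
  have e3 := wt_step (r j) (n j) h1 h2
  omega

lemma model_mono {ι : Type} {A : ι → Set ℕ} {F F' : Set ι} {r N : ℕ} (h : F' ⊆ F)
    (hm : Model A F' r N) : Model A F r N := by
  obtain ⟨m, p, h1, h2, S, h3, h4, own, h5⟩ := hm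
  refine ⟨m, p, h1, h2, S, h3, h4, own, fun i j hij hj => ?_⟩
  obtain ⟨z, hz, h6⟩ := h5 i j hij hj
  exact ⟨z, h hz, h6⟩

lemma model_one {ι : Type} (A : ι → Set ℕ) (F : Set ι) (r : ℕ) : Model A F r 1 := by
  refine ⟨1, 0, rfl, Nat.zero_le _, fun _ => Set.univ, fun _ _ => Set.ordConnected_univ,
    fun i j _ _ => by omega, fun _ => 0, fun i j _ _ => by omega⟩

lemma good_of {ι : Type} (A : ι → Set ℕ) (O : Set ι) (M : ℕ) (T : Type) [Fintype T]
    (τ : ℕ → ℕ → ℕ) (φ : T → ι → ℕ) (hτ : ∀ a b, a ≤ b → a ≤ τ a b ∧ τ a b ≤ b)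
    (hs : ∀ q ∈ O, ∀ p ∈ O, q ≠ p → ∀ a ∈ A q, ∀ b ∈ A p, a ≤ b →
      ∃ i, φ i q ≤ τ a b ∧ τ a b ≤ φ i p) (hc : Fintype.card T ≤ M) : Good A O M := by
  classical
  refine ⟨τ, fun i => if h : (i : ℕ) < Fintype.card T then
    φ ((Fintype.equivFin T).symm ⟨i, h⟩) else fun _ => 0, hτ, ?_⟩
  intro q hq p hp hne a ha b hb hab
  obtain ⟨i, hi⟩ := hs q hq p hp hne a ha b hb hab
  refine ⟨⟨(Fintype.equivFin T i : ℕ), lt_of_lt_of_le (Fintype.equivFin T i).2 hc⟩, ?_⟩
  have h1 : ((Fintype.equivFin T i : Fin (Fintype.card T)) : ℕ) < Fintype.card T :=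
    (Fintype.equivFin T i).2
  simp only [h1, dif_pos, Fin.eta, Equiv.symm_apply_apply]
  exact hi

lemma enum {ι : Type} (X : Set ι) (hX : X.Finite) (S : ℕ) (hS : X.ncard ≤ S) :
    ∃ g : Fin S → Option ι, ∀ z ∈ X, ∃ i, g i = some z := by
  classical
  have := hX.fintype
  have hc : Fintype.card X ≤ S := by
    rw [← Nat.card_eq_fintype_card]
    exact hS
  refine ⟨fun i => if h : (i : ℕ) < Fintype.card X then
    some (((Fintype.equivFin X).symm ⟨i, h⟩ : X) : ι) else none, fun z hz => ?_⟩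
  refine ⟨⟨(Fintype.equivFin X ⟨z, hz⟩ : ℕ), lt_of_lt_of_le (Fintype.equivFin X ⟨z, hz⟩).2 hc⟩, ?_⟩
  have h1 : ((Fintype.equivFin X ⟨z, hz⟩ : Fin (Fintype.card X)) : ℕ) < Fintype.card X :=
    (Fintype.equivFin X ⟨z, hz⟩).2
  simp only [h1, dif_pos, Fin.eta, Equiv.symm_apply_apply]

end TMainAux

open TMainAux

theorem tMain (h1 : TrivStmt) (h2 : QuotStmt) (h3 : RegionStmt) : TStmt := by
  classical
  suffices H : ∀ (W : ℕ) (κ : Type) [Fintype κ] (r n : κ → ℕ), ∑ i, wt (r i) (n i) = W →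
      ∃ M : ℕ, ∀ (ι : Type) (A : ι → Set ℕ) (O : Set ι) (cls : ι → κ) (h : ℕ),
        (∀ z ∈ O, ∀ a ∈ A z, a < h) →
        (∀ j, ¬ Model A {z | z ∈ O ∧ cls z = j} (r j) (n j + 1)) → Good A O M from
    fun κ _ r n => H _ κ r n rfl
  intro W
  induction W using Nat.strong_induction_on with
  | _ W ih =>
  intro κ _ r n hW
  by_cases h0 : ∃ j, n j = 0
  · obtain ⟨j, hj⟩ := h0
    refine ⟨0, fun ι A O cls h _ hM => ?_⟩
    exfalso
    refine hM j ?_
    rw [hj]
    exact model_one _ _ _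
  have hn : ∀ j, 1 ≤ n j := fun j => by
    by_contra hlt
    exact h0 ⟨j, by omega⟩
  have hex : ∀ e : κ × Bool, ∃ M : ℕ, r e.1 ≤ n e.1 →
      ∀ (ι : Type) (A : ι → Set ℕ) (O : Set ι) (cls : ι → κ ⊕ Bool) (h : ℕ),
        (∀ z ∈ O, ∀ a ∈ A z, a < h) →
        (∀ j, ¬ Model A {z | z ∈ O ∧ cls z = j} (nr r e.1 j) (nn n e.1 j + 1)) → Good A O M := by
    intro e
    by_cases he : r e.1 ≤ n e.1
    · obtain ⟨M, hM⟩ := ih _ (by rw [← hW]; exact sum_lt r n e.1 he (hn _)) (κ ⊕ Bool)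
        (nr r e.1) (nn n e.1) rfl
      exact ⟨M, fun _ => hM⟩
    · exact ⟨0, fun h => absurd h he⟩
  choose Mf hMf using hex
  obtain ⟨M1, hM1⟩ := h3 κ Mf
  refine ⟨M1 + 2 * ∑ j, n j, fun ι A O cls h hh hM => ?_⟩
  set O1 : Set ι := {z | z ∈ O ∧ r (cls z) ≤ n (cls z)} with hO1
  have hsub : O1 ⊆ O := fun z hz => hz.1
  have hM' : ∀ j, ¬ Model A {z | z ∈ O1 ∧ cls z = j} (r j) (n j + 1) := fun j hm =>
    hM j (model_mono (fun z hz => ⟨hsub hz.1, hz.2⟩) hm)
  have hG1 : Good A O1 M1 := by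
    refine hM1 ι A O1 cls h (fun z hz => hh z (hsub hz)) ?_
    intro s t e hne
    have hre : r e.1 ≤ n e.1 := by
      obtain ⟨x, hx⟩ := hne
      obtain ⟨_, _, z, hz, hcl, _⟩ := hx
      have := hz.2
      rwa [hcl] at this
    refine hMf e hre ι (qA A s t (PiM A O1 cls s t e)) _ (ncls A O1 cls s t e) t ?_ ?_
    · rintro z _ g ⟨x, _, _, _, ⟨m, hm, hxm⟩, hg⟩
      have hmem : cq (PiM A O1 cls s t e) x ∈ {m | m ∈ PiM A O1 cls s t e ∧ x ≤ m} :=
        Nat.sInf_mem ⟨m, hm, hxm⟩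
      rw [hg]
      exact hmem.1.2.1
    · intro j'
      exact h2 κ ι A O1 cls r n hM' s t e hne j'
  -- the trivial classes
  have hfin : ∀ j, n j < r j → {z | z ∈ O ∧ cls z = j}.Finite ∧
      {z | z ∈ O ∧ cls z = j}.ncard ≤ n j := fun j hj => h1 ι A _ (r j) (n j) hj (hM j)
  set X : Set ι := ⋃ j ∈ (Finset.univ.filter fun j => n j < r j : Finset κ),
    {z | z ∈ O ∧ cls z = j} with hX
  have hXfin : X.Finite := by
    refine Set.Finite.biUnion (Finset.finite_toSet _) fun j hj => ?_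
    have := (Finset.mem_filter.1 (Finset.mem_coe.1 hj)).2
    exact (hfin j this).1
  have hXcard : X.ncard ≤ ∑ j, n j := by
    have h4 : ∀ s : Finset κ, (∀ j ∈ s, n j < r j) →
        (⋃ j ∈ s, {z | z ∈ O ∧ cls z = j}).ncard ≤ ∑ j ∈ s, n j := by
      intro s
      induction s using Finset.induction_on with
      | empty => intro _; simp
      | insert a s ha ihs =>
        intro hs
        rw [Finset.set_biUnion_insert, Finset.sum_insert ha]
        refine (Set.ncard_union_le _ _).trans ?_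
        exact add_le_add (hfin a (hs a (Finset.mem_insert_self _ _))).2
          (ihs fun j hj => hs j (Finset.mem_insert_of_mem hj))
    refine (h4 _ fun j hj => (Finset.mem_filter.1 hj).2).trans ?_
    exact Finset.sum_le_sum_of_subset (Finset.filter_subset _ _)
  have hXmem : ∀ z ∈ O, z ∉ O1 → z ∈ X := by
    intro z hz hz1
    rw [hX]
    refine Set.mem_iUnion₂.2 ⟨cls z, ?_, hz, rfl⟩
    refine Finset.mem_filter.2 ⟨Finset.mem_univ _, ?_⟩
    by_contra hlt
    exact hz1 ⟨hz, not_lt.1 hlt⟩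
  obtain ⟨g, hg⟩ := enum X hXfin _ hXcard
  obtain ⟨τ, φ, hτ, hφ⟩ := hG1
  refine good_of A O _ (Fin M1 ⊕ (Fin (∑ j, n j) × Bool)) τ
    (Sum.elim φ fun i z => if g i.1 = some z then (if i.2 then 0 else h)
      else (if i.2 then h else 0)) hτ ?_ (by simp; omega)
  intro q hq p hp hne a ha b hb hab
  have hτb : τ a b < h := lt_of_le_of_lt (hτ a b hab).2 (hh p hp b hb)
  by_cases hq1 : q ∈ O1
  · by_cases hp1 : p ∈ O1
    · obtain ⟨i, hi⟩ := hφ q hq1 p hp1 hne a ha b hb hab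
      exact ⟨Sum.inl i, hi⟩
    · obtain ⟨i, hi⟩ := hg p (hXmem p hp hp1)
      refine ⟨Sum.inr (i, false), ?_⟩
      have hne' : ¬ (some p = some q) := fun h => hne (Option.some.inj h).symm
      simp only [Sum.elim_inr, hi, hne', if_false, if_true]
      simp
      omega
  · obtain ⟨i, hi⟩ := hg q (hXmem q hq hq1)
    refine ⟨Sum.inr (i, true), ?_⟩
    have hne' : ¬ (some q = some p) := fun h => hne (Option.some.inj h)
    simp only [Sum.elim_inr, hi, hne', if_false, if_true]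
    simp
    omega

end Pool.Agent.MP763071.KK
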