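import Pool.Agent.Lib.MP_763071_co.KK.Spec

/-!
# MP_763071_co, KK: trivial classes
-/

set_option autoImplicit false

namespace Pool.Agent.MP763071.KK

namespace TrivAux

/-- A model of size `1` always exists: one segment, no pairs. -/
theorem model_one {ι : Type} (A : ι → Set ℕ) (F : Set ι) (r : ℕ) : Model A F r 1 := by
  refine ⟨1, 0, rfl, Nat.zero_le r, fun _ => Set.univ, ?_, ?_, fun _ => 0, ?_⟩
  · intro i _
    exact Set.ordConnected_univ
  · intro i j hij hj
    omega
  · intro i j hij hj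
    omega

/-- Models for a smaller family and with fewer apexes are models. -/
theorem model_mono {ι : Type} {A : ι → Set ℕ} {F F' : Set ι} {r r' N : ℕ} (hF : F ⊆ F')
    (hr : r ≤ r') (h : Model A F r N) : Model A F' r' N := by
  obtain ⟨m, p, h1, h2, S, h3, h4, own, h5⟩ := h
  refine ⟨m, p, h1, h2.trans hr, S, h3, h4, own, ?_⟩
  intro i j hij hj
  obtain ⟨z, hz, h6⟩ := h5 i j hij hj
  exact ⟨z, hF hz, h6⟩

theorem exists_inj {ι : Type} (F : Set ι) (n : ℕ) (h : ¬ (F.Finite ∧ F.ncard ≤ n)) :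
    ∃ f : Fin (n + 1) → ι, Function.Injective f ∧ ∀ i, f i ∈ F := by
  obtain ⟨t, ht, hc⟩ : ∃ t : Finset ι, (t : Set ι) ⊆ F ∧ t.card = n + 1 := by
    by_cases hF : F.Finite
    · have h1 : n + 1 ≤ hF.toFinset.card := by
        rw [← Set.ncard_eq_toFinset_card F hF]
        by_contra hcon
        exact h ⟨hF, by omega⟩
      obtain ⟨t, ht, hc⟩ := Finset.exists_subset_card_eq h1
      refine ⟨t, ?_, hc⟩
      intro x hx
      exact hF.mem_toFinset.1 (ht hx)
    · exact Set.Infinite.exists_subset_card_eq hF (n + 1)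
  refine ⟨fun i => ((t.equivFinOfCardEq hc).symm i : ι), ?_, ?_⟩
  · intro i j hij
    exact (t.equivFinOfCardEq hc).symm.injective (Subtype.ext hij)
  · intro i
    exact ht ((t.equivFinOfCardEq hc).symm i).2

end TrivAux

open TrivAux in
theorem triv : TrivStmt := by
  classical
  intro ι A F r n hnr hM
  by_contra hcon
  obtain ⟨f, hf, hfF⟩ := exists_inj F n hcon
  apply hM
  refine ⟨0, n + 1, Nat.zero_add _, hnr, fun _ => ∅, ?_, ?_,
    fun z => if h : ∃ i, f i = z then (h.choose : ℕ) else 0, ?_⟩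
  · intro i hi
    omega
  · intro i j _ hj
    omega
  · intro i j hij hj
    have hi : i < n + 1 := hij.trans hj
    refine ⟨f ⟨i, hi⟩, hfF _, Or.inl ?_, fun h => absurd h (Nat.not_lt_zero _),
      fun h => absurd h (Nat.not_lt_zero _)⟩
    have h : ∃ k, f k = f ⟨i, hi⟩ := ⟨_, rfl⟩
    have h1 : h.choose = ⟨i, hi⟩ := hf h.choose_spec
    simp only [dif_pos h]
    rw [h1]

end Pool.Agent.MP763071.KK
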