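import Pool.Agent.Lib.MP_763071_co.KK.Spec

/-!
# MP_763071_co : weak colouring numbers from the decomposition
-/

set_option autoImplicit false

namespace Pool.Agent.MP763071.KK

namespace WColAux

variable {V : Type} {G : SimpleGraph V}

lemma RG_mono {C C' : Set V} {ρ ρ' : ℕ} {v u : V} (hC : C ⊆ C') (hρ : ρ ≤ ρ')
    (h : RG G C ρ v u) : RG G C' ρ' v u := by
  obtain ⟨L, hL, w, h0, h1, h2, h3⟩ := h
  exact ⟨L, hL.trans hρ, w, h0, h1, h2, fun t ht => hC (h3 t ht)⟩

lemma RG_left {C : Set V} {ρ : ℕ} {v u : V} (h : RG G C ρ v u) : v ∈ C := by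
  obtain ⟨L, hL, w, h0, h1, h2, h3⟩ := h
  rw [← h0]
  exact h3 0 (Nat.zero_le _)

lemma RG_right {C : Set V} {ρ : ℕ} {v u : V} (h : RG G C ρ v u) : u ∈ C := by
  obtain ⟨L, hL, w, h0, h1, h2, h3⟩ := h
  rw [← h1]
  exact h3 L le_rfl

lemma RG_refl {C : Set V} (ρ : ℕ) {v : V} (h : v ∈ C) : RG G C ρ v v :=
  ⟨0, Nat.zero_le _, fun _ => v, rfl, rfl, fun _ h => absurd h (Nat.not_lt_zero _), fun _ _ => h⟩

lemma RG_trans {C : Set V} {ρ σ : ℕ} {v u x : V} (h : RG G C ρ v u) (h' : RG G C σ u x) :
    RG G C (ρ + σ) v x := by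
  obtain ⟨L, hL, w, h0, h1, h2, h3⟩ := h
  obtain ⟨M, hM, z, k0, k1, k2, k3⟩ := h'
  refine ⟨L + M, add_le_add hL hM, fun t => if t ≤ L then w t else z (t - L), ?_, ?_, ?_, ?_⟩
  · simp only [Nat.zero_le, if_true]
    exact h0
  · by_cases hM0 : M = 0
    · subst hM0
      simp only [add_zero, le_refl, if_true]
      rw [h1, ← k1, k0]
    · simp only [show ¬ (L + M ≤ L) by omega, if_false, Nat.add_sub_cancel_left]
      exact k1
  · intro t ht
    simp only
    by_cases c1 : t + 1 ≤ L
    · rw [if_pos (show t ≤ L by omega), if_pos c1]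
      exact h2 t (by omega)
    · by_cases c2 : t ≤ L
      · have htL : t = L := by omega
        rw [if_pos c2, if_neg c1, htL, h1, ← k0, show L + 1 - L = 0 + 1 by omega]
        exact k2 0 (by omega)
      · rw [if_neg c2, if_neg c1, show t + 1 - L = (t - L) + 1 by omega]
        exact k2 (t - L) (by omega)
  · intro t ht
    simp only
    by_cases c : t ≤ L
    · rw [if_pos c]
      exact h3 t c
    · rw [if_neg c]
      exact k3 (t - L) (by omega)

lemma RG_symm {C : Set V} {ρ : ℕ} {v u : V} (h : RG G C ρ v u) : RG G C ρ u v := by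
  obtain ⟨L, hL, w, h0, h1, h2, h3⟩ := h
  refine ⟨L, hL, fun t => w (L - t), ?_, ?_, ?_, ?_⟩
  · show w (L - 0) = u
    rw [Nat.sub_zero, h1]
  · show w (L - L) = v
    rw [Nat.sub_self, h0]
  · intro t ht
    show G.Adj (w (L - t)) (w (L - (t + 1)))
    have := h2 (L - (t + 1)) (by omega)
    rw [show L - (t + 1) + 1 = L - t by omega] at this
    exact this.symm
  · intro t ht
    exact h3 _ (Nat.sub_le _ _)

lemma RG_step {C : Set V} {v u : V} (hv : v ∈ C) (hu : u ∈ C) (h : G.Adj v u) :
    RG G C 1 v u := by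
  refine ⟨1, le_rfl, fun t => if t = 0 then v else u, by simp, by simp, ?_, ?_⟩
  · intro t ht
    have : t = 0 := by omega
    subst this
    simpa using h
  · intro t ht
    simp only
    split_ifs
    · exact hv
    · exact hu

/-- A piece of a walk. -/
lemma RG_piece {C : Set V} {w : ℕ → V} {s t : ℕ} (hst : s ≤ t)
    (h2 : ∀ x, s ≤ x → x < t → G.Adj (w x) (w (x + 1))) (h3 : ∀ x, s ≤ x → x ≤ t → w x ∈ C) :
    RG G C (t - s) (w s) (w t) := by
  refine ⟨t - s, le_rfl, fun x => w (s + x), rfl, ?_, ?_, ?_⟩
  · show w (s + (t - s)) = w t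
    rw [Nat.add_sub_cancel' hst]
  · intro x hx
    exact h2 (s + x) (by omega) (by omega)
  · intro x hx
    exact h3 (s + x) (by omega) (by omega)

/-- The bound. -/
def gb (n : ℕ) : ℕ → ℕ
  | 0 => 0
  | ρ + 1 => n * (1 + gb n ρ)

/-- The levels below `part v` which are weakly reached from the component of `v`. -/
def IL (G : SimpleGraph V) (part : V → ℕ) (ρ : ℕ) (v : V) : Set ℕ :=
  {i | i < part v ∧ ∃ v', (∃ σ, RG G {x | part v ≤ part x} σ v v') ∧
    ∃ u, part u = i ∧ RG G {x | i ≤ part x} ρ v' u}

lemma IL_finite (part : V → ℕ) (ρ : ℕ) (v : V) : (IL G part ρ v).Finite :=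
  (Set.finite_lt_nat (part v)).subset fun _ hi => hi.1

lemma IL_card (n : ℕ) (part : V → ℕ)
    (h2 : ∀ v : V, {i | i < part v ∧ ∃ w u, (∃ ρ, RG G {x | part v ≤ part x} ρ v w) ∧ G.Adj w u ∧
        part u = i}.ncard ≤ n) (ρ : ℕ) : ∀ v, (IL G part ρ v).ncard ≤ gb n ρ := by
  classical
  induction ρ with
  | zero =>
    intro v
    have : IL G part 0 v = ∅ := by
      rw [Set.eq_empty_iff_forall_notMem]
      rintro i ⟨hi, v', ⟨σ, hσ⟩, u, hu, L, hL, w, h0, h1, -, -⟩
      have hL0 : L = 0 := Nat.le_zero.mp hL
      rw [hL0] at h1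
      have hv' : v' ∈ {x | part v ≤ part x} := RG_right hσ
      rw [Set.mem_setOf_eq] at hv'
      rw [← h0, h1, hu] at hv'
      omega
    rw [this, Set.ncard_empty]
    exact Nat.zero_le _
  | succ ρ ih =>
    intro v
    set Ad : Set ℕ := {i | i < part v ∧ ∃ w u, (∃ ρ, RG G {x | part v ≤ part x} ρ v w) ∧
      G.Adj w u ∧ part u = i} with hAd
    have hAfin : Ad.Finite := (Set.finite_lt_nat (part v)).subset fun _ hi => hi.1
    have hch : ∀ a : ℕ, ∃ b : V, a ∈ Ad → ∃ w, (∃ σ, RG G {x | part v ≤ part x} σ v w) ∧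
        G.Adj w b ∧ part b = a := by
      intro a
      by_cases ha : a ∈ Ad
      · obtain ⟨-, w, u, h3, h4, h5⟩ := ha
        exact ⟨u, fun _ => ⟨w, h3, h4, h5⟩⟩
      · exact ⟨v, fun h => absurd h ha⟩
    choose b hb using hch
    have hsub : IL G part (ρ + 1) v ⊆
        ↑(hAfin.toFinset.biUnion fun a => insert a (IL_finite (G := G) part ρ (b a)).toFinset) := by
      rintro i ⟨hi, v', ⟨σ, hσ⟩, u, hu, L, hL, w, w0, w1, w2, w3⟩
      have hv' : v' ∈ {x | part v ≤ part x} := RG_right hσ
      rw [Set.mem_setOf_eq] at hv'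
      have hex : ∃ t, part (w t) < part v := ⟨L, by rw [w1, hu]; exact hi⟩
      obtain ⟨t, ht, hmin⟩ : ∃ t, part (w t) < part v ∧ ∀ s < t, part v ≤ part (w s) :=
        ⟨Nat.find hex, Nat.find_spec hex, fun s hs => not_lt.mp (Nat.find_min hex hs)⟩
      have htL : t ≤ L := by
        by_contra hcon
        have := hmin L (by omega)
        rw [w1, hu] at this
        omega
      have ht1 : 1 ≤ t := by
        by_contra hcon
        have ht0 : t = 0 := by omega
        rw [ht0, w0] at ht
        omega
      have hadj : G.Adj (w (t - 1)) (w t) := by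
        have := w2 (t - 1) (by omega)
        rwa [Nat.sub_add_cancel ht1] at this
      have hK : RG G {x | part v ≤ part x} (σ + (t - 1 - 0)) v (w (t - 1)) := by
        have hp : RG G {x | part v ≤ part x} (t - 1 - 0) (w 0) (w (t - 1)) :=
          RG_piece (Nat.zero_le _) (fun x _ hx => w2 x (by omega))
            (fun x _ hx => hmin x (by omega))
        rw [w0] at hp
        exact RG_trans hσ hp
      have haA : part (w t) ∈ Ad := ⟨ht, w (t - 1), w t, ⟨_, hK⟩, hadj, rfl⟩
      have hia : i ≤ part (w t) := w3 t htL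
      rw [Finset.coe_biUnion, Set.mem_iUnion₂]
      refine ⟨part (w t), by simpa using haA, ?_⟩
      rw [Finset.coe_insert, Set.mem_insert_iff]
      by_cases hie : i = part (w t)
      · exact Or.inl hie
      · right
        rw [Set.Finite.coe_toFinset]
        obtain ⟨w', ⟨σ', hσ'⟩, hadj', hpb⟩ := hb _ haA
        refine ⟨by omega, w t, ?_, u, hu, ?_⟩
        · rw [hpb]
          have hsub' : {x | part v ≤ part x} ⊆ {x | part (w t) ≤ part x} := by
            intro x hx
            have hx' : part v ≤ part x := hx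
            show part (w t) ≤ part x
            omega
          have e1 : RG G {x | part (w t) ≤ part x} 1 (b (part (w t))) w' :=
            RG_step (by show part (w t) ≤ part (b (part (w t))); rw [hpb])
              (hsub' (RG_right hσ')) hadj'.symm
          have e2 := RG_mono hsub' le_rfl (RG_symm hσ')
          have e3 := RG_mono hsub' le_rfl hK
          have e4 : RG G {x | part (w t) ≤ part x} 1 (w (t - 1)) (w t) :=
            RG_step (RG_right e3) (by show part (w t) ≤ part (w t); exact le_rfl) hadj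
          exact ⟨_, RG_trans e1 (RG_trans e2 (RG_trans e3 e4))⟩
        · have hp : RG G {x | i ≤ part x} (L - t) (w t) (w L) :=
            RG_piece htL (fun x _ hx => w2 x hx) (fun x _ hx => w3 x hx)
          rw [w1] at hp
          exact RG_mono (le_refl _) (by omega) hp
    calc (IL G part (ρ + 1) v).ncard
        ≤ (↑(hAfin.toFinset.biUnion fun a =>
            insert a (IL_finite (G := G) part ρ (b a)).toFinset) : Set ℕ).ncard :=
          Set.ncard_le_ncard hsub (Finset.finite_toSet _)
      _ = (hAfin.toFinset.biUnion fun a =>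
            insert a (IL_finite (G := G) part ρ (b a)).toFinset).card := Set.ncard_coe_finset _
      _ ≤ hAfin.toFinset.card * (1 + gb n ρ) := by
          refine Finset.card_biUnion_le_card_mul _ _ _ fun a _ => ?_
          refine (Finset.card_insert_le _ _).trans ?_
          have := ih (b a)
          rw [Set.ncard_eq_toFinset_card _ (IL_finite (G := G) part ρ (b a))] at this
          omega
      _ ≤ n * (1 + gb n ρ) := by
          refine Nat.mul_le_mul_right _ ?_
          rw [← Set.ncard_eq_toFinset_card _ hAfin]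
          exact h2 v
      _ = gb n (ρ + 1) := rfl

end WColAux

open WColAux in
theorem wcol (h : DecompStmt) : WColStmt := by
  classical
  intro n ρ
  refine ⟨(1 + gb n ρ) * (n * (2 * ρ + 1)), fun V _ G hG => ?_⟩
  obtain ⟨part, h1, h2⟩ := h n V G hG
  set N := Fintype.card V with hN
  let idx : V ≃ Fin N := Fintype.equivFin V
  have hpart : ∀ u w : V, part u * N + (idx u : ℕ) ≤ part w * N + (idx w : ℕ) →
      part u ≤ part w := by
    intro u w huw
    by_contra hcon
    have h3 : part w + 1 ≤ part u := by omega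
    have h4 := Nat.mul_le_mul_right N h3
    have h5 := (idx w).2
    rw [Nat.add_mul, Nat.one_mul] at h4
    omega
  refine ⟨fun u => part u * N + (idx u : ℕ), ?_, ?_⟩
  · intro u w huw
    have huw' : part u * N + (idx u : ℕ) = part w * N + (idx w : ℕ) := huw
    have h3 : part u = part w := le_antisymm (hpart u w huw'.le) (hpart w u huw'.ge)
    rw [h3] at huw'
    have h4 : (idx u : ℕ) = (idx w : ℕ) := by omega
    exact idx.injective (Fin.ext h4)
  · intro v
    have hfin : ∀ i, {u | part u = i ∧ RG G {w | i ≤ part w} ρ v u}.Finite := fun i =>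
      Set.toFinite _
    have hsub : {u | WR G (fun u => part u * N + (idx u : ℕ)) ρ v u} ⊆
        ↑((insert (part v) (IL_finite (G := G) part ρ v).toFinset).biUnion
          fun i => (hfin i).toFinset) := by
      intro u hu
      have hu' : RG G {w | part u ≤ part w} ρ v u :=
        RG_mono (fun w hw => hpart u w hw) le_rfl hu
      have hle : v ∈ {w | part u ≤ part w} := RG_left hu'
      rw [Set.mem_setOf_eq] at hle
      rw [Finset.coe_biUnion, Set.mem_iUnion₂]
      refine ⟨part u, ?_, ?_⟩
      · rw [Finset.coe_insert, Set.mem_insert_iff]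
        by_cases hc : part u = part v
        · exact Or.inl hc
        · right
          rw [Set.Finite.coe_toFinset]
          exact ⟨by omega, v, ⟨0, RG_refl 0 (le_refl (part v))⟩, u, rfl, hu'⟩
      · rw [Set.Finite.coe_toFinset]
        exact ⟨rfl, hu'⟩
    calc {u | WR G (fun u => part u * N + (idx u : ℕ)) ρ v u}.ncard
        ≤ (↑((insert (part v) (IL_finite (G := G) part ρ v).toFinset).biUnion
          fun i => (hfin i).toFinset) : Set V).ncard :=
          Set.ncard_le_ncard hsub (Finset.finite_toSet _)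
      _ = ((insert (part v) (IL_finite (G := G) part ρ v).toFinset).biUnion
          fun i => (hfin i).toFinset).card := Set.ncard_coe_finset _
      _ ≤ (insert (part v) (IL_finite (G := G) part ρ v).toFinset).card *
          (n * (2 * ρ + 1)) := by
          refine Finset.card_biUnion_le_card_mul _ _ _ fun i _ => ?_
          rw [← Set.ncard_eq_toFinset_card _ (hfin i)]
          exact h1 v i ρ
      _ ≤ (1 + gb n ρ) * (n * (2 * ρ + 1)) := by
          refine Nat.mul_le_mul_right _ ?_
          refine (Finset.card_insert_le _ _).trans ?_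
          have := IL_card n part h2 ρ v
          rw [Set.ncard_eq_toFinset_card _ (IL_finite (G := G) part ρ v)] at this
          omega

end Pool.Agent.MP763071.KK
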