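import Pool.Agent.Lib.MP_763071_co.KK.Spec

set_option autoImplicit false

/-!
# MP_763071_co : `WalkMinorStmt`

Instead of shortest walks we use closures.  For a pair `i < j` let `D i j` be the set of vertices
reachable from `K j` through vertices `v ∉ K i` with `j ∈ X v ⊆ {i, j}`, and `E i j` the set of vertices
reachable from `K i` through vertices `v ∉ D i j` with `i ∈ X v ⊆ {i, j}`.  The branch set `B k` is the
union of `K k`, all `D i k` (`i < k`) and all `E k j` (`k < j`).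
-/

namespace Pool.Agent.MP763071.KK.WalkMinorAux

variable {V : Type} {G : SimpleGraph V}

/-- vertices reachable from `A` through vertices of `S` -/
def Rch (G : SimpleGraph V) (A S : Set V) : Set V :=
  {v | ∃ a ∈ A, Relation.ReflTransGen (fun x y => G.Adj x y ∧ y ∈ S) a v}

theorem sub_Rch (A S : Set V) : A ⊆ Rch G A S := fun a ha => ⟨a, ha, Relation.ReflTransGen.refl⟩

theorem Rch_cases {A S : Set V} {v : V} (h : v ∈ Rch G A S) : v ∈ A ∨ v ∈ S := by
  obtain ⟨a, ha, h⟩ := h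
  rcases Relation.ReflTransGen.cases_tail h with h | ⟨b, _, hb⟩
  · left
    rw [h]
    exact ha
  · right
    exact hb.2

theorem Rch_step {A S : Set V} {u v : V} (h : u ∈ Rch G A S) (huv : G.Adj u v) (hv : v ∈ S) :
    v ∈ Rch G A S := by
  obtain ⟨a, ha, h⟩ := h
  exact ⟨a, ha, h.tail ⟨huv, hv⟩⟩

theorem Rch_conn {A S : Set V} (h : (G.induce A).Connected) :
    (G.induce (Rch G A S)).Connected := by
  obtain ⟨⟨u0, hu0⟩⟩ := h.nonempty
  rw [SimpleGraph.connected_iff_exists_forall_reachable]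
  refine ⟨⟨u0, sub_Rch A S hu0⟩, ?_⟩
  have key : ∀ a, a ∈ A → ∀ v, (hv : Relation.ReflTransGen (fun x y => G.Adj x y ∧ y ∈ S) a v) →
      ∀ hv' : v ∈ Rch G A S,
      (G.induce (Rch G A S)).Reachable ⟨u0, sub_Rch A S hu0⟩ ⟨v, hv'⟩ := by
    intro a ha v hv
    induction hv with
    | refl =>
      intro hv'
      have h1 := h.preconnected ⟨u0, hu0⟩ ⟨a, ha⟩
      exact h1.map (SimpleGraph.induceHomOfLE G (sub_Rch A S)).toHom
    | tail hab hbc ih =>
      intro hv'
      refine (ih ⟨a, ha, hab⟩).trans ?_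
      apply SimpleGraph.Adj.reachable
      exact hbc.1
  rintro ⟨v, a, ha, hv⟩
  exact key a ha v hv ⟨a, ha, hv⟩

theorem union_conn {A B : Set V} (h : (G.induce A).Connected) (hAB : A ⊆ B)
    (hB : ∀ v ∈ B, ∃ C, A ⊆ C ∧ C ⊆ B ∧ v ∈ C ∧ (G.induce C).Connected) :
    (G.induce B).Connected := by
  obtain ⟨⟨u0, hu0⟩⟩ := h.nonempty
  rw [SimpleGraph.connected_iff_exists_forall_reachable]
  refine ⟨⟨u0, hAB hu0⟩, ?_⟩
  rintro ⟨v, hv⟩
  obtain ⟨C, hAC, hCB, hvC, hC⟩ := hB v hv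
  have h1 := hC.preconnected ⟨u0, hAC hu0⟩ ⟨v, hvC⟩
  exact h1.map (SimpleGraph.induceHomOfLE G hCB).toHom

/-- the part of the pair `i < j` attached to `K j` -/
def DD {n : ℕ} (G : SimpleGraph V) (K : Fin n → Set V) (X : V → Set (Fin n)) (i j : Fin n) :
    Set V :=
  Rch G (K j) {v | j ∈ X v ∧ X v ⊆ {i, j} ∧ v ∉ K i}

/-- the part of the pair `i < j` attached to `K i` -/
def EE {n : ℕ} (G : SimpleGraph V) (K : Fin n → Set V) (X : V → Set (Fin n)) (i j : Fin n) :
    Set V :=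
  Rch G (K i) {v | i ∈ X v ∧ X v ⊆ {i, j} ∧ v ∉ DD G K X i j}

/-- the branch sets -/
def BB {n : ℕ} (G : SimpleGraph V) (K : Fin n → Set V) (X : V → Set (Fin n)) (k : Fin n) :
    Set V :=
  {v | v ∈ K k ∨ (∃ i, i < k ∧ v ∈ DD G K X i k) ∨ ∃ j, k < j ∧ v ∈ EE G K X k j}

section

variable {n : ℕ} {K : Fin n → Set V} {X : V → Set (Fin n)}

theorem BB_conn (hK : ∀ i, (G.induce (K i)).Connected) (k : Fin n) :
    (G.induce (BB G K X k)).Connected := by
  refine union_conn (hK k) (fun v hv => Or.inl hv) ?_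
  rintro v (hv | ⟨i, hi, hv⟩ | ⟨j, hj, hv⟩)
  · exact ⟨K k, subset_rfl, fun v hv => Or.inl hv, hv, hK k⟩
  · exact ⟨DD G K X i k, sub_Rch _ _, fun v hv => Or.inr (Or.inl ⟨i, hi, hv⟩), hv,
      Rch_conn (hK k)⟩
  · exact ⟨EE G K X k j, sub_Rch _ _, fun v hv => Or.inr (Or.inr ⟨j, hj, hv⟩), hv,
      Rch_conn (hK k)⟩

/-- a vertex of a branch set is in `K k` or in the proper part of one pair -/
theorem BB_cases {k : Fin n} {v : V} (hv : v ∈ BB G K X k) :
    v ∈ K k ∨ (∃ i, i < k ∧ v ∈ DD G K X i k ∧ k ∈ X v ∧ X v ⊆ {i, k} ∧ v ∉ K i) ∨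
      ∃ j, k < j ∧ k ∈ X v ∧ X v ⊆ {k, j} ∧ v ∉ DD G K X k j := by
  rcases hv with hv | ⟨i, hi, hv⟩ | ⟨j, hj, hv⟩
  · exact Or.inl hv
  · rcases Rch_cases hv with h | ⟨h1, h2, h3⟩
    · exact Or.inl h
    · exact Or.inr (Or.inl ⟨i, hi, hv, h1, h2, h3⟩)
  · rcases Rch_cases hv with h | ⟨h1, h2, h3⟩
    · exact Or.inl h
    · exact Or.inr (Or.inr ⟨j, hj, h1, h2, h3⟩)

theorem BB_X (hX : ∀ i, ∀ w ∈ K i, i ∈ X w) {k : Fin n} {v : V} (hv : v ∈ BB G K X k) :
    k ∈ X v := by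
  rcases BB_cases hv with h | ⟨i, _, _, h, _⟩ | ⟨j, _, h, _⟩
  · exact hX k v h
  · exact h
  · exact h

theorem BB_lt (hK : ∀ i j, i ≠ j → Disjoint (K i) (K j)) (hX : ∀ i, ∀ w ∈ K i, i ∈ X w)
    {k l : Fin n} (hkl : k < l) {v : V} (hk : v ∈ BB G K X k) (hl : v ∈ BB G K X l) : False := by
  have hXk := BB_X hX hk
  have hXl := BB_X hX hl
  have hne : k ≠ l := ne_of_lt hkl
  rcases BB_cases hk with h | ⟨i, hi, h0, h1, h2, h3⟩ | ⟨j, hj, h1, h2, h3⟩
  · rcases BB_cases hl with h' | ⟨i', hi', h0', h1', h2', h3'⟩ | ⟨j', hj', h1', h2', h3'⟩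
    · exact Set.disjoint_left.mp (hK k l hne) h h'
    · have : k ∈ ({i', l} : Set (Fin n)) := h2' hXk
      rcases this with e | e
      · rw [e] at h
        exact h3' h
      · exact hne e
    · have : k ∈ ({l, j'} : Set (Fin n)) := h2' hXk
      rcases this with e | e
      · exact hne e
      · have e' : k = j' := e
        rw [← e'] at hj'
        exact lt_asymm hkl hj'
  · have : l ∈ ({i, k} : Set (Fin n)) := h2 hXl
    rcases this with e | e
    · rw [← e] at hi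
      exact lt_asymm hkl hi
    · exact hne (Eq.symm e)
  · have : l ∈ ({k, j} : Set (Fin n)) := h2 hXl
    rcases this with e | e
    · exact hne e.symm
    · have e' : l = j := e
      subst e'
      rcases BB_cases hl with h' | ⟨i', hi', h0', h1', h2', h3'⟩ | ⟨j', hj', h1', h2', h3'⟩
      · exact h3 (sub_Rch _ _ h')
      · have : k ∈ ({i', l} : Set (Fin n)) := h2' hXk
        rcases this with e | e
        · rw [← e] at h0'
          exact h3 h0'
        · exact hne e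
      · have : k ∈ ({l, j'} : Set (Fin n)) := h2' hXk
        rcases this with e | e
        · exact hne e
        · have e' : k = j' := e
          rw [← e'] at hj'
          exact lt_asymm hkl hj'

theorem BB_adj (hK : ∀ i j, i ≠ j → Disjoint (K i) (K j))
    {i j : Fin n} (hij : i < j) {L T : ℕ} {w : ℕ → V} (h0 : w 0 ∈ K j) (hL : w L ∈ K i)
    (hadj : ∀ t < L, G.Adj (w t) (w (t + 1))) (hj : ∀ t ≤ L, t ≤ T → j ∈ X (w t))
    (hi : ∀ t ≤ L, T < t → i ∈ X (w t)) (hs : ∀ t ≤ L, X (w t) ⊆ {i, j}) :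
    ∃ x ∈ BB G K X j, ∃ y ∈ BB G K X i, G.Adj x y := by
  classical
  have hne : i ≠ j := ne_of_lt hij
  -- the last index in `DD`
  have hex : ∃ s, s ≤ L ∧ ∀ t, s ≤ t → t ≤ L → w t ∉ DD G K X i j := by
    refine ⟨L, le_rfl, ?_⟩
    intro t h1 h2 h3
    have e : t = L := le_antisymm h2 h1
    rw [e] at h3
    rcases Rch_cases h3 with h | ⟨_, _, h⟩
    · exact Set.disjoint_left.mp (hK i j hne) hL h
    · exact h hL
  let s := Nat.find hex
  have hs1 : s ≤ L ∧ ∀ t, s ≤ t → t ≤ L → w t ∉ DD G K X i j := Nat.find_spec hex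
  have hs0 : s ≠ 0 := by
    intro e
    exact hs1.2 0 (by omega) (Nat.zero_le _) (sub_Rch _ _ h0)
  obtain ⟨p, hp⟩ : ∃ p, s = p + 1 := ⟨s - 1, by omega⟩
  have hpD : w p ∈ DD G K X i j := by
    by_contra hcon
    have hlt : p < s := by omega
    refine Nat.find_min hex hlt ⟨by omega, ?_⟩
    intro t h1 h2
    rcases Nat.lt_or_ge p t with h | h
    · exact hs1.2 t (by omega) h2
    · have e : t = p := le_antisymm h h1
      rw [e]
      exact hcon
  have hpadj : G.Adj (w p) (w (p + 1)) := hadj p (by omega)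
  refine ⟨w p, Or.inr (Or.inl ⟨i, hij, hpD⟩), w (p + 1), ?_, hpadj⟩
  have hnot : ∀ t, p + 1 ≤ t → t ≤ L → w t ∉ DD G K X i j := by
    intro t h1 h2
    exact hs1.2 t (by omega) h2
  rcases Nat.lt_or_ge T (p + 1) with hT | hT
  · -- the rest of the walk is in `EE`
    have key : ∀ m t, t + m = L → p + 1 ≤ t → w t ∈ EE G K X i j := by
      intro m
      induction m with
      | zero =>
        intro t e _
        have e' : t = L := by omega
        rw [e']
        exact sub_Rch _ _ hL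
      | succ m ih =>
        intro t e h1
        have h2 : w (t + 1) ∈ EE G K X i j := ih (t + 1) (by omega) (by omega)
        refine Rch_step h2 (hadj t (by omega)).symm ?_
        exact ⟨hi t (by omega) (by omega), hs t (by omega), hnot t h1 (by omega)⟩
    exact Or.inr (Or.inr ⟨j, hij, key (L - (p + 1)) (p + 1) (by omega) le_rfl⟩)
  · by_cases hKi : w (p + 1) ∈ K i
    · exact Or.inl hKi
    · exfalso
      refine hnot (p + 1) le_rfl (by omega) (Rch_step hpD hpadj ?_)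
      exact ⟨hj (p + 1) (by omega) hT, hs (p + 1) (by omega), hKi⟩

end

end Pool.Agent.MP763071.KK.WalkMinorAux

namespace Pool.Agent.MP763071.KK

open WalkMinorAux

theorem walkMinor : WalkMinorStmt := by
  intro V G n K X hconn hK hX hw
  refine ⟨BB G K X, fun i => BB_conn hconn i, ?_, ?_⟩
  · intro i j hij
    rw [Set.disjoint_left]
    intro v h1 h2
    rcases lt_or_gt_of_ne hij with h | h
    · exact BB_lt hK hX h h1 h2
    · exact BB_lt hK hX h h2 h1
  · intro i j hij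
    rcases lt_or_gt_of_ne hij with h | h
    · obtain ⟨L, T, w, a1, a2, a3, a4, a5, a6⟩ := hw i j h
      obtain ⟨x, hx, y, hy, hxy⟩ := BB_adj hK h a1 a2 a3 a4 a5 a6
      exact ⟨y, hy, x, hx, hxy.symm⟩
    · obtain ⟨L, T, w, a1, a2, a3, a4, a5, a6⟩ := hw j i h
      obtain ⟨x, hx, y, hy, hxy⟩ := BB_adj hK h a1 a2 a3 a4 a5 a6
      exact ⟨x, hx, y, hy, hxy⟩

end Pool.Agent.MP763071.KK
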