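import Pool.Agent.Lib.MP_763071_co.KK.Geo
import Pool.Agent.Lib.MP_763071_co.KK.Decomp
import Pool.Agent.Lib.MP_763071_co.KK.WCol
import Pool.Agent.Lib.MP_763071_co.KK.Col
import Pool.Agent.Lib.MP_763071_co.KK.FreeSet
import Pool.Agent.Lib.MP_763071_co.KK.WalkMinor
import Pool.Agent.Lib.MP_763071_co.KK.Sig
import Pool.Agent.Lib.MP_763071_co.KK.LinExt
import Pool.Agent.Lib.MP_763071_co.KK.Backbone
import Pool.Agent.Lib.MP_763071_co.KK.Triv
import Pool.Agent.Lib.MP_763071_co.KK.Quot
import Pool.Agent.Lib.MP_763071_co.KK.Region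
import Pool.Agent.Lib.MP_763071_co.KK.TMain
import Pool.Agent.Lib.MP_763071_co.KK.HubPath
import Pool.Agent.Lib.MP_763071_co.KK.Hub
import Pool.Agent.Lib.MP_763071_co.KK.Potential
import Pool.Agent.Lib.MP_763071_co.KK.Main

set_option autoImplicit false

namespace Pool.Agent.MP763071.KK

/-- every finite poset without `k + k` whose cover graph has no `K_n` minor has bounded dimension -/
theorem final : Final :=
  main (tMain triv quot region) (wcol (decomp geo)) colThm sigThm linExt backbone
    (hub hubPath freeSet walkMinor) potential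

end Pool.Agent.MP763071.KK
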