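import Pool.Agent.Lib.MP_763071_co.KK.Spec

/-!
# Geodesics
-/

set_option autoImplicit false

namespace Pool.Agent.MP763071.KK

namespace GeoAux

open SimpleGraph

/-- A walk in the sense of `RG` gives a walk of the induced graph. -/
theorem rg_walk {V : Type} (G : SimpleGraph V) (C : Set V) (w : ℕ → V) :
    ∀ (L : ℕ), (∀ t < L, G.Adj (w t) (w (t + 1))) → (∀ t ≤ L, w t ∈ C) →
      ∃ (h0 : w 0 ∈ C) (hL : w L ∈ C) (p : (G.induce C).Walk ⟨w 0, h0⟩ ⟨w L, hL⟩),
        p.length = L := by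
  intro L
  induction L with
  | zero =>
    intro _ h
    exact ⟨h 0 le_rfl, h 0 le_rfl, Walk.nil, rfl⟩
  | succ L ih =>
    intro hadj hC
    obtain ⟨h0, hL, p, hp⟩ := ih (fun t ht => hadj t (by omega)) (fun t ht => hC t (by omega))
    have hL1 : w (L + 1) ∈ C := hC (L + 1) le_rfl
    have hadj' : (G.induce C).Adj ⟨w L, hL⟩ ⟨w (L + 1), hL1⟩ := hadj L (by omega)
    refine ⟨h0, hL1, p.concat hadj', ?_⟩
    rw [Walk.length_concat, hp]

theorem rg_dist {V : Type} {G : SimpleGraph V} {C : Set V} {ρ : ℕ} {v u : V}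
    (h : RG G C ρ v u) : ∃ (hv : v ∈ C) (hu : u ∈ C) (p : (G.induce C).Walk ⟨v, hv⟩ ⟨u, hu⟩),
      p.length ≤ ρ := by
  obtain ⟨L, hL, w, rfl, rfl, hadj, hC⟩ := h
  obtain ⟨h0, hL', p, hp⟩ := rg_walk G C w L hadj hC
  exact ⟨h0, hL', p, by omega⟩

/-- The positions of the vertices of a geodesic close to a given vertex. -/
theorem geo_pos {V : Type} {G : SimpleGraph V} {C : Set V} {a b : C}
    (p : (G.induce C).Walk a b) (hp : p.length = (G.induce C).dist a b) (v : V) (ρ s t : ℕ)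
    (hst : s ≤ t) (ht : t ≤ p.length) (h1 : RG G C ρ v (p.getVert s : C))
    (h2 : RG G C ρ v (p.getVert t : C)) : t ≤ s + 2 * ρ := by
  obtain ⟨hv, hu, q, hq⟩ := rg_dist h1
  obtain ⟨hv', hu', q', hq'⟩ := rg_dist h2
  have e1 := ((p.take s).append (q.reverse.append q')).append (p.drop t)
  have e2 : (G.induce C).dist a b
      ≤ (((p.take s).append (q.reverse.append q')).append (p.drop t)).length := dist_le _
  rw [Walk.length_append, Walk.length_append, Walk.length_append, Walk.length_reverse,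
    Walk.take_length, Walk.drop_length] at e2
  have e3 : min s p.length = s := by omega
  rw [e3] at e2
  omega

theorem geo_one {V : Type} [Fintype V] (G : SimpleGraph V) (C : Set V)
    (hC : (G.induce C).Connected) (v₀ v₁ : V) (h₀ : v₀ ∈ C) (h₁ : v₁ ∈ C) :
    ∃ S : Set V, v₀ ∈ S ∧ v₁ ∈ S ∧ S ⊆ C ∧ (G.induce S).Connected ∧
      ∀ (v : V) (ρ : ℕ), {u | u ∈ S ∧ RG G C ρ v u}.ncard ≤ 2 * ρ + 1 := by
  classical
  obtain ⟨p, hp⟩ := hC.exists_walk_length_eq_dist ⟨v₀, h₀⟩ ⟨v₁, h₁⟩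
  have hsupp : ∀ x : V, x ∈ (p.map (Embedding.induce C).toHom).support ↔
      ∃ y : C, y ∈ p.support ∧ (y : V) = x := by
    intro x
    rw [Walk.support_map, List.mem_map]
    rfl
  refine ⟨{x | x ∈ (p.map (Embedding.induce C).toHom).support}, ?_, ?_, ?_, ?_, ?_⟩
  · exact (hsupp v₀).2 ⟨⟨v₀, h₀⟩, p.start_mem_support, rfl⟩
  · exact (hsupp v₁).2 ⟨⟨v₁, h₁⟩, p.end_mem_support, rfl⟩
  · intro x hx
    obtain ⟨y, -, rfl⟩ := (hsupp x).1 hx
    exact y.2
  · exact Walk.connected_induce_support _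
  · intro v ρ
    set T : Finset ℕ := (Finset.range (p.length + 1)).filter
      (fun t => RG G C ρ v (p.getVert t : C)) with hT
    have hTmem : ∀ t, t ∈ T ↔ t ≤ p.length ∧ RG G C ρ v (p.getVert t : C) := by
      intro t
      rw [hT, Finset.mem_filter, Finset.mem_range, Nat.lt_succ_iff]
    have hTcard : T.card ≤ 2 * ρ + 1 := by
      rcases T.eq_empty_or_nonempty with h | h
      · rw [h]
        simp
      · have hmin := T.min'_mem h
        have hsub : T ⊆ Finset.Icc (T.min' h) (T.min' h + 2 * ρ) := by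
          intro t ht
          rw [Finset.mem_Icc]
          have h1 := T.min'_le t ht
          have h2 := (hTmem t).1 ht
          have h3 := (hTmem _).1 hmin
          exact ⟨h1, geo_pos p hp v ρ _ t h1 h2.1 h3.2 h2.2⟩
        have := Finset.card_le_card hsub
        rw [Nat.card_Icc] at this
        omega
    have hsub : {u | u ∈ {x | x ∈ (p.map (Embedding.induce C).toHom).support} ∧ RG G C ρ v u} ⊆
        ((T.image (fun t => ((p.getVert t : C) : V)) : Finset V) : Set V) := by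
      rintro u ⟨hu, hr⟩
      obtain ⟨y, hy, rfl⟩ := (hsupp u).1 hu
      obtain ⟨t, rfl, ht⟩ := Walk.mem_support_iff_exists_getVert.1 hy
      rw [Finset.coe_image]
      exact ⟨t, (hTmem t).2 ⟨ht, hr⟩, rfl⟩
    refine (Set.ncard_le_ncard hsub (Finset.finite_toSet _)).trans ?_
    rw [Set.ncard_coe_finset]
    exact Finset.card_image_le.trans hTcard

end GeoAux

open GeoAux in
theorem geo : GeoStmt := by
  classical
  intro V _ G C hC m W hW hWC hWm
  obtain ⟨v₀, hv₀⟩ := hW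
  have h₀ : v₀ ∈ C := hWC hv₀
  choose S hS using fun v₁ : C => geo_one G C hC v₀ v₁ h₀ v₁.2
  refine ⟨{x | ∃ v₁ : C, (v₁ : V) ∈ W ∧ x ∈ S v₁}, ?_, ?_, ?_, ?_⟩
  · intro x hx
    exact ⟨⟨x, hWC hx⟩, hx, (hS _).2.1⟩
  · rintro x ⟨v₁, -, hx⟩
    exact (hS v₁).2.2.1 hx
  · refine G.induce_connected_of_patches v₀ ⟨⟨v₀, h₀⟩, hv₀, (hS _).1⟩ ?_
    rintro x ⟨v₁, hv₁, hx⟩
    refine ⟨S v₁, ?_, (hS v₁).1, hx, ?_⟩
    · intro y hy
      exact ⟨v₁, hv₁, hy⟩
    · exact (hS v₁).2.2.2.1.preconnected _ _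
  · intro v ρ
    set Wf : Finset C := Finset.univ.filter (fun v₁ : C => (v₁ : V) ∈ W) with hWf
    have hWfc : Wf.card ≤ m := by
      refine le_trans ?_ hWm
      rw [← Set.ncard_coe_finset Wf]
      refine Set.ncard_le_ncard_of_injOn (fun v₁ : C => (v₁ : V)) ?_ ?_ (Set.toFinite _)
      · intro a ha
        rw [Finset.mem_coe, hWf, Finset.mem_filter] at ha
        exact ha.2
      · intro a _ b _ h
        exact Subtype.ext h
    have hsub : {u | u ∈ {x | ∃ v₁ : C, (v₁ : V) ∈ W ∧ x ∈ S v₁} ∧ RG G C ρ v u} ⊆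
        ((Wf.biUnion (fun v₁ => Finset.univ.filter (fun u => u ∈ S v₁ ∧ RG G C ρ v u)) :
          Finset V) : Set V) := by
      rintro u ⟨⟨v₁, hv₁, hu⟩, hr⟩
      rw [Finset.mem_coe, Finset.mem_biUnion]
      refine ⟨v₁, ?_, ?_⟩
      · rw [hWf, Finset.mem_filter]
        exact ⟨Finset.mem_univ _, hv₁⟩
      · rw [Finset.mem_filter]
        exact ⟨Finset.mem_univ _, hu, hr⟩
    refine (Set.ncard_le_ncard hsub (Finset.finite_toSet _)).trans ?_
    rw [Set.ncard_coe_finset]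
    refine (Finset.card_biUnion_le_card_mul Wf _ (2 * ρ + 1) ?_).trans
      (Nat.mul_le_mul_right _ hWfc)
    intro v₁ _
    have h1 := (hS v₁).2.2.2.2 v ρ
    rw [← Set.ncard_coe_finset]
    refine le_trans (le_of_eq ?_) h1
    congr 1
    ext u
    simp

end Pool.Agent.MP763071.KK
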