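import Pool.Agent.Lib.MP_763071_co.KK.Spec

/-!
# MP_763071_co : the region recursion (`RegionStmt`)
-/

set_option autoImplicit false

namespace Pool.Agent.MP763071.KK.RegionAux

open Set

/-! ### rounding -/

noncomputable def fl (Q : Set ℕ) (x : ℕ) : ℕ := sSup {m | m ∈ Q ∧ m ≤ x}

noncomputable def lo (Q : Set ℕ) (x : ℕ) : ℕ := sSup {m | m ∈ Q ∧ ∃ m' ∈ Q, m < m' ∧ m' ≤ x}

theorem fl_le (Q : Set ℕ) (x : ℕ) : fl Q x ≤ x := csSup_le' fun _ hm => hm.2

theorem le_fl {Q : Set ℕ} {x m : ℕ} (hm : m ∈ Q) (hx : m ≤ x) : m ≤ fl Q x :=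
  le_csSup ⟨x, fun _ h => h.2⟩ ⟨hm, hx⟩

theorem fl_mem {Q : Set ℕ} {x m : ℕ} (hm : m ∈ Q) (hx : m ≤ x) : fl Q x ∈ Q :=
  (Nat.sSup_mem (s := {m | m ∈ Q ∧ m ≤ x}) ⟨m, hm, hx⟩ ⟨x, fun _ h => h.2⟩).1

theorem fl_self {Q : Set ℕ} {g : ℕ} (hg : g ∈ Q) : fl Q g = g :=
  le_antisymm (fl_le Q g) (le_fl hg le_rfl)

theorem fl_mono {Q : Set ℕ} {x y : ℕ} (h : x ≤ y) : fl Q x ≤ fl Q y :=
  csSup_le' fun _ hm => le_fl hm.1 (hm.2.trans h)

theorem le_lo {Q : Set ℕ} {x m m' : ℕ} (hm : m ∈ Q) (hm' : m' ∈ Q) (h1 : m < m') (h2 : m' ≤ x) :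
    m ≤ lo Q x :=
  le_csSup ⟨x, fun _ h => by
    obtain ⟨-, u, -, h3, h4⟩ := h
    omega⟩ ⟨hm, m', hm', h1, h2⟩

theorem lo_mem {Q : Set ℕ} {x m m' : ℕ} (hm : m ∈ Q) (hm' : m' ∈ Q) (h1 : m < m') (h2 : m' ≤ x) :
    lo Q x ∈ Q :=
  (Nat.sSup_mem (s := {m | m ∈ Q ∧ ∃ m' ∈ Q, m < m' ∧ m' ≤ x}) ⟨m, hm, m', hm', h1, h2⟩
    ⟨x, fun _ h => by
      obtain ⟨-, u, -, h3, h4⟩ := h
      omega⟩).1

theorem lo_le {Q : Set ℕ} {x b : ℕ} (h : ∀ m ∈ Q, ∀ m' ∈ Q, m < m' → m' ≤ x → m ≤ b) :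
    lo Q x ≤ b :=
  csSup_le' fun _ hm => by
    obtain ⟨h1, u, h2, h3, h4⟩ := hm
    exact h _ h1 u h2 h3 h4

theorem lo_mono {Q : Set ℕ} {x y : ℕ} (h : x ≤ y) : lo Q x ≤ lo Q y :=
  lo_le fun _ h1 _ h2 h3 h4 => le_lo h1 h2 h3 (h4.trans h)

theorem cq_mem {Q : Set ℕ} {x m : ℕ} (hm : m ∈ Q) (hx : x ≤ m) : cq Q x ∈ Q ∧ x ≤ cq Q x :=
  Nat.sInf_mem (s := {m | m ∈ Q ∧ x ≤ m}) ⟨m, hm, hx⟩

theorem cq_le {Q : Set ℕ} {x m : ℕ} (hm : m ∈ Q) (hx : x ≤ m) : cq Q x ≤ m :=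
  Nat.sInf_le ⟨hm, hx⟩

theorem lt_of_lt_cq {Q : Set ℕ} {x m : ℕ} (hm : m ∈ Q) (hx : m < cq Q x) : m < x := by
  by_contra hc
  have := cq_le hm (not_lt.mp hc)
  omega

theorem cq_mono {Q : Set ℕ} {x y m : ℕ} (hxy : x ≤ y) (hm : m ∈ Q) (hy : y ≤ m) :
    cq Q x ≤ cq Q y :=
  cq_le (cq_mem hm hy).1 (hxy.trans (cq_mem hm hy).2)

/-! ### the selected mark -/

open Classical in
noncomputable def sel (Q : Set ℕ) (T : ℕ → ℕ → ℕ) (a b : ℕ) : ℕ :=
  if ∀ m ∈ Q, m < b then sSup Q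
  else if fl Q (T (cq Q a) (cq Q b)) ≤ b then fl Q (T (cq Q a) (cq Q b))
  else lo Q (T (cq Q a) (cq Q b))

theorem sel_spec {Q : Set ℕ} {T : ℕ → ℕ → ℕ} (hT : ∀ a b, a ≤ b → a ≤ T a b ∧ T a b ≤ b)
    {a b m : ℕ} (hm : m ∈ Q) (ham : a ≤ m) (hmb : m ≤ b) :
    sel Q T a b ∈ Q ∧ a ≤ sel Q T a b ∧ sel Q T a b ≤ b := by
  classical
  unfold sel
  split_ifs with h1 h2
  · have hbd : BddAbove Q := ⟨b, fun x hx => (h1 x hx).le⟩
    have h3 : sSup Q ∈ Q := Nat.sSup_mem ⟨m, hm⟩ hbd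
    exact ⟨h3, ham.trans (le_csSup hbd hm), (h1 _ h3).le⟩
  · push Not at h1
    obtain ⟨m1, hm1, hb1⟩ := h1
    have h4 := cq_mono (hmb.trans' ham) hm1 hb1
    have h5 := hT _ _ h4
    have h6 := cq_mem hm ham
    exact ⟨fl_mem h6.1 h5.1, h6.2.trans (le_fl h6.1 h5.1), h2⟩
  · push Not at h1
    obtain ⟨m1, hm1, hb1⟩ := h1
    have h4 := cq_mono (hmb.trans' ham) hm1 hb1
    have h5 := hT _ _ h4
    have h6 := cq_mem hm ham
    have h7 := fl_mem h6.1 h5.1
    have h8 := fl_le Q (T (cq Q a) (cq Q b))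
    refine ⟨lo_mem hm h7 (by omega) h8, ham.trans (le_lo hm h7 (by omega) h8), ?_⟩
    refine lo_le fun x hx y hy hxy hyT => ?_
    have : x < cq Q b := by omega
    exact (lt_of_lt_cq hx this).le

variable {ι κ : Type}

/-- the local functions -/
noncomputable def loc {Mf : κ × Bool → ℕ} (Q : κ × Bool → Set ℕ)
    (F : (e : κ × Bool) → Fin (Mf e) → ι → ℕ) :
    (κ × Bool) ⊕ (Σ e : κ × Bool, Fin (Mf e) × Bool) → ι → ℕ
  | Sum.inl e, _ => sSup (Q e)
  | Sum.inr ⟨e, i, false⟩, z => fl (Q e) (F e i z)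
  | Sum.inr ⟨e, i, true⟩, z => lo (Q e) (F e i z)

variable {A : ι → Set ℕ} {O : Set ι} {cls : ι → κ}

theorem sel_loc {Mf : κ × Bool → ℕ} {s t : ℕ}
    {T : κ × Bool → ℕ → ℕ → ℕ} {F : (e : κ × Bool) → Fin (Mf e) → ι → ℕ} {e : κ × Bool}
    {V : Set ι} {Q : κ × Bool → Set ℕ}
    (hG : ∀ q ∈ V, ∀ p ∈ V, q ≠ p → ∀ a ∈ qA A s t (Q e) q, ∀ b ∈ qA A s t (Q e) p, a ≤ b →
      ∃ i, F e i q ≤ T e a b ∧ T e a b ≤ F e i p)
    {q p : ι} (hq : q ∈ V) (hp : p ∈ V) (hqp : q ≠ p) {a b m : ℕ} (ha : a ∈ A q) (hb : b ∈ A p)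
    (hsa : s ≤ a) (hab : a ≤ b) (hbt : b < t) (hm : m ∈ Q e) (ham : a ≤ m) (hmb : m ≤ b) :
    ∃ l, loc Q F l q ≤ sel (Q e) (T e) a b ∧ sel (Q e) (T e) a b ≤ loc Q F l p := by
  classical
  unfold sel
  by_cases h1 : ∀ m ∈ Q e, m < b
  · simp only [if_pos h1]
    exact ⟨Sum.inl e, le_rfl, le_rfl⟩
  · simp only [if_neg h1]
    push Not at h1
    obtain ⟨m1, hm1, hb1⟩ := h1
    obtain ⟨i, hi1, hi2⟩ := hG q hq p hp hqp (cq (Q e) a) ⟨a, ha, hsa, by omega, ⟨m, hm, ham⟩, rfl⟩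
      (cq (Q e) b) ⟨b, hb, by omega, hbt, ⟨m1, hm1, hb1⟩, rfl⟩ (cq_mono hab hm1 hb1)
    split_ifs with h2
    · exact ⟨Sum.inr ⟨e, i, false⟩, fl_mono hi1, fl_mono hi2⟩
    · exact ⟨Sum.inr ⟨e, i, true⟩, lo_mono hi1, lo_mono hi2⟩

/-- residence -/
def Res {Mf : κ × Bool → ℕ} (Q : κ × Bool → Set ℕ) (F : (e : κ × Bool) → Fin (Mf e) → ι → ℕ)
    (f : (e : κ × Bool) → Option (Fin (Mf e))) (z : ι) (x : ℕ) : Prop :=
  ∀ e, (f e = none ∧ ∀ m ∈ Q e, m < x) ∨
    ∃ i, f e = some i ∧ (∃ m ∈ Q e, x ≤ m) ∧ fl (Q e) (F e i z) = cq (Q e) x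

theorem Res.unique {Mf : κ × Bool → ℕ} {Q : κ × Bool → Set ℕ}
    {F : (e : κ × Bool) → Fin (Mf e) → ι → ℕ} {f : (e : κ × Bool) → Option (Fin (Mf e))} {z : ι}
    {x y : ℕ} (hx : Res Q F f z x) (hy : Res Q F f z y) {e : κ × Bool} {m : ℕ}
    (hm : m ∈ Q e) (hxm : x ≤ m) (hmy : m ≤ y) : m = y := by
  rcases hx e with ⟨-, h2⟩ | ⟨i, h1, -, h3⟩
  · exact absurd (h2 m hm) (by omega)
  · rcases hy e with ⟨h4, -⟩ | ⟨i', h4, ⟨m', h5, h6⟩, h7⟩
    · simp [h1] at h4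
    · rw [h1] at h4
      obtain rfl : i = i' := by simpa using h4
      have h8 := cq_le hm hxm
      have h9 := (cq_mem h5 h6).2
      omega

/-- If no local function separates `q` and `p`, then both reside in the gap of `a, b`. -/
theorem exists_res {Mf : κ × Bool → ℕ} {s t : ℕ}
    {T : κ × Bool → ℕ → ℕ → ℕ} {F : (e : κ × Bool) → Fin (Mf e) → ι → ℕ}
    {V : Set ι} {Q : κ × Bool → Set ℕ}
    (hT : ∀ e, (Q e).Nonempty → ∀ a b, a ≤ b → a ≤ T e a b ∧ T e a b ≤ b)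
    (hG : ∀ e, (Q e).Nonempty → ∀ q ∈ V, ∀ p ∈ V, q ≠ p → ∀ a ∈ qA A s t (Q e) q,
      ∀ b ∈ qA A s t (Q e) p, a ≤ b → ∃ i, F e i q ≤ T e a b ∧ T e a b ≤ F e i p)
    {q p : ι} (hq : q ∈ V) (hp : p ∈ V) (hqp : q ≠ p) {a b c : ℕ} (ha : a ∈ A q) (hb : b ∈ A p)
    (hsa : s ≤ a) (hab : a ≤ b) (hbt : b < t) (hno : ∀ e, ∀ m ∈ Q e, a ≤ m → m ≤ b → False)
    (hac : a ≤ c) (hcb : c ≤ b) (hl : ¬ ∃ l, loc Q F l q ≤ c ∧ c ≤ loc Q F l p) :
    ∃ f, Res Q F f q a ∧ Res Q F f p b := by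
  classical
  have key : ∀ e, ∃ o : Option (Fin (Mf e)),
      ((o = none ∧ ∀ m ∈ Q e, m < a) ∨
        ∃ i, o = some i ∧ (∃ m ∈ Q e, a ≤ m) ∧ fl (Q e) (F e i q) = cq (Q e) a) ∧
      ((o = none ∧ ∀ m ∈ Q e, m < b) ∨
        ∃ i, o = some i ∧ (∃ m ∈ Q e, b ≤ m) ∧ fl (Q e) (F e i p) = cq (Q e) b) := by
    intro e
    by_cases h1 : ∀ m ∈ Q e, m < a
    · exact ⟨none, Or.inl ⟨rfl, h1⟩, Or.inl ⟨rfl, fun m hm => (h1 m hm).trans_le hab⟩⟩
    · push Not at h1
      obtain ⟨m, hm, ham⟩ := h1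
      have hbm : b < m := by
        by_contra hc
        exact hno e m hm ham (not_lt.mp hc)
      have hca := cq_mem hm ham
      have hcb' := cq_mem hm hbm.le
      have hge : cq (Q e) a = cq (Q e) b := by
        apply le_antisymm (cq_mono hab hm hbm.le)
        have h2 : b < cq (Q e) a := by
          by_contra hc
          exact hno e _ hca.1 hca.2 (not_lt.mp hc)
        exact cq_le hca.1 h2.le
      obtain ⟨i, hi1, hi2⟩ := hG e ⟨m, hm⟩ q hq p hp hqp (cq (Q e) a)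
        ⟨a, ha, hsa, by omega, ⟨m, hm, ham⟩, rfl⟩
        (cq (Q e) b) ⟨b, hb, by omega, hbt, ⟨m, hm, hbm.le⟩, rfl⟩ hge.le
      have hTg := hT e ⟨m, hm⟩ _ _ hge.le
      have hfq : F e i q ≤ cq (Q e) a := by omega
      have hfp : cq (Q e) a ≤ F e i p := by omega
      have hflp : cq (Q e) a ≤ fl (Q e) (F e i p) := le_fl hca.1 hfp
      have hflq : fl (Q e) (F e i q) ≤ cq (Q e) a := (fl_le _ _).trans hfq
      have hb2 : b ≤ cq (Q e) a := by rw [hge]; exact hcb'.2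
      refine ⟨some i, Or.inr ⟨i, rfl, ⟨m, hm, ham⟩, ?_⟩, Or.inr ⟨i, rfl, ⟨m, hm, hbm.le⟩, ?_⟩⟩
      · by_contra hne
        apply hl
        refine ⟨Sum.inr ⟨e, i, false⟩, ?_, ?_⟩
        · show fl (Q e) (F e i q) ≤ c
          refine le_trans ?_ hac
          refine csSup_le' fun x hx => ?_
          have hx2 := le_fl hx.1 hx.2
          exact (lt_of_lt_cq (x := a) hx.1 (by omega)).le
        · show c ≤ fl (Q e) (F e i p)
          omega
      · by_contra hne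
        apply hl
        refine ⟨Sum.inr ⟨e, i, true⟩, ?_, ?_⟩
        · show lo (Q e) (F e i q) ≤ c
          refine le_trans (lo_le fun x hx y hy hxy hyF => ?_) hac
          exact (lt_of_lt_cq (x := a) hx (by omega)).le
        · show c ≤ lo (Q e) (F e i p)
          have h3 : cq (Q e) a < fl (Q e) (F e i p) := by omega
          have h4 := fl_mem hca.1 hfp
          have h5 := le_lo hca.1 h4 h3 (fl_le _ _)
          omega
  choose f hf using key
  exact ⟨f, fun e => (hf e).1, fun e => (hf e).2⟩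

/-! ### gaps -/

noncomputable def glo (K : Set ℕ) (x : ℕ) : ℕ := sSup {m | m ∈ K ∧ m ≤ x} + 1

noncomputable def ghi (K : Set ℕ) (t x : ℕ) : ℕ := sInf {m | m = t ∨ (m ∈ K ∧ x ≤ m)}

theorem ghi_le (K : Set ℕ) (t x : ℕ) : ghi K t x ≤ t := Nat.sInf_le (Or.inl rfl)

theorem gap_spec {K : Set ℕ} {s t x : ℕ} (hs : s ∈ K) (hsx : s ≤ x) (hxt : x < t) (hx : x ∉ K) :
    s < glo K x ∧ glo K x ≤ x ∧ x < ghi K t x ∧ ghi K t x ≤ t ∧
      ∀ m ∈ K, glo K x ≤ m → m < ghi K t x → False := by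
  have hne : {m | m ∈ K ∧ m ≤ x}.Nonempty := ⟨s, hs, hsx⟩
  have hbd : BddAbove {m | m ∈ K ∧ m ≤ x} := ⟨x, fun _ h => h.2⟩
  have h1 := Nat.sSup_mem hne hbd
  have h2 : s ≤ sSup {m | m ∈ K ∧ m ≤ x} := le_csSup hbd ⟨hs, hsx⟩
  have h3 : sSup {m | m ∈ K ∧ m ≤ x} ≠ x := fun h => hx (h ▸ h1.1)
  have h3' : sSup {m | m ∈ K ∧ m ≤ x} ≤ x := h1.2
  have h4 : ghi K t x = t ∨ (ghi K t x ∈ K ∧ x ≤ ghi K t x) :=
    Nat.sInf_mem (s := {m | m = t ∨ (m ∈ K ∧ x ≤ m)}) ⟨t, Or.inl rfl⟩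
  refine ⟨by unfold glo; omega, by unfold glo; omega, ?_, ghi_le K t x, ?_⟩
  · rcases h4 with h4 | ⟨h4, h5⟩
    · omega
    · rcases h5.lt_or_eq with h6 | h6
      · exact h6
      · exact absurd (h6 ▸ h4) hx
  · intro m hm h5 h6
    rcases le_or_gt m x with h7 | h7
    · have : m ≤ sSup {m | m ∈ K ∧ m ≤ x} := le_csSup hbd ⟨hm, h7⟩
      unfold glo at h5
      omega
    · have : ghi K t x ≤ m := Nat.sInf_le (Or.inr ⟨hm, h7.le⟩)
      omega

theorem gap_eq {K : Set ℕ} {t x y : ℕ} (hxy : x ≤ y) (hno : ∀ m ∈ K, x ≤ m → m ≤ y → False) :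
    glo K x = glo K y ∧ ghi K t x = ghi K t y := by
  unfold glo ghi
  constructor
  · congr 2
    ext m
    constructor
    · rintro ⟨h1, h2⟩
      exact ⟨h1, h2.trans hxy⟩
    · rintro ⟨h1, h2⟩
      refine ⟨h1, ?_⟩
      by_contra hc
      exact hno m h1 (by omega) h2
  · congr 1
    ext m
    constructor
    · rintro (h1 | ⟨h1, h2⟩)
      · exact Or.inl h1
      · refine Or.inr ⟨h1, ?_⟩
        by_contra hc
        exact hno m h1 h2 (by omega)
    · rintro (h1 | ⟨h1, h2⟩)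
      · exact Or.inl h1
      · exact Or.inr ⟨h1, hxy.trans h2⟩

/-! ### marks -/

theorem mk_of_pi {s t : ℕ} {e : κ × Bool} {m : ℕ} (h : m ∈ PiM A O cls s t e) :
    m ∈ Mk A O cls s t := ⟨h.1, h.2.1, Or.inr ⟨e, h⟩⟩

theorem s_mem_mk {s t : ℕ} (h : s < t) : s ∈ Mk A O cls s t := ⟨le_rfl, h, Or.inl rfl⟩

theorem crs_mark {s t : ℕ} {z : ι} (hz : z ∈ Crs A O s t) {a : ℕ} (ha : a ∈ A z) (hs : s ≤ a)
    (ht : a < t) : ∃ e, a ∈ PiM A O cls s t e := by
  obtain ⟨h1, -, y, hy, h2⟩ := hz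
  rcases h2 with h2 | h2
  · exact ⟨(cls z, false), hs, ht, z, h1, rfl, ha, y, hy, Or.inl ⟨rfl, h2⟩⟩
  · exact ⟨(cls z, true), hs, ht, z, h1, rfl, ha, y, hy, Or.inr ⟨rfl, h2⟩⟩

theorem not_vis {s t : ℕ} {z : ι} (hz : z ∈ Ins A O s t) (hV : z ∉ Vis A O cls s t) {x m y : ℕ}
    (hx : x ∈ A z) (hy : y ∈ A z) (hm : m ∈ Mk A O cls s t) (h1 : x ≤ m) (h2 : m ≤ y) : False :=
  hV ⟨hz, m, hm, ⟨x, hx, h1⟩, y, hy, h2⟩

theorem gap_of_not_vis {s t : ℕ} {z : ι} (hz : z ∈ Ins A O s t) (hV : z ∉ Vis A O cls s t)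
    {x y : ℕ} (hx : x ∈ A z) (hy : y ∈ A z) :
    glo (Mk A O cls s t) x = glo (Mk A O cls s t) y ∧
      ghi (Mk A O cls s t) t x = ghi (Mk A O cls s t) t y := by
  rcases le_total x y with h | h
  · exact gap_eq h fun m hm h1 h2 => not_vis hz hV hx hy hm h1 h2
  · have := gap_eq (t := t) h fun m hm h1 h2 => not_vis hz hV hy hx hm h1 h2
    exact ⟨this.1.symm, this.2.symm⟩

theorem ins_gap {s t : ℕ} {z : ι} (hz : z ∈ Ins A O s t) (hV : z ∉ Vis A O cls s t)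
    {a : ℕ} (ha : a ∈ A z) :
    z ∈ Ins A O (glo (Mk A O cls s t) a) (ghi (Mk A O cls s t) t a) := by
  refine ⟨hz.1, fun x hx => ?_⟩
  have h1 := hz.2 x hx
  have h2 : x ∉ Mk A O cls s t := fun h => not_vis hz hV hx hx h le_rfl le_rfl
  have h3 := gap_spec (s_mem_mk (lt_of_le_of_lt h1.1 h1.2)) h1.1 h1.2 h2
  obtain ⟨h4, h5⟩ := gap_of_not_vis hz hV hx ha
  rw [← h4, ← h5]
  exact ⟨h3.2.1, h3.2.2.1⟩

theorem crs_gap {s t : ℕ} {z : ι} (hz : z ∈ Vis A O cls s t)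
    {a : ℕ} (ha : a ∈ A z) (hK : a ∉ Mk A O cls s t) :
    z ∈ Crs A O (glo (Mk A O cls s t) a) (ghi (Mk A O cls s t) t a) := by
  obtain ⟨hz1, m, hm, ⟨x, hx, hxm⟩, y, hy, hmy⟩ := hz
  have h1 := hz1.2 a ha
  obtain ⟨h2, h3, h4, h5, h6⟩ := gap_spec (s_mem_mk (lt_of_le_of_lt h1.1 h1.2)) h1.1 h1.2 hK
  refine ⟨hz1.1, ⟨a, ha, h3, h4⟩, ?_⟩
  rcases lt_or_ge m (glo (Mk A O cls s t) a) with h7 | h7
  · exact ⟨x, hx, Or.inl (by omega)⟩
  · rcases lt_or_ge m (ghi (Mk A O cls s t) t a) with h8 | h8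
    · exact (h6 m hm h7 h8).elim
    · exact ⟨y, hy, Or.inr (by omega)⟩

abbrev LL (Mf : κ × Bool → ℕ) := (κ × Bool) ⊕ (Σ e : κ × Bool, Fin (Mf e) × Bool)

abbrev LF (Mf : κ × Bool → ℕ) := LL Mf ⊕ (((e : κ × Bool) → Option (Fin (Mf e))) × LL Mf)

/-- the claim for the region `[s, t)` -/
structure Cl (Mf : κ × Bool → ℕ) (A : ι → Set ℕ) (O : Set ι) (cls : ι → κ)
    (F : ℕ → ℕ → (e : κ × Bool) → Fin (Mf e) → ι → ℕ) (s t : ℕ)
    (τ : ℕ → ℕ → ℕ) (Φ : LF Mf → ι → ℕ) (par : ι → Bool) : Prop where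
  c0 : ∀ a b, s ≤ a → a ≤ b → b < t → a ≤ τ a b ∧ τ a b ≤ b
  c1 : ∀ q ∈ Ins A O s t, ∀ p ∈ Ins A O s t, q ≠ p → ∀ a ∈ A q, ∀ b ∈ A p, a ≤ b →
    (∃ l, Φ l q ≤ τ a b ∧ τ a b ≤ Φ l p) ∨ (∀ x ∈ A q, x ≤ τ a b) ∨ (∀ y ∈ A p, τ a b ≤ y) ∨
      par q ≠ par p
  c2 : ∀ q ∈ Crs A O s t, ∀ p ∈ Crs A O s t, q ≠ p → ∀ a ∈ A q, ∀ b ∈ A p, s ≤ a → a ≤ b →
    b < t → ∃ l, loc (PiM A O cls s t) (F s t) l q ≤ τ a b ∧
      τ a b ≤ loc (PiM A O cls s t) (F s t) l p
  c3 : ∀ q ∈ Ins A O s t, ∀ p ∈ Crs A O s t, ∀ a ∈ A q, ∀ b ∈ A p, a ≤ b → b < t →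
    (∀ x ∈ A q, x ≤ τ a b) ∨ par q = false
  c4 : ∀ q ∈ Crs A O s t, ∀ p ∈ Ins A O s t, ∀ a ∈ A q, ∀ b ∈ A p, s ≤ a → a ≤ b →
    (∀ y ∈ A p, τ a b ≤ y) ∨ par p = false

open Classical in
theorem step {Mf : κ × Bool → ℕ} {T : ℕ → ℕ → κ × Bool → ℕ → ℕ → ℕ}
    {F : ℕ → ℕ → (e : κ × Bool) → Fin (Mf e) → ι → ℕ}
    (hT : ∀ s t e, (PiM A O cls s t e).Nonempty → ∀ a b, a ≤ b → a ≤ T s t e a b ∧ T s t e a b ≤ b)
    (hG : ∀ s t e, (PiM A O cls s t e).Nonempty →
      ∀ q ∈ Vis A O cls s t ∪ Crs A O s t, ∀ p ∈ Vis A O cls s t ∪ Crs A O s t, q ≠ p →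
      ∀ a ∈ qA A s t (PiM A O cls s t e) q, ∀ b ∈ qA A s t (PiM A O cls s t e) p, a ≤ b →
        ∃ i, F s t e i q ≤ T s t e a b ∧ T s t e a b ≤ F s t e i p) :
    ∀ (n s t : ℕ), t - s = n → ∃ τ Φ par, Cl Mf A O cls F s t τ Φ par := by
  intro n
  induction n using Nat.strong_induction_on with
  | _ n ih =>
  intro s t hst
  have ih' : ∀ s' t', ∃ (τ : ℕ → ℕ → ℕ) (Φ : LF Mf → ι → ℕ) (par : ι → Bool),
      s < s' → s' < t → t' ≤ t → Cl Mf A O cls F s' t' τ Φ par := by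
    intro s' t'
    by_cases h : s < s' ∧ s' < t ∧ t' ≤ t
    · obtain ⟨τ, Φ, par, h'⟩ := ih (t' - s') (by omega) s' t' rfl
      exact ⟨τ, Φ, par, fun _ _ _ => h'⟩
    · exact ⟨fun _ _ => 0, fun _ _ => 0, fun _ => false, fun h1 h2 h3 => absurd ⟨h1, h2, h3⟩ h⟩
  choose τ' Φ' par' hIH using ih'
  set K := Mk A O cls s t with hK
  set V := Vis A O cls s t with hV
  let τ : ℕ → ℕ → ℕ := fun a b =>
    if ∃ m ∈ K, a ≤ m ∧ m ≤ b then
      (if h : ∃ e, ∃ m ∈ PiM A O cls s t e, a ≤ m ∧ m ≤ b then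
        sel (PiM A O cls s t h.choose) (T s t h.choose) a b else a)
    else τ' (glo K a) (ghi K t a) a b
  let Φ : LF Mf → ι → ℕ := fun l z =>
    if z ∈ V then
      (match l with
        | Sum.inl l' => loc (PiM A O cls s t) (F s t) l' z
        | Sum.inr (f, l') =>
          if h : ∃ x, s ≤ x ∧ x < t ∧ x ∉ K ∧ Res (PiM A O cls s t) (F s t) f z x then
            loc (PiM A O cls (glo K h.choose) (ghi K t h.choose))
              (F (glo K h.choose) (ghi K t h.choose)) l' z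
          else 0)
    else Φ' (glo K (sInf (A z))) (ghi K t (sInf (A z))) l z
  let par : ι → Bool := fun z =>
    if z ∈ V then false else !(par' (glo K (sInf (A z))) (ghi K t (sInf (A z))) z)
  have hInf : ∀ {z : ι} {a : ℕ}, z ∈ Ins A O s t → z ∉ V → a ∈ A z →
      glo K (sInf (A z)) = glo K a ∧ ghi K t (sInf (A z)) = ghi K t a := by
    intro z a hz hzV ha
    exact gap_of_not_vis hz hzV (Nat.sInf_mem ⟨a, ha⟩) ha
  -- the main local case
  have hsel : ∀ {a b : ℕ}, (∃ e, ∃ m ∈ PiM A O cls s t e, a ≤ m ∧ m ≤ b) →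
      τ a b ∈ K ∧ a ≤ τ a b ∧ τ a b ≤ b ∧ ∃ e, τ a b = sel (PiM A O cls s t e) (T s t e) a b ∧
        ∃ m ∈ PiM A O cls s t e, a ≤ m ∧ m ≤ b := by
    intro a b h
    have h0 : ∃ m ∈ K, a ≤ m ∧ m ≤ b := by
      obtain ⟨e, m, hm, h1⟩ := h
      exact ⟨m, mk_of_pi hm, h1⟩
    have h1 : τ a b = sel (PiM A O cls s t h.choose) (T s t h.choose) a b := by
      simp only [τ, if_pos h0, dif_pos h]
    obtain ⟨m, hm, ham, hmb⟩ := h.choose_spec
    have h2 := sel_spec (hT s t h.choose ⟨m, hm⟩) hm ham hmb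
    rw [h1]
    exact ⟨mk_of_pi h2.1, h2.2.1, h2.2.2, h.choose, rfl, m, hm, ham, hmb⟩
  have hno : ∀ {a b : ℕ}, (¬ ∃ m ∈ K, a ≤ m ∧ m ≤ b) →
      τ a b = τ' (glo K a) (ghi K t a) a b := by
    intro a b h
    simp only [τ, if_neg h]
  have hs1 : ∀ {a b : ℕ}, (∃ m ∈ K, a ≤ m ∧ m ≤ b) →
      (¬ ∃ e, ∃ m ∈ PiM A O cls s t e, a ≤ m ∧ m ≤ b) → s ≤ a → τ a b = s ∧ a = s := by
    intro a b h h' hsa
    have h1 : τ a b = a := by simp only [τ, if_pos h, dif_neg h']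
    obtain ⟨m, ⟨hm1, hm2, hm3⟩, hm4, hm5⟩ := h
    rcases hm3 with hm3 | ⟨e, he⟩
    · omega
    · exact absurd ⟨e, m, he, hm4, hm5⟩ h'
  refine ⟨τ, Φ, par, ?_, ?_, ?_, ?_, ?_⟩
  · -- c0
    intro a b hsa hab hbt
    by_cases h : ∃ m ∈ K, a ≤ m ∧ m ≤ b
    · by_cases h' : ∃ e, ∃ m ∈ PiM A O cls s t e, a ≤ m ∧ m ≤ b
      · obtain ⟨-, h1, h2, -⟩ := hsel h'
        exact ⟨h1, h2⟩
      · obtain ⟨h1, h2⟩ := hs1 h h' hsa
        omega
    · rw [hno h]
      have haK : a ∉ K := fun h1 => h ⟨a, h1, le_rfl, hab⟩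
      have hbK : b ∉ K := fun h1 => h ⟨b, h1, hab, le_rfl⟩
      have hg := gap_spec (K := K) (t := t) (s_mem_mk (by omega)) hsa (by omega) haK
      have hg' := gap_spec (K := K) (t := t) (s_mem_mk (by omega)) (by omega) hbt hbK
      have he := gap_eq (t := t) hab fun m hm h1 h2 => h ⟨m, hm, h1, h2⟩
      have hC := hIH _ _ hg.1 (by omega : glo K a < t) hg.2.2.2.1
      exact hC.c0 a b hg.2.1 hab (by rw [he.2]; exact hg'.2.2.1)
  · -- c1
    intro q hq p hp hqp a ha b hb hab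
    have hqa := hq.2 a ha
    have hpb := hp.2 b hb
    by_cases h : ∃ m ∈ K, a ≤ m ∧ m ≤ b
    · by_cases h' : ∃ e, ∃ m ∈ PiM A O cls s t e, a ≤ m ∧ m ≤ b
      · obtain ⟨h0, h1, h2, e, he, m, hm, ham, hmb⟩ := hsel h'
        by_cases hqV : q ∈ V
        · by_cases hpV : p ∈ V
          · left
            obtain ⟨l, hl1, hl2⟩ := sel_loc (Q := PiM A O cls s t) (T := T s t) (F := F s t)
              (hG s t e ⟨m, hm⟩) (Or.inl hqV) (Or.inl hpV) hqp ha hb hqa.1 hab hpb.2 hm ham hmb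
            refine ⟨Sum.inl l, ?_, ?_⟩
            · simp only [Φ, if_pos hqV]
              rw [he]
              exact hl1
            · simp only [Φ, if_pos hpV]
              rw [he]
              exact hl2
          · right; right; left
            intro y hy
            by_contra hc
            exact not_vis hp hpV hy hb h0 (by omega) h2
        · right; left
          intro x hx
          by_contra hc
          exact not_vis hq hqV ha hx h0 h1 (by omega)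
      · obtain ⟨h1, h2⟩ := hs1 h h' hqa.1
        right; right; left
        intro y hy
        rw [h1]
        exact (hp.2 y hy).1
    · rw [hno h]
      have haK : a ∉ K := fun h1 => h ⟨a, h1, le_rfl, hab⟩
      have hbK : b ∉ K := fun h1 => h ⟨b, h1, hab, le_rfl⟩
      have hg := gap_spec (K := K) (t := t) (s_mem_mk (by omega)) hqa.1 hqa.2 haK
      have hg' := gap_spec (K := K) (t := t) (s_mem_mk (by omega)) hpb.1 hpb.2 hbK
      have he := gap_eq (t := t) hab fun m hm h1 h2 => h ⟨m, hm, h1, h2⟩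
      have hC := hIH _ _ hg.1 (by omega : glo K a < t) hg.2.2.2.1
      by_cases hqV : q ∈ V
      · have hqC : q ∈ Crs A O (glo K a) (ghi K t a) := crs_gap hqV ha haK
        have hparq : par q = false := by simp only [par, if_pos hqV]
        by_cases hpV : p ∈ V
        · have hpC : p ∈ Crs A O (glo K a) (ghi K t a) := by
            rw [he.1, he.2]
            exact crs_gap hpV hb hbK
          have h0 := hC.c0 a b hg.2.1 hab (by rw [he.2]; exact hg'.2.2.1)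
          left
          by_cases hl : ∃ l, loc (PiM A O cls s t) (F s t) l q ≤ τ' (glo K a) (ghi K t a) a b ∧
              τ' (glo K a) (ghi K t a) a b ≤ loc (PiM A O cls s t) (F s t) l p
          · obtain ⟨l, hl1, hl2⟩ := hl
            refine ⟨Sum.inl l, ?_, ?_⟩
            · simp only [Φ, if_pos hqV]
              exact hl1
            · simp only [Φ, if_pos hpV]
              exact hl2
          · obtain ⟨f, hf1, hf2⟩ := exists_res (Q := PiM A O cls s t) (T := T s t) (F := F s t)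
              (V := Vis A O cls s t ∪ Crs A O s t)
              (hT s t) (hG s t) (Or.inl hqV) (Or.inl hpV) hqp ha hb hqa.1 hab hpb.2
              (fun e m hm h1 h2 => h ⟨m, mk_of_pi hm, h1, h2⟩) h0.1 h0.2 hl
            obtain ⟨l, hl1, hl2⟩ := hC.c2 q hqC p hpC hqp a ha b hb hg.2.1 hab
              (by rw [he.2]; exact hg'.2.2.1)
            -- residence gaps
            have huniq : ∀ (z : ι) (c : ℕ), s ≤ c → c < t → c ∉ K →
                Res (PiM A O cls s t) (F s t) f z c → z ∈ V →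
                Φ (Sum.inr (f, l)) z = loc (PiM A O cls (glo K c) (ghi K t c))
                  (F (glo K c) (ghi K t c)) l z := by
              intro z c hsc hct hcK hres hzV
              have hex : ∃ x, s ≤ x ∧ x < t ∧ x ∉ K ∧ Res (PiM A O cls s t) (F s t) f z x :=
                ⟨c, hsc, hct, hcK, hres⟩
              have h1 : Φ (Sum.inr (f, l)) z =
                  loc (PiM A O cls (glo K hex.choose) (ghi K t hex.choose))
                    (F (glo K hex.choose) (ghi K t hex.choose)) l z := by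
                simp only [Φ, if_pos hzV, dif_pos hex]
              obtain ⟨g1, g2, g3, g4⟩ := hex.choose_spec
              have hmark : ∀ {x y : ℕ}, s ≤ x → x ∉ K → y ∉ K →
                  Res (PiM A O cls s t) (F s t) f z x → Res (PiM A O cls s t) (F s t) f z y →
                  ∀ m ∈ K, x ≤ m → m ≤ y → False := by
                intro x y hsx hxK hyK hx hy m hm hxm hmy
                have hmK : m ∈ K := hm
                obtain ⟨hm1, hm2, hm3⟩ := hm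
                rcases hm3 with hm3 | ⟨e, hm3⟩
                · have : m = x := by omega
                  exact hxK (this ▸ hmK)
                · have := Res.unique hx hy hm3 hxm hmy
                  exact hyK (this ▸ hmK)
              have h2 : glo K hex.choose = glo K c ∧ ghi K t hex.choose = ghi K t c := by
                rcases le_total hex.choose c with h3 | h3
                · exact gap_eq h3 (hmark g1 g3 hcK g4 hres)
                · have := gap_eq (t := t) h3 (hmark hsc hcK g3 hres g4)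
                  exact ⟨this.1.symm, this.2.symm⟩
              rw [h1, h2.1, h2.2]
            refine ⟨Sum.inr (f, l), ?_, ?_⟩
            · rw [huniq q a hqa.1 hqa.2 haK hf1 hqV]
              exact hl1
            · rw [huniq p b hpb.1 hpb.2 hbK hf2 hpV, ← he.1, ← he.2]
              exact hl2
        · have hpI : p ∈ Ins A O (glo K a) (ghi K t a) := by
            rw [he.1, he.2]
            exact ins_gap hp hpV hb
          have hi := hInf hp hpV hb
          have hparp : par p = !(par' (glo K a) (ghi K t a) p) := by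
            simp only [par, if_neg hpV, hi.1, hi.2, he.1, he.2]
          rcases hC.c4 q hqC p hpI a ha b hb hg.2.1 hab with h1 | h1
          · right; right; left
            exact h1
          · right; right; right
            rw [hparq, hparp, h1]
            simp
      · have hqI : q ∈ Ins A O (glo K a) (ghi K t a) := ins_gap hq hqV ha
        have hiq := hInf hq hqV ha
        have hparq : par q = !(par' (glo K a) (ghi K t a) q) := by
          simp only [par, if_neg hqV, hiq.1, hiq.2]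
        have hΦq : ∀ l, Φ l q = Φ' (glo K a) (ghi K t a) l q := by
          intro l
          simp only [Φ, if_neg hqV, hiq.1, hiq.2]
        by_cases hpV : p ∈ V
        · have hpC : p ∈ Crs A O (glo K a) (ghi K t a) := by
            rw [he.1, he.2]
            exact crs_gap hpV hb hbK
          have hparp : par p = false := by simp only [par, if_pos hpV]
          rcases hC.c3 q hqI p hpC a ha b hb hab (by rw [he.2]; exact hg'.2.2.1) with h1 | h1
          · right; left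
            exact h1
          · right; right; right
            rw [hparq, hparp, h1]
            simp
        · have hpI : p ∈ Ins A O (glo K a) (ghi K t a) := by
            rw [he.1, he.2]
            exact ins_gap hp hpV hb
          have hi := hInf hp hpV hb
          have hparp : par p = !(par' (glo K a) (ghi K t a) p) := by
            simp only [par, if_neg hpV, hi.1, hi.2, he.1, he.2]
          have hΦp : ∀ l, Φ l p = Φ' (glo K a) (ghi K t a) l p := by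
            intro l
            simp only [Φ, if_neg hpV, hi.1, hi.2, he.1, he.2]
          rcases hC.c1 q hqI p hpI hqp a ha b hb hab with ⟨l, h1⟩ | h1 | h1 | h1
          · left
            exact ⟨l, by rw [hΦq]; exact h1.1, by rw [hΦp]; exact h1.2⟩
          · right; left
            exact h1
          · right; right; left
            exact h1
          · right; right; right
            rw [hparq, hparp]
            simpa using h1
  · -- c2
    intro q hq p hp hqp a ha b hb hsa hab hbt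
    obtain ⟨e0, he0⟩ := crs_mark (cls := cls) hq ha hsa (by omega)
    obtain ⟨h0, h1, h2, e, he, m, hm, ham, hmb⟩ := hsel ⟨e0, a, he0, le_rfl, hab⟩
    obtain ⟨l, hl1, hl2⟩ := sel_loc (Q := PiM A O cls s t) (T := T s t) (F := F s t)
      (hG s t e ⟨m, hm⟩) (Or.inr hq) (Or.inr hp) hqp ha hb hsa hab hbt hm ham hmb
    rw [he]
    exact ⟨l, hl1, hl2⟩
  · -- c3
    intro q hq p hp a ha b hb hab hbt
    have hqa := hq.2 a ha
    obtain ⟨e0, he0⟩ := crs_mark (cls := cls) hp hb (by omega) hbt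
    obtain ⟨h0, h1, h2, -⟩ := hsel ⟨e0, b, he0, hab, le_rfl⟩
    by_cases hqV : q ∈ V
    · right
      simp only [par, if_pos hqV]
    · left
      intro x hx
      by_contra hc
      exact not_vis hq hqV ha hx h0 h1 (by omega)
  · -- c4
    intro q hq p hp a ha b hb hsa hab
    have hpb := hp.2 b hb
    obtain ⟨e0, he0⟩ := crs_mark (cls := cls) hq ha hsa (by omega)
    obtain ⟨h0, h1, h2, -⟩ := hsel ⟨e0, a, he0, le_rfl, hab⟩
    by_cases hpV : p ∈ V
    · right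
      simp only [par, if_pos hpV]
    · left
      intro y hy
      by_contra hc
      exact not_vis hp hpV hy hb h0 (by omega) h2

end Pool.Agent.MP763071.KK.RegionAux

namespace Pool.Agent.MP763071.KK

open RegionAux

theorem region : RegionStmt := by
  classical
  intro κ _ Mf
  have hfin : Finite (LF Mf ⊕ Fin 4) := inferInstance
  obtain ⟨M, ⟨eqv⟩⟩ := Finite.exists_equiv_fin (LF Mf ⊕ Fin 4)
  refine ⟨M, ?_⟩
  intro ι A O cls h hA hloc
  have h1 : ∀ (s t : ℕ) (e : κ × Bool), ∃ (τ : ℕ → ℕ → ℕ) (φ : Fin (Mf e) → ι → ℕ),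
      (PiM A O cls s t e).Nonempty → (∀ a b, a ≤ b → a ≤ τ a b ∧ τ a b ≤ b) ∧
      ∀ q ∈ Vis A O cls s t ∪ Crs A O s t, ∀ p ∈ Vis A O cls s t ∪ Crs A O s t, q ≠ p →
      ∀ a ∈ qA A s t (PiM A O cls s t e) q, ∀ b ∈ qA A s t (PiM A O cls s t e) p, a ≤ b →
        ∃ i, φ i q ≤ τ a b ∧ τ a b ≤ φ i p := by
    intro s t e
    by_cases hne : (PiM A O cls s t e).Nonempty
    · obtain ⟨τ, φ, h2, h3⟩ := hloc s t e hne
      exact ⟨τ, φ, fun _ => ⟨h2, h3⟩⟩
    · exact ⟨fun _ _ => 0, fun _ _ => 0, fun h' => absurd h' hne⟩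
  choose T F hTF using h1
  obtain ⟨τ, Φ, par, hC⟩ := step (A := A) (O := O) (cls := cls) (T := T) (F := F)
    (fun s t e hne => (hTF s t e hne).1) (fun s t e hne => (hTF s t e hne).2) (h - 0) 0 h rfl
  have hIns : ∀ z ∈ O, z ∈ Ins A O 0 h := fun z hz => ⟨hz, fun x hx => ⟨Nat.zero_le _, hA z hz x hx⟩⟩
  let G : LF Mf ⊕ Fin 4 → ι → ℕ := fun i z =>
    match i with
    | Sum.inl l => Φ l z
    | Sum.inr j => if j = 0 then sSup (A z) else if j = 1 then sInf (A z)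
        else if j = 2 then (if par z then sInf (A z) else sSup (A z))
        else (if par z then sSup (A z) else sInf (A z))
  have hsup : ∀ z ∈ O, ∀ a ∈ A z, a ≤ sSup (A z) := fun z hz a ha =>
    le_csSup ⟨h, fun x hx => (hA z hz x hx).le⟩ ha
  have hinf : ∀ z, ∀ a ∈ A z, sInf (A z) ≤ a := fun z a ha => Nat.sInf_le ha
  refine ⟨fun a b => if b < h then τ a b else a, fun i => G (eqv.symm i), ?_, ?_⟩
  · intro a b hab
    show a ≤ (if b < h then τ a b else a) ∧ (if b < h then τ a b else a) ≤ b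
    split_ifs with hb
    · exact hC.c0 a b (Nat.zero_le _) hab hb
    · exact ⟨le_rfl, hab⟩
  · intro q hq p hp hqp a ha b hb hab
    have hbh := hA p hp b hb
    show ∃ i, G (eqv.symm i) q ≤ (if b < h then τ a b else a) ∧
      (if b < h then τ a b else a) ≤ G (eqv.symm i) p
    rw [if_pos hbh]
    suffices hsuf : ∃ i, G i q ≤ τ a b ∧ τ a b ≤ G i p by
      obtain ⟨i, hi⟩ := hsuf
      exact ⟨eqv i, by simpa using hi⟩
    have h0 := hC.c0 a b (Nat.zero_le _) hab hbh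
    have hlq := hinf q a ha
    have hrp := hsup p hp b hb
    rcases hC.c1 q (hIns q hq) p (hIns p hp) hqp a ha b hb hab with ⟨l, hl⟩ | h1 | h1 | h1
    · exact ⟨Sum.inl l, hl⟩
    · refine ⟨Sum.inr 0, ?_, ?_⟩
      · show sSup (A q) ≤ τ a b
        exact csSup_le' fun x hx => h1 x hx
      · show τ a b ≤ sSup (A p)
        omega
    · refine ⟨Sum.inr 1, ?_, ?_⟩
      · show sInf (A q) ≤ τ a b
        omega
      · show τ a b ≤ sInf (A p)
        exact h1 _ (Nat.sInf_mem ⟨b, hb⟩)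
    · cases hq2 : par q
      · have hp2 : par p = true := by
          cases hp3 : par p
          · exact absurd (hq2.trans hp3.symm) h1
          · rfl
        refine ⟨Sum.inr 3, ?_, ?_⟩
        · show (if (3 : Fin 4) = 0 then _ else if (3 : Fin 4) = 1 then _ else
            if (3 : Fin 4) = 2 then _ else if par q = true then sSup (A q) else sInf (A q)) ≤ _
          simp [hq2]
          omega
        · show _ ≤ (if (3 : Fin 4) = 0 then _ else if (3 : Fin 4) = 1 then _ else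
            if (3 : Fin 4) = 2 then _ else if par p = true then sSup (A p) else sInf (A p))
          simp [hp2]
          omega
      · have hp2 : par p = false := by
          cases hp3 : par p
          · rfl
          · exact absurd (hq2.trans hp3.symm) h1
        refine ⟨Sum.inr 2, ?_, ?_⟩
        · show (if (2 : Fin 4) = 0 then _ else if (2 : Fin 4) = 1 then _ else
            if (2 : Fin 4) = 2 then (if par q = true then sInf (A q) else sSup (A q)) else _) ≤ _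
          simp [hq2]
          omega
        · show _ ≤ (if (2 : Fin 4) = 0 then _ else if (2 : Fin 4) = 1 then _ else
            if (2 : Fin 4) = 2 then (if par p = true then sInf (A p) else sSup (A p)) else _)
          simp [hp2]
          omega

end Pool.Agent.MP763071.KK
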