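import Mathlib

/-!
# MP_763071_co : Q1 for posets without `k + k`

THEOREM (final statement `Final` below). For all `n, k` there is `d0` such that every finite poset of
dimension at least `d0` contains `k + k` (two mutually incomparable chains of size `k`) or its cover
graph has a `K_n` minor.

Every statement is a `Prop`-valued definition of this file; every module `KK/<Name>.lean` proves one
of them (possibly from other ones, given as hypotheses).  The modules are independent.

Three parts: (T) a purely combinatorial lemma on families of subsets of a line (`TStmt`);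
(W) weak colouring numbers of graphs without `K_n` minor (`WColStmt`); (P) the poset part.
-/

set_option autoImplicit false

namespace Pool.Agent.MP763071.KK

/-! ## Graphs -/

/-- `G` has a `K_n` minor. -/
def HasMinor {V : Type} (G : SimpleGraph V) (n : ℕ) : Prop :=
  ∃ B : Fin n → Set V, (∀ i, (G.induce (B i)).Connected) ∧
    (∀ i j, i ≠ j → Disjoint (B i) (B j)) ∧
    ∀ i j, i ≠ j → ∃ x ∈ B i, ∃ y ∈ B j, G.Adj x y

/-- `RG G C ρ v u` : there is a walk of length at most `ρ` from `v` to `u` inside the set `C`. -/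
def RG {V : Type} (G : SimpleGraph V) (C : Set V) (ρ : ℕ) (v u : V) : Prop :=
  ∃ L ≤ ρ, ∃ w : ℕ → V, w 0 = v ∧ w L = u ∧ (∀ t < L, G.Adj (w t) (w (t + 1))) ∧ ∀ t ≤ L, w t ∈ C

/-- `WR G π ρ v u` : `u` is weakly `ρ`-reachable from `v`, that is, there is a walk of length at most
`ρ` from `v` to `u` all of whose vertices `w` have `π u ≤ π w`. -/
def WR {V : Type} (G : SimpleGraph V) (π : V → ℕ) (ρ : ℕ) (v u : V) : Prop :=
  RG G {w | π u ≤ π w} ρ v u

/-- GEODESICS.  Proof.  `W` nonempty, fix `v0 ∈ W`; for every `v1 ∈ W` let `p` be a shortest walk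
`p 0 = v0, …, p d = v1` in `C` (exists, `C` connected).  `H` = union of the vertex sets of these
(at most `m`) walks.  `H` is connected (all contain `v0`).  For one geodesic `p` and `v ∈ V`: if
`p s` and `p t` (`s ≤ t`) are both within `ρ` of `v` inside `C` then `t - s ≤ 2 ρ` (else one could
shorten `p`), hence at most `2 ρ + 1` of the vertices of `p` are within `ρ` of `v`. -/
def GeoStmt : Prop :=
  ∀ (V : Type) [Fintype V] (G : SimpleGraph V) (C : Set V), (G.induce C).Connected →
    ∀ (m : ℕ) (W : Set V), W.Nonempty → W ⊆ C → W.ncard ≤ m →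
      ∃ H : Set V, W ⊆ H ∧ H ⊆ C ∧ (G.induce H).Connected ∧
        ∀ (v : V) (ρ : ℕ), {u | u ∈ H ∧ RG G C ρ v u}.ncard ≤ m * (2 * ρ + 1)

/-- DECOMPOSITION (depth function `part`).
(1) every `v` reaches within `ρ` steps inside `{i ≤ part}` at most `n (2 ρ + 1)` vertices of
`{part = i}`;
(2) the connected component of `v` in `{part v ≤ part}` is adjacent to vertices of at most `n`
smaller values of `part`.

Proof (from `GeoStmt`).  If `n = 0` the hypothesis is absurd.  Show by strong induction on `C.ncard`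
the claim: for every `C : Set V` and every finite set `𝓑 : Finset (Set V)` (or `Set (Set V)`) such
that all `B ∈ 𝓑` are connected (`(G.induce B).Connected`) and disjoint from `C`, different members of
`𝓑` are disjoint, and (A) for every component `C'` of `G[C]` any two different members of `𝓑` which
are adjacent to `C'` are adjacent to each other, there is `part : V → ℕ` with
(1') `∀ v i ρ, {u | u ∈ C ∧ part u = i ∧ RG G {w | w ∈ C ∧ i ≤ part w} ρ v u}.ncard ≤ n (2 ρ + 1)`,
(2') for every `v ∈ C`, with `K v` = the set of all `w` with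
`∃ ρ, RG G {x | x ∈ C ∧ part v ≤ part x} ρ v w`:
`#{i | i < part v ∧ ∃ w ∈ K v, ∃ u ∈ C, G.Adj w u ∧ part u = i} +
 #{B ∈ 𝓑 | ∃ w ∈ K v, ∃ u ∈ B, G.Adj w u} ≤ n`.
Step: if `C` is empty take `part = 0`.  For every component `C'` of `G[C]` let `𝓑(C')` be the members
of `𝓑` adjacent to `C'`; these, together with `C'`, are pairwise adjacent, disjoint, connected, hence
`|𝓑(C')| + 1 < n` (no `K_n` minor; a family of `≥ n` such sets would contain a minor).  Choose in
`C'` for every `B ∈ 𝓑(C')` a vertex adjacent to `B` (and any one vertex of `C'` if there is none):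
at most `n` vertices, and `GeoStmt` gives a connected `H(C') ⊆ C'` containing them.
Let `H` = union of all `H(C')`, and apply the induction hypothesis to `C \ H` (smaller) and
`𝓑' = 𝓑 ∪ {H(C') | C' component of G[C]}`; (A) holds: a component `C''` of `G[C \ H]` lies in one
component `C'`, and of the new sets only `H(C')` can be adjacent to it; `H(C')` is adjacent to all
`B ∈ 𝓑(C')`.  Put `part u = 0` on `H` and `part u = part' u + 1` elsewhere.  (1') for `i = 0`: a walk
in `C` from `v` to `u ∈ H` stays in one component `C'`, `u ∈ H(C')`, use `GeoStmt`; for `i + 1`: (1')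
of `part'`.  (2') for `v ∈ C \ H`: `K v` is the same set for `part` and `part'`; the number of values
`i < part v` is the number of values `< part' v` plus one if `K v` is adjacent to `H`, and then the
second number is one smaller for `𝓑` than for `𝓑'`.  (2') for `v ∈ H`: `part v = 0` and
`K v = C'`, so the sum is `|𝓑(C')| ≤ n`.
Apply the claim to `C = univ`, `𝓑 = ∅`. -/
def DecompStmt : Prop :=
  ∀ (n : ℕ) (V : Type) [Fintype V] (G : SimpleGraph V), ¬ HasMinor G n →
    ∃ part : V → ℕ,
      (∀ (v : V) (i ρ : ℕ),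
        {u | part u = i ∧ RG G {w | i ≤ part w} ρ v u}.ncard ≤ n * (2 * ρ + 1)) ∧
      ∀ v : V, {i | i < part v ∧ ∃ w u, (∃ ρ, RG G {x | part v ≤ part x} ρ v w) ∧ G.Adj w u ∧
        part u = i}.ncard ≤ n

/-- WEAK COLOURING NUMBERS.  Proof (from `DecompStmt`).  Let `part` be as there and
`π u = part u * card V + idx u` (`idx : V ≃ Fin (card V)`), injective, and `π u ≤ π w` implies
`part u ≤ part w`.  For `v : V` and `j ≤ part v` write `K j v` for the set of `w` with
`∃ σ, RG G {x | j ≤ part x} σ v w`.  For `v` and `ρ` let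
`I ρ v = {i | i < part v ∧ ∃ v' ∈ K (part v) v, ∃ u, part u = i ∧ RG G {x | i ≤ part x} ρ v' u}`.
Claim `(I ρ v).ncard ≤ g ρ`, where `g 0 = 0`, `g (ρ + 1) = n * (1 + g ρ)`.  For `ρ = 0`: `u = v'` has
`part u ≥ part v > i`.  Step: let `w 0 = v', …, w L = u` be a walk as in `I (ρ + 1) v`, all
`part (w t) ≥ i`, `part (w L) = i < part v`; let `t` be the first index with `part (w t) < part v`;
`t ≥ 1`, `w (t - 1) ∈ K (part v) v`, `a = part (w t)` lies in the set `Adj v` of (2) of
`DecompStmt` (at most `n` elements), `i ≤ a`.  If `i = a` fine.  Otherwise `i < a` and `w t` reaches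
`u` in at most `ρ` steps.  For every `a ∈ Adj v` fix a vertex `b a` with `part (b a) = a` adjacent to
`K (part v) v`; `w t` and `b a` are both adjacent to the connected set `K (part v) v`, all of whose
elements have `part ≥ part v > a`, so `w t ∈ K a (b a)`, hence `i ∈ I ρ (b a)`.  So
`I (ρ + 1) v ⊆ ⋃_{a ∈ Adj v} ({a} ∪ I ρ (b a))`.
Finally `{u | WR G π ρ v u}` is contained in the union over `i ∈ I ρ v ∪ {part v}` of the sets
`{u | part u = i ∧ RG G {w | i ≤ part w} ρ v u}` (if `WR G π ρ v u` then `part u ≤ part v` as `v` is on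
the walk), so its cardinality is at most `(g ρ + 1) * (n * (2 * ρ + 1))`. -/
def WColStmt : Prop :=
  ∀ n ρ : ℕ, ∃ c : ℕ, ∀ (V : Type) [Fintype V] (G : SimpleGraph V), ¬ HasMinor G n →
    ∃ π : V → ℕ, Function.Injective π ∧ ∀ v, {u | WR G π ρ v u}.ncard ≤ c

/-- GREEDY COLOURING.  Proof: colour the vertices in the order of increasing `π`; when `v` is
coloured at most `c` vertices `u` with `R v u` and `π u < π v` are coloured already, and `c + 1`
colours are available. -/
def ColStmt : Prop :=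
  ∀ (V : Type) [Fintype V] (R : V → V → Prop) (π : V → ℕ) (c : ℕ), Function.Injective π →
    (∀ v u, R v u → π u ≤ π v) → (∀ v, {u | R v u}.ncard ≤ c) →
      ∃ col : V → Fin (c + 1), ∀ v u, R v u → u ≠ v → col u ≠ col v

/-- A FREE SET.  Proof: count the functions `g : Fin n → Fin N` (`N ^ n`).  For `a < b` there are
`N ^ (n - 1)` functions with `g a = g b`; for pairwise different `a, b, c` at most
`D * N ^ (n - 1)` functions with `g c ∈ X (g a) (g b)`; for every `a` at most `2 * N ^ (n - 1)`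
functions with `g a ∈ Z`.  The sum is at most `(n ^ 2 + n ^ 3 * D + 2 * n) * N ^ (n - 1) < N ^ n`
(`n = 0` is trivial). -/
def FreeSetStmt : Prop :=
  ∀ (n D N : ℕ) (X : ℕ → ℕ → Finset ℕ) (Z : Finset ℕ), n ^ 2 + n ^ 3 * D + 2 * n < N →
    (∀ a b, (X a b).card ≤ D) → Z.card ≤ 2 →
      ∃ g : Fin n → ℕ, Function.Injective g ∧ (∀ a, g a < N) ∧ (∀ a, g a ∉ Z) ∧
        ∀ a b c, a ≠ b → c ≠ a → c ≠ b → g c ∉ X (g a) (g b)

/-- MINORS FROM WALKS.  `X w` is the set of the parts which the vertex `w` may belong to.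

Proof.  For `i < j` choose a walk as in the hypothesis (from `K j` to `K i`: first `j ∈ X`, then
`i ∈ X`) with `L` minimal.  Minimality gives: the vertices `w 0, …, w L` are distinct (if
`w s = w t`, `s < t ≤ L`, cut out the part between; the new `T` is `T - (t - s)` if `t ≤ T`, is `s`
if `s ≤ T < t`, and `T` if `T < s`), `w t ∉ K j` for `0 < t`, `w t ∉ K i` for `t < L`
(start later or stop earlier).  Interior vertices (`0 < t < L`) lie in no `K k`: `k ∈ X (w t)`
would hold, so `k ∈ {i, j}`.  Put `B k` = `K k` together with all interior vertices `w t` of the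
walks of the pairs `(i, j)` such that `t ≤ T`, `k = j`, or `T < t`, `k = i`.  `B k` is connected
(`K k` is, and the added pieces are paths attached to it).  Disjointness: a vertex `w` of the `k`-part
of the walk of a pair containing `k` has `k ∈ X w` and `X w` is contained in the pair; if it is also in
the `k'`-part (`k' ≠ k`) of the walk of another pair then `k, k' ∈ X w`, so both pairs are
`{k, k'}`, the same walk, whose vertices are distinct.  Adjacency of `B i` and `B j`: the walk has
`L ≥ 1` (as `K i`, `K j` are disjoint); going along it there is a step from `B j` to `B i`. -/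
def WalkMinorStmt : Prop :=
  ∀ (V : Type) (G : SimpleGraph V) (n : ℕ) (K : Fin n → Set V) (X : V → Set (Fin n)),
    (∀ i, (G.induce (K i)).Connected) → (∀ i j, i ≠ j → Disjoint (K i) (K j)) →
    (∀ i, ∀ w ∈ K i, i ∈ X w) →
    (∀ i j : Fin n, i < j → ∃ (L T : ℕ) (w : ℕ → V), w 0 ∈ K j ∧ w L ∈ K i ∧
      (∀ t < L, G.Adj (w t) (w (t + 1))) ∧ (∀ t ≤ L, t ≤ T → j ∈ X (w t)) ∧
      (∀ t ≤ L, T < t → i ∈ X (w t)) ∧ ∀ t ≤ L, X (w t) ⊆ {i, j}) →
    HasMinor G n

/-! ## Posets -/

/-- the cover graph -/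
abbrev CG (P : Type) [PartialOrder P] : SimpleGraph P :=
  SimpleGraph.fromRel (fun x y : P => x ⋖ y)

/-- `w 0 = x, …, w L = y` is a saturated chain -/
def Sat {P : Type} [PartialOrder P] (L : ℕ) (w : ℕ → P) (x y : P) : Prop :=
  w 0 = x ∧ w L = y ∧ ∀ t < L, w t ⋖ w (t + 1)

/-- `z` is the `π`-minimum of a saturated chain of length at most `κ` from `x` up to `z` -/
def Up {P : Type} [PartialOrder P] (π : P → ℕ) (κ : ℕ) (x z : P) : Prop :=
  ∃ L ≤ κ, ∃ w : ℕ → P, Sat L w x z ∧ ∀ t ≤ L, π z ≤ π (w t)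

/-- `z` is the `π`-minimum of a saturated chain of length at most `κ` from `z` up to `y` -/
def Dn {P : Type} [PartialOrder P] (π : P → ℕ) (κ : ℕ) (y z : P) : Prop :=
  ∃ L ≤ κ, ∃ w : ℕ → P, Sat L w z y ∧ ∀ t ≤ L, π z ≤ π (w t)

/-- SIGNATURES (Joret, Micek, Wiechert).  Proof.  For a colour `a` put
`U a x = {u | col u = a ∧ Up π κ x u}`, `D a y = {d | col d = a ∧ Dn π κ y d}`.  Both have at most one
element: two elements `u ≠ u'` of `U a x`, `π u < π u'`, are joined by the walk `u' ↓ x ↑ u` of length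
`≤ 2 κ`, so `WR _ π (3 κ) u' u`, contradiction to the hypothesis on `col`.  `sig x y a` is `0` if
`U a x = ∅`, `1` if `U a x ≠ ∅` and `D a y = ∅`, `2` if both are nonempty and `π u < π d` for their
elements, `3` otherwise (then, when `¬ x ≤ y`, `π d < π u`: `u = d` would give `x ≤ u ≤ y`).
Let `x, y` be as in the statement, `q i` the `π`-minimal vertex of the saturated chain from `x i` to
`y (i + 1)`, and `j` with `π (q j)` minimal among all `i : ℤ`.  Let `a = col (q j)`.
`q j ∈ U a (x j)`, `q j ∈ D a (y (j + 1))`.  As the signature is constant, it is `2` or `3` at `a` for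
all `i`; let `u i`, `d i` be the elements of `U a (x i)`, `D a (y i)`; `u j = q j = d (j + 1)`.
Case `2` : `π (u i) < π (d i)` for all `i`.  Claim for `m ≥ 1`: `π (u (j + m)) < π (q j)` and
`u (j + m) = d (j + m + 1)`.  Indeed all vertices of the chain from `x (j + m)` to `y (j + m + 1)` have
`π ≥ π (q (j + m)) ≥ π (q j) > π (u (j + m))`; the walk `d (j + m + 1) ↑ y (j + m + 1) ↓ x (j + m) ↑
u (j + m)` has length `≤ 3 κ` and its vertices have `π` at least the smaller of the values at its two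
ends, so if the two ends were different we would contradict the hypothesis on `col`.  So
`π (u (j + m + 1)) < π (d (j + m + 1)) = π (u (j + m))` : infinite descent.
Case `3` is symmetric (`π (d i) < π (u i)`, going to `- ∞`, `d (j - m) = u (j - m - 1)`). -/
def SigStmt : Prop :=
  ∀ (P : Type) [Fintype P] [PartialOrder P] (κ c : ℕ) (π : P → ℕ) (col : P → Fin c),
    Function.Injective π → (∀ v u, WR (CG P) π (3 * κ) v u → u ≠ v → col u ≠ col v) →
    ∃ sig : P → P → (Fin c → Fin 4), ¬ ∃ x y : ℤ → P, (∀ i, ¬ x i ≤ y i) ∧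
      (∀ i, ∃ L ≤ κ, ∃ w : ℕ → P, Sat L w (x i) (y (i + 1))) ∧
      ∀ i j, sig (x i) (y i) = sig (x j) (y j)

/-- LINEAR EXTENSIONS.  Proof.  Let `E a b` mean `a < b ∨ S b a`.  If `E` has no cycle then the
transitive closure of `E` is a strict partial order on the finite type `P`, and an injective
`f : P → ℕ` increasing along it exists.  If `E` has a cycle: it contains an `S`-step (as `<` has no
cycle); between two consecutive `S`-steps there are `≥ 0` steps `<`, which compose to one `≤`.  An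
`S`-step goes from `b` to `a` where `S a b`; numbering them cyclically backwards or forwards gives
pairs `(x i, y i)`, `i : ℤ`, periodic, with `S (x i) (y i)` and `x i ≤ y (i + 1)`. -/
def LinExtStmt : Prop :=
  ∀ (P : Type) [Fintype P] [PartialOrder P] (S : P → P → Prop),
    (¬ ∃ (N : ℕ) (x y : ℤ → P), 0 < N ∧ (∀ i, x (i + N) = x i ∧ y (i + N) = y i) ∧
      (∀ i, S (x i) (y i)) ∧ ∀ i, x i ≤ y (i + 1)) →
    ∃ f : P → ℕ, Function.Injective f ∧ (∀ a b, a ≤ b → f a ≤ f b) ∧ ∀ a b, S a b → f b < f a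

/-- `P` contains `k + k` -/
def HasKK (P : Type) [PartialOrder P] (k : ℕ) : Prop :=
  ∃ a b : Fin k → P, StrictMono a ∧ StrictMono b ∧ ∀ i j, ¬ a i ≤ b j ∧ ¬ b j ≤ a i

/-- a maximum chain `ch 1 ⋖ … ⋖ ch h`, with `l x` the last index `i` with `ch i ≤ x` (`0` if there is
none), `r x` the first index `i` with `x ≤ ch i` (`h + 1` if there is none) -/
structure Bb (P : Type) [PartialOrder P] (κ h : ℕ) (ch : ℕ → P) (l r : P → ℕ) : Prop where
  cov : ∀ i, 1 ≤ i → i < h → ch i ⋖ ch (i + 1)
  l_le : ∀ x, l x ≤ h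
  r_pos : ∀ x, 1 ≤ r x
  r_le : ∀ x, r x ≤ h + 1
  l_iff : ∀ x i, 1 ≤ i → i ≤ h → (ch i ≤ x ↔ i ≤ l x)
  r_iff : ∀ x i, 1 ≤ i → i ≤ h → (x ≤ ch i ↔ r x ≤ i)
  /-- every chain in the fibre of `v` has at most `κ` elements -/
  short : ∀ (v L : ℕ) (d : ℕ → P), (∀ i j, i < j → j < L → d i < d j) →
    (∀ i < L, l (d i) ≤ v ∧ v ≤ r (d i)) → L ≤ κ

/-- BACKBONE.  Proof.  `k ≥ 1` (`HasKK P 0` holds).  Let `ch 1 < … < ch h` be a chain of maximum size;
it is saturated by maximality.  `l x = max {i ≤ h | 1 ≤ i ∧ ch i ≤ x}` (or `0`) and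
`r x = min {i | 1 ≤ i ≤ h ∧ x ≤ ch i}` (or `h + 1`); the `iff`s hold because `ch` is increasing; `l`
and `r` are monotone.  `short` : let `d 0 < … < d (L - 1)` in the fibre of `v`, and suppose `2 k ≤ L`.
(a) `r (d (L - k)) ≤ v + k`: clear if `v + k > h`; else the chains `d (L - k), …, d (L - 1)` and
`ch (v + 1), …, ch (v + k)` are not a `k + k`; `ch (v + j) ≤ d i` would give `v + j ≤ l (d i) ≤ v`, so
some `d i ≤ ch (v + j)` and `r (d (L - k)) ≤ r (d i) ≤ v + j`.
(b) `v ≤ l (d (k - 1)) + k` : clear if `v ≤ k`; else use the chains `d 0, …, d (k - 1)` and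
`ch (v - k), …, ch (v - 1)`; `d i ≤ ch (v - j)` would give `v ≤ r (d i) ≤ v - j`, so some
`ch (v - j) ≤ d i`, `v - j ≤ l (d i) ≤ l (d (k - 1))`.
(c) `ch 1 < … < ch (l (d (k-1))) < d k < … < d (L - k - 1) < ch (r (d (L - k))) < … < ch h` is a
chain, so `l (d (k - 1)) + (L - 2 k) + (h + 1 - r (d (L - k))) ≤ h`, and
`L ≤ 2 k + (v + k) - (v - k) - 1 ≤ 4 k`. -/
def BackboneStmt : Prop :=
  ∀ (P : Type) [Fintype P] [PartialOrder P] [Nonempty P] (k : ℕ), ¬ HasKK P k →
    ∃ (h : ℕ) (ch : ℕ → P) (l r : P → ℕ), Bb P (4 * k) h ch l r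

/-! ## The line: models and the lemma (T) -/

/-- object `z` meets part `i`; the parts `i < m` are segments, the parts `i ≥ m` are apexes (met by
every object) -/
def Meets {ι : Type} (A : ι → Set ℕ) (m : ℕ) (S : ℕ → Set ℕ) (z : ι) (i : ℕ) : Prop :=
  i < m → (A z ∩ S i).Nonempty

/-- The family `F` of objects with attachment sets `A z` has a model of size `N`, using at most `r`
apexes: `m` disjoint segments of the line and `p ≤ r` apexes, `m + p = N`, any two different parts
met by a common object owned by one of the two parts. -/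
def Model {ι : Type} (A : ι → Set ℕ) (F : Set ι) (r N : ℕ) : Prop :=
  ∃ m p : ℕ, m + p = N ∧ p ≤ r ∧ ∃ S : ℕ → Set ℕ,
    (∀ i, i < m → (S i).OrdConnected) ∧ (∀ i j, i < j → j < m → Disjoint (S i) (S j)) ∧
    ∃ own : ι → ℕ, ∀ i j, i < j → j < N → ∃ z ∈ F, (own z = i ∨ own z = j) ∧
      Meets A m S z i ∧ Meets A m S z j

/-- the family `O` is separated by `M` functions and a selector `τ` -/
def Good {ι : Type} (A : ι → Set ℕ) (O : Set ι) (M : ℕ) : Prop :=
  ∃ (τ : ℕ → ℕ → ℕ) (φ : Fin M → ι → ℕ), (∀ a b, a ≤ b → a ≤ τ a b ∧ τ a b ≤ b) ∧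
    ∀ q ∈ O, ∀ p ∈ O, q ≠ p → ∀ a ∈ A q, ∀ b ∈ A p, a ≤ b → ∃ i, φ i q ≤ τ a b ∧ τ a b ≤ φ i p

/-- objects of `O` inside `[s, t)` -/
def Ins {ι : Type} (A : ι → Set ℕ) (O : Set ι) (s t : ℕ) : Set ι :=
  {z | z ∈ O ∧ ∀ x ∈ A z, s ≤ x ∧ x < t}

/-- objects of `O` crossing `[s, t)` -/
def Crs {ι : Type} (A : ι → Set ℕ) (O : Set ι) (s t : ℕ) : Set ι :=
  {z | z ∈ O ∧ (∃ x ∈ A z, s ≤ x ∧ x < t) ∧ ∃ y ∈ A z, y < s ∨ t ≤ y}

/-- the marks of type `e = (j, side)` of `[s, t)`: attachments in `[s, t)` of objects of class `j`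
which have an attachment to the left (`side = false`) or to the right (`side = true`) of `[s, t)` -/
def PiM {ι κ : Type} (A : ι → Set ℕ) (O : Set ι) (cls : ι → κ) (s t : ℕ) (e : κ × Bool) : Set ℕ :=
  {x | s ≤ x ∧ x < t ∧ ∃ z ∈ O, cls z = e.1 ∧ x ∈ A z ∧
    ∃ y ∈ A z, (e.2 = false ∧ y < s) ∨ (e.2 = true ∧ t ≤ y)}

/-- all marks of `[s, t)` -/
def Mk {ι κ : Type} (A : ι → Set ℕ) (O : Set ι) (cls : ι → κ) (s t : ℕ) : Set ℕ :=
  {m | s ≤ m ∧ m < t ∧ (m = s ∨ ∃ e, m ∈ PiM A O cls s t e)}

/-- objects inside `[s, t)` whose hull contains a mark -/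
def Vis {ι κ : Type} (A : ι → Set ℕ) (O : Set ι) (cls : ι → κ) (s t : ℕ) : Set ι :=
  {z | z ∈ Ins A O s t ∧ ∃ m ∈ Mk A O cls s t, (∃ x ∈ A z, x ≤ m) ∧ ∃ y ∈ A z, m ≤ y}

/-- the first mark of `Q` which is `≥ x` -/
noncomputable def cq (Q : Set ℕ) (x : ℕ) : ℕ := sInf {m | m ∈ Q ∧ x ≤ m}

/-- attachment set of `z` in the quotient of `[s, t)` onto `Q`: the attachments of `z` in `[s, t)`
which are not beyond the last element of `Q`, rounded up to elements of `Q` -/
def qA {ι : Type} (A : ι → Set ℕ) (s t : ℕ) (Q : Set ℕ) (z : ι) : Set ℕ :=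
  {g | ∃ x ∈ A z, s ≤ x ∧ x < t ∧ (∃ m ∈ Q, x ≤ m) ∧ g = cq Q x}

/-- the new classes of the quotient of type `e`: crossing objects of class `e.1` with an attachment
to the left form the class `inr false`, the other crossing objects of class `e.1` the class
`inr true`, all other objects keep their class -/
noncomputable def ncls {ι κ : Type} (A : ι → Set ℕ) (O : Set ι) (cls : ι → κ) (s t : ℕ)
    (e : κ × Bool) (z : ι) : κ ⊕ Bool := by
  classical
  exact if z ∈ Crs A O s t ∧ cls z = e.1 then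
    (if ∃ y ∈ A z, y < s then Sum.inr false else Sum.inr true) else Sum.inl (cls z)

/-- number of apexes of the new classes -/
def nr {κ : Type} (r : κ → ℕ) (j : κ) : κ ⊕ Bool → ℕ
  | Sum.inl i => r i
  | Sum.inr _ => r j + 1

/-- model sizes of the new classes -/
noncomputable def nn {κ : Type} (n : κ → ℕ) (j : κ) : κ ⊕ Bool → ℕ
  | Sum.inl i => by classical exact if i = j then n i - 1 else n i
  | Sum.inr _ => n j

/-- (T) -/
def TStmt : Prop :=
  ∀ (κ : Type) [Fintype κ] (r n : κ → ℕ), ∃ M : ℕ,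
    ∀ (ι : Type) (A : ι → Set ℕ) (O : Set ι) (cls : ι → κ) (h : ℕ),
      (∀ z ∈ O, ∀ a ∈ A z, a < h) →
      (∀ j, ¬ Model A {z | z ∈ O ∧ cls z = j} (r j) (n j + 1)) → Good A O M

/-- TRIVIAL CLASSES.  Proof: otherwise there are `n` different objects `z 0, …, z (n - 1)` in `F`;
`m = 0`, `p = n + 1 ≤ r`, `own (z i) = i` is a model of size `n + 1` (`Meets` is void for `m = 0`;
the pair `i < j < n + 1` is handled by `z i`). -/
def TrivStmt : Prop :=
  ∀ (ι : Type) (A : ι → Set ℕ) (F : Set ι) (r n : ℕ), n < r → ¬ Model A F r (n + 1) →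
    F.Finite ∧ F.ncard ≤ n

/-- QUOTIENTS OF MODELS.  Let `e = (j, σ)`, `Q = PiM A O cls s t e` (nonempty).
Facts: `cq Q` is monotone on `{x | ∃ m ∈ Q, x ≤ m}`, has values in `Q` there, and `cq Q g = g` for
`g ∈ Q`.  For a segment `S` its pullback `S' = {x | s ≤ x ∧ x < t ∧ (∃ m ∈ Q, x ≤ m) ∧ cq Q x ∈ S}`
is order connected, pullbacks of disjoint sets are disjoint, and `qA … z` meets `S` iff `A z` meets
`S'`.  If `n j = 0` the hypothesis is absurd (a model of size `1` always exists: one segment, no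
pairs).  Let `W` be the outside of `[s, t)` on the side `σ` (`[0, s)` or `[t, ∞)`).
(i) class `inl i`, `i ≠ j` : objects of class `i`; pull back all segments, same owners.
(ii) class `inl j` : the objects of class `j` in `Vis` (never crossing); given a model of size
`n j - 1 + 1 = n j` of it with `≤ r j` apexes; pull back the segments and add the segment `W`:
a model of size `n j + 1` of all objects of class `j`; owners: crossing objects are owned by `W`.
`W` and the segment `S' i` : the segment `S i` meets the attachment set of some object if `n j ≥ 2`,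
so it contains some `g ∈ Q`, and `g` is an attachment of a crossing object of class `j` with an
attachment in `W`; `W` and an apex: any crossing object of class `j` on the side `σ` (exists, `Q` is
nonempty).  If `n j = 1`: a crossing object of class `j` gives a model of size `2` directly
(segments `[s, t)` and `W`), contradiction.
(iii) class `inr b` : crossing objects of class `j` all having an attachment in `W b`, the outside on
the left (`b = false`) or right (`b = true`): given a model of size `n j + 1` with `p ≤ r j + 1`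
apexes; if `p ≤ r j` just pull back; if `p = r j + 1` replace one apex (e.g. the part `m`, the first
apex) by the segment `W b`.  (The pullbacks are inside `[s, t)`, disjoint from `W b`.) -/
def QuotStmt : Prop :=
  ∀ (κ ι : Type) (A : ι → Set ℕ) (O : Set ι) (cls : ι → κ) (r n : κ → ℕ),
    (∀ j, ¬ Model A {z | z ∈ O ∧ cls z = j} (r j) (n j + 1)) →
    ∀ (s t : ℕ) (e : κ × Bool), (PiM A O cls s t e).Nonempty → ∀ j' : κ ⊕ Bool,
      ¬ Model (qA A s t (PiM A O cls s t e))
        {z | z ∈ Vis A O cls s t ∪ Crs A O s t ∧ ncls A O cls s t e z = j'}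
        (nr r e.1 j') (nn n e.1 j' + 1)

/-- REGIONS.  See `KK/Region.lean`. -/
def RegionStmt : Prop :=
  ∀ (κ : Type) [Fintype κ] (Mf : κ × Bool → ℕ), ∃ M : ℕ,
    ∀ (ι : Type) (A : ι → Set ℕ) (O : Set ι) (cls : ι → κ) (h : ℕ),
      (∀ z ∈ O, ∀ a ∈ A z, a < h) →
      (∀ (s t : ℕ) (e : κ × Bool), (PiM A O cls s t e).Nonempty →
        Good (qA A s t (PiM A O cls s t e)) (Vis A O cls s t ∪ Crs A O s t) (Mf e)) →
      Good A O M

/-- PROOF OF (T) from `TrivStmt`, `QuotStmt`, `RegionStmt` (module `TMain`).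
Put `w (r, n) = 0` if `n < r` and `4 ^ (2 * n - r)` otherwise.  Strong induction on `∑ j, w (r j, n j)`
(for all finite `κ : Type`).  If some `n j = 0` the hypothesis on models is absurd (a model of size `1`
always exists); take `M = 0`.  So let `n j ≥ 1` for all `j`.  For `e = (j, σ)` with `r j ≤ n j` the
classes `κ ⊕ Bool` with `nr r j`, `nn n j` have the sum
`∑_{i ≠ j} w (r i, n i) + w (r j, n j - 1) + 2 w (r j + 1, n j) < ∑ w` , because
`4 ^ (2 n - 2 - r) + 2 * 4 ^ (2 n - r - 1) < 4 ^ (2 n - r)` (the terms are `0` when the new class is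
trivial); let `Mf e` be the number given by the induction hypothesis; `Mf e = 0` when `n j < r j`.
Let `M1` be the number of `RegionStmt` for `Mf` and `M = M1 + 2 * ∑ j, n j`.
Given a family as in (T): `O1 = {z ∈ O | r (cls z) ≤ n (cls z)}`.  For `e = (j, σ)` with `n j < r j`
`PiM A O1 cls s t e = ∅`; for the others the models of the classes of the quotient do not exist by
`QuotStmt` applied to `O1`, hence (induction hypothesis; all attachments `qA` are in `Q`, so `< t`; for
`Good` one may take the bound `t`) the hypothesis of `RegionStmt` holds.  So `Good A O1 M1`, with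
`τ, φ`.  The objects of `O \ O1` are at most `∑ j, n j` by `TrivStmt`; for each such `z0` add the two
functions `z ↦ (0 if z = z0, else h)` and `z ↦ (h if z = z0, else 0)`; all `τ a b` used are `< h`
(`τ a b ≤ b`). -/
def TMainDoc : Prop := True

/-! ## Hubs and potentials -/

/-- the attachment set of the hub `z` -/
def HA {P : Type} [PartialOrder P] (κ : ℕ) (π l r : P → ℕ) (z : P) : Set ℕ :=
  {a | (∃ x, Up π κ x z ∧ a = r x) ∨ ∃ y, Dn π κ y z ∧ a = l y}

/-- PATHS FROM THE BACKBONE TO A HUB.  Proof.  First case: `a = r x`, `Up π κ x z`, witnessed by the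
saturated chain `u 0 = x, …, u L2 = z`.  By `r_iff`, `x ≤ ch a`.  Take a saturated chain
`v 0 = x, …, v L1 = ch a`; `r` is monotone and `r (ch a) = a`, so `r (v t) = a` for all `t ≤ L1`, and
`l (v t) ≤ a` (in general `l y ≤ r y`), so `L1 + 1 ≤ κ` by `short` with the fibre of `a`.  The walk
`ch a = v L1, …, v 0 = x = u 0, …, u L2 = z`, with `T = L1`.  All `u t` have `WR (CG P) π κ (u t) z`.
Second case: `a = l y`, `Dn π κ y z`: `ch a ≤ y`, saturated chain from `ch a` up to `y`, all
`l = a`, then down to `z`. -/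
def HubPathStmt : Prop :=
  ∀ (P : Type) [Fintype P] [PartialOrder P] (κ h : ℕ) (ch : ℕ → P) (l r π : P → ℕ),
    Bb P κ h ch l r → ∀ (z : P) (a : ℕ), a ∈ HA κ π l r z → 1 ≤ a → a ≤ h →
      ∃ (L T : ℕ) (w : ℕ → P), T ≤ L ∧ L ≤ 2 * κ ∧ w 0 = ch a ∧ w L = z ∧
        (∀ t < L, (CG P).Adj (w t) (w (t + 1))) ∧
        (∀ t ≤ T, r (w t) = a ∨ l (w t) = a) ∧ ∀ t ≤ L, T ≤ t → WR (CG P) π κ (w t) z

/-- MODELS OF HUBS GIVE MINORS (from `HubPathStmt`, `FreeSetStmt`, `WalkMinorStmt`).
Proof.  Let `D = (4 * κ + 1) * (c + 2)` and `N = n ^ 2 + n ^ 3 * D + 2 * n + 3`.  Let a model of size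
`N` without apexes be given: segments `S 0, …, S (N - 1)`, `own`.  For `v : ℕ` let
`seg v` be the set of `i < N` with `v ∈ S i` (at most one element), and for a vertex `w` let
`As w = seg (r w) ∪ seg (l w) ∪ {own z | WR (CG P) π κ w z}`, at most `c + 2` elements.
`Z = seg 0 ∪ seg (h + 1)` (attachments are between `0` and `h + 1`).
For `i < j < N`, `i, j ∉ Z`, choose an object `z` owned by `i` or `j` with `a ∈ HA z ∩ S i`,
`b ∈ HA z ∩ S j`, `1 ≤ a, b ≤ h`; `HubPathStmt` gives walks `ch b → z` and `ch a → z`; let `W i j` be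
the walk `ch b → z → ch a` (length at most `4 κ`), and let `X i j = X j i` be the union of `As w` over
its vertices (empty if `i` or `j` is in `Z`, or `i = j`).  Cardinality at most `D`.  `FreeSetStmt`
gives `g : Fin n → ℕ`.
Apply `WalkMinorStmt` with `K i = {ch a | a ∈ S (g i), 1 ≤ a ≤ h}` and
`X w = {i | g i ∈ As w}`.  `K i` is nonempty: `N ≥ 2`, so `S (g i)` contains an attachment, which is
between `0` and `h + 1` and is not `0` or `h + 1` as `g i ∉ Z`; `K i` is connected by `cov`; the
`K i` are disjoint (`ch` is injective on `[1, h]`); `l (ch a) = r (ch a) = a` gives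
`i ∈ X w` for `w ∈ K i`.  For `i < j` take the walk of the pair `g i, g j` (reversed if
`g j < g i`): it goes from `K j` to `K i`; along the first part (`ch b` to the point `T` of its first
walk) `g j ∈ seg (r w) ∪ seg (l w)`, then up to the point `T` of the second walk `WR _ π κ w z`, i.e.
`own z ∈ As w`, and then `g i ∈ seg (r w) ∪ seg (l w)`.  If `own z` is `g i` cut at the first point,
otherwise at the second one.  `X (w t) ⊆ {i, j}` by the choice of `g`. -/
def HubStmt : Prop :=
  ∀ n κ c : ℕ, ∃ N : ℕ, ∀ (P : Type) [Fintype P] [PartialOrder P] (h : ℕ) (ch : ℕ → P)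
    (l r π : P → ℕ), Bb P κ h ch l r → (∀ v, {u | WR (CG P) π κ v u}.ncard ≤ c) →
      ¬ HasMinor (CG P) n → ¬ Model (HA κ π l r) Set.univ 0 N

/-- POTENTIALS.  Proof.  Index set `Θ = Bool ⊕ Set (Set (Fin M))` (finite).  `u = inl false`:
`θl = θu = l`; `u = inl true` : `θl = θu = r`; `u = inr 𝒰` : for a hub `z` let
`ψ z = sSup {v | v ≤ h + 1 ∧ ∃ U ∈ 𝒰, ∀ i ∈ U, v ≤ φ i z}`, and
`θu y = max (l y) (sup of ψ z over all z with Dn π κ y z)`,
`θl x = min (r x) (inf of ψ z over all z with Up π κ x z)` (these sets are nonempty: they contain `y`,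
`x`), where `τ, φ` come from `Good`.
(1) `l y ≤ θu y`, `θl x ≤ r x`: clear (`l x ≤ r x` always).
(2) `x ≤ y → θl x ≤ θu y`: clear for `l`, `r` (monotone).  For `𝒰`: if `r x ≤ l y` clear.  Otherwise
`l y < r x`; take a saturated chain from `x` to `y`; its elements `w` satisfy
`l w ≤ l y ≤ r x ≤ r w`, so by `short` (fibre of `l y`) it has at most `κ` elements; its `π`-minimal
element `z` satisfies `Up π κ x z` and `Dn π κ y z`, so `θl x ≤ ψ z ≤ θu y`.
(3) if `¬ x ≤ y` then `θu y ≤ θl x` for some index: then `l y < r x` (otherwise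
`x ≤ ch (r x) ≤ ch (l y) ≤ y`; note `1 ≤ r x ≤ l y ≤ h`).  If `l y ≤ l x` take `l`; if `r y ≤ r x` take
`r`.  Otherwise let `τ0 = τ (l y) (r x)`, `l y ≤ τ0 ≤ r x`, and
`𝒰 = {U | ∃ p, Up π κ x p ∧ {i | τ0 ≤ φ i p} ⊆ U}`.  For `p` with `Up π κ x p`: `τ0 ≤ ψ p`
(`U = {i | τ0 ≤ φ i p}`), so `τ0 ≤ θl x`.  For `q` with `Dn π κ y q`: `ψ q ≤ τ0`, since for `U ∈ 𝒰`
with witness `p`, `q ≠ p` (else `x ≤ p ≤ y`), `l y ∈ HA q`, `r x ∈ HA p`, so `Good` gives `i` with
`φ i q ≤ τ0 ≤ φ i p`, `i ∈ U`; so `θu y ≤ τ0`. -/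
def PotentialStmt : Prop :=
  ∀ M : ℕ, ∃ T : ℕ, ∀ (P : Type) [Fintype P] [PartialOrder P] (κ h : ℕ) (ch : ℕ → P)
    (l r π : P → ℕ), Bb P κ h ch l r → Good (HA κ π l r) Set.univ M →
      ∃ θl θu : Fin T → P → ℕ, (∀ u x, l x ≤ θu u x ∧ θl u x ≤ r x) ∧
        (∀ u x y, x ≤ y → θl u x ≤ θu u y) ∧ ∀ x y, ¬ x ≤ y → ∃ u, θu u y ≤ θl u x

/-- THE THEOREM, from `TStmt`, `WColStmt`, `ColStmt`, `SigStmt`, `LinExtStmt`, `BackboneStmt`,
`HubStmt`, `PotentialStmt` (module `Main`).
Proof.  Given `n, k`; `κ = 4 k`; `c` from `WColStmt n (3 κ)`; `N` from `HubStmt n κ c`; `M` from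
`TStmt` with one class (`κ := Unit`), `r = 0`, `n = N` (no model of size `N + 1`: a model of size
`N + 1` restricts to one of size `N` by dropping the last segment, as there are no apexes; or take `n = N - 1`, as `N ≥ 1` may be assumed, a model of size `0` always exists); `T` from `PotentialStmt M`;
`d0 = T * 4 ^ (c + 1) + 1`.  Let `P` be a poset without `k + k` and without `K_n` minor; we construct
a realizer of size `T * 4 ^ (c + 1)`.  `P` empty: trivial.  Otherwise `Bb P κ h ch l r`
(`BackboneStmt`), `π` (`WColStmt`, radius `3 κ`; the sets for radius `κ` are smaller), `col`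
(`ColStmt` with `R = WR (CG P) π (3 κ)`), `sig : P → P → (Fin (c + 1) → Fin 4)`, `θl`, `θu`.
For `u : Fin T` and `s : Fin (c + 1) → Fin 4` let
`S x y ↔ ¬ x ≤ y ∧ θu u y ≤ θl u x ∧ sig x y = s`.  No periodic alternating sequence in `S`: along
it `θl (x i) ≤ θu (y (i + 1)) ≤ θl (x (i + 1))`, so by periodicity all these numbers are equal to some
`v`; `l (y (i + 1)) ≤ θu (y (i + 1)) = v = θl (x i) ≤ r (x i)`, so all elements of a saturated chain
from `x i` to `y (i + 1)` are in the fibre of `v` and it has at most `κ` elements: contradiction to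
`SigStmt`.  `LinExtStmt` gives `f_{u, s}`.  These functions are a realizer: if `¬ x ≤ y` take `u` from
(3) and `s = sig x y`; then `f y < f x`. -/
def Final : Prop :=
  ∀ n k : ℕ, ∃ d0 : ℕ, ∀ (P : Type) [Fintype P] [PartialOrder P],
    (∀ m : ℕ, m < d0 → ¬ ∃ f : Fin m → P → ℕ,
        (∀ i, Function.Injective (f i)) ∧ ∀ x y : P, x ≤ y ↔ ∀ i, f i x ≤ f i y) →
    HasKK P k ∨ HasMinor (CG P) n

end Pool.Agent.MP763071.KK
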